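import Pool.Agent.Work.MP_185d81_co.Turan

namespace EH73

open Finset Classical

variable {V : Type} [Fintype V]

theorem indLe_indepNum (G : SimpleGraph V) : IndLe G G.indepNum := by
  intro s hs
  exact hs.card_le_indepNum

theorem k4case (G : SimpleGraph V) (hP : P73 G) (x y z w : V) (hxy : G.Adj x y) (hxz : G.Adj x z)
    (hxw : G.Adj x w) (hyz : G.Adj y z) (hyw : G.Adj y w) (hzw : G.Adj z w) :
    Fintype.card V ≤ G.indepNum * (G.indepNum + 1) + 4 := by
  set Q : Finset V := {x, y, z, w} with hQ
  have hQc : Q.card = 4 := by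
    rw [hQ, Finset.card_insert_of_notMem, Finset.card_insert_of_notMem, Finset.card_insert_of_notMem,
      Finset.card_singleton]
    · simpa using hzw.ne
    · simp only [Finset.mem_insert, Finset.mem_singleton, not_or]
      exact ⟨hyz.ne, hyw.ne⟩
    · simp only [Finset.mem_insert, Finset.mem_singleton, not_or]
      exact ⟨hxy.ne, hxz.ne, hxw.ne⟩
  have hQadj : ∀ a ∈ Q, ∀ b ∈ Q, a ≠ b → G.Adj a b := by
    intro a ha b hb hab
    simp only [hQ, Finset.mem_insert, Finset.mem_singleton] at ha hb
    rcases ha with rfl | rfl | rfl | rfl <;> rcases hb with rfl | rfl | rfl | rfl <;>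
      first | exact absurd rfl hab | assumption | (apply SimpleGraph.Adj.symm; assumption)
  set U : Finset V := univ.filter fun v => v ∉ Q with hU
  -- no triangle in `U`
  have htri : ∀ u ∈ U, ∀ v ∈ U, ∀ t ∈ U, G.Adj u v → G.Adj u t → G.Adj v t → False := by
    intro u hu v hv t ht huv hut hvt
    simp only [hU, Finset.mem_filter, Finset.mem_univ, true_and] at hu hv ht
    set R : Finset V := {u, v, t} with hR
    have hRc : R.card = 3 := by
      rw [hR, Finset.card_insert_of_notMem, Finset.card_insert_of_notMem, Finset.card_singleton]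
      · simpa using hvt.ne
      · simp only [Finset.mem_insert, Finset.mem_singleton, not_or]
        exact ⟨huv.ne, hut.ne⟩
    have hRadj : ∀ a ∈ R, ∀ b ∈ R, a ≠ b → G.Adj a b := by
      intro a ha b hb hab
      simp only [hR, Finset.mem_insert, Finset.mem_singleton] at ha hb
      rcases ha with rfl | rfl | rfl <;> rcases hb with rfl | rfl | rfl <;>
        first | exact absurd rfl hab | assumption | (apply SimpleGraph.Adj.symm; assumption)
    have hdisj : Disjoint Q R := by
      rw [Finset.disjoint_left]
      intro a ha ha'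
      simp only [hR, Finset.mem_insert, Finset.mem_singleton] at ha'
      rcases ha' with rfl | rfl | rfl
      · exact hu ha
      · exact hv ha
      · exact ht ha
    have hc : (Q ∪ R).card = 7 := by
      rw [Finset.card_union_of_disjoint hdisj, hQc, hRc]
    obtain ⟨s, hs, hsi⟩ := hP (Q ∪ R) hc
    have h1 : (s ∩ Q).card ≤ 1 := by
      rw [Finset.card_le_one]
      intro a ha b hb
      by_contra hab
      rw [Finset.mem_inter] at ha hb
      exact hsi.isIndepSet (by exact_mod_cast ha.1) (by exact_mod_cast hb.1) hab
        (hQadj a ha.2 b hb.2 hab)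
    have h2 : (s ∩ R).card ≤ 1 := by
      rw [Finset.card_le_one]
      intro a ha b hb
      by_contra hab
      rw [Finset.mem_inter] at ha hb
      exact hsi.isIndepSet (by exact_mod_cast ha.1) (by exact_mod_cast hb.1) hab
        (hRadj a ha.2 b hb.2 hab)
    have h3 : s.card ≤ (s ∩ Q).card + (s ∩ R).card := by
      calc s.card ≤ ((s ∩ Q) ∪ (s ∩ R)).card := by
            apply Finset.card_le_card
            intro a ha
            have := hs ha
            simp only [Finset.mem_union, Finset.mem_inter] at this ⊢
            tauto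
        _ ≤ _ := Finset.card_union_le _ _
    have := hsi.card_eq
    omega
  have hdeg : ∀ v ∈ U, (U.filter fun y => G.Adj v y).card ≤ G.indepNum := by
    intro v hv
    apply indLe_indepNum
    intro a ha b hb hab hadj
    simp only [Finset.coe_filter, Set.mem_ofPred_eq] at ha hb
    exact htri v hv a ha.1 b hb.1 ha.2 hb.2 hadj
  have hUc := turan_deg (indLe_indepNum G) U G.indepNum hdeg
  have hsum : Fintype.card V ≤ U.card + Q.card := by
    rw [← Finset.card_univ]
    calc (univ : Finset V).card ≤ (U ∪ Q).card := by
          apply Finset.card_le_card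
          intro a _
          simp only [hU, Finset.mem_union, Finset.mem_filter, Finset.mem_univ, true_and]
          tauto
      _ ≤ _ := Finset.card_union_le _ _
  omega

theorem good_of_P73 (G : SimpleGraph V) (hP : P73 G)
    (hk4 : ∀ x y z w : V, G.Adj x y → G.Adj x z → G.Adj x w → G.Adj y z → G.Adj y w → G.Adj z w → False) :
    Good G G.indepNum := by
  refine ⟨indLe_indepNum G, hk4, ?_⟩
  intro x p q r s z z' hxp hxq hpq hxr hxs hrs hpr hps hqr hqs hzx hzp hzq hz'x hz'r hz's hzz'
  have hzr : z ≠ r := by
    rintro rfl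
    exact hk4 x p q z hxp hxq hxr hpq hzp.symm hzq.symm
  have hzs : z ≠ s := by
    rintro rfl
    exact hk4 x p q z hxp hxq hxs hpq hzp.symm hzq.symm
  have hz'p : z' ≠ p := by
    rintro rfl
    exact hk4 x r s z' hxr hxs hxp hrs hz'r.symm hz's.symm
  have hz'q : z' ≠ q := by
    rintro rfl
    exact hk4 x r s z' hxr hxs hxq hrs hz'r.symm hz's.symm
  set A : Finset V := {p, q, z} with hA
  set B : Finset V := {r, s, z'} with hB
  have hAadj : ∀ a ∈ A, ∀ b ∈ A, a ≠ b → G.Adj a b := by
    intro a ha b hb hab
    simp only [hA, Finset.mem_insert, Finset.mem_singleton] at ha hb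
    rcases ha with rfl | rfl | rfl <;> rcases hb with rfl | rfl | rfl <;>
      first | exact absurd rfl hab | assumption | (apply SimpleGraph.Adj.symm; assumption)
  have hBadj : ∀ a ∈ B, ∀ b ∈ B, a ≠ b → G.Adj a b := by
    intro a ha b hb hab
    simp only [hB, Finset.mem_insert, Finset.mem_singleton] at ha hb
    rcases ha with rfl | rfl | rfl <;> rcases hb with rfl | rfl | rfl <;>
      first | exact absurd rfl hab | assumption | (apply SimpleGraph.Adj.symm; assumption)
  have hAc : A.card = 3 := by
    rw [hA, Finset.card_insert_of_notMem, Finset.card_insert_of_notMem, Finset.card_singleton]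
    · simpa using hzq.ne.symm
    · simp only [Finset.mem_insert, Finset.mem_singleton, not_or]
      exact ⟨hpq.ne, hzp.ne.symm⟩
  have hBc : B.card = 3 := by
    rw [hB, Finset.card_insert_of_notMem, Finset.card_insert_of_notMem, Finset.card_singleton]
    · simpa using hz's.ne.symm
    · simp only [Finset.mem_insert, Finset.mem_singleton, not_or]
      exact ⟨hrs.ne, hz'r.ne.symm⟩
  have hAB : Disjoint A B := by
    rw [Finset.disjoint_left]
    intro a ha hb
    simp only [hA, hB, Finset.mem_insert, Finset.mem_singleton] at ha hb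
    rcases ha with rfl | rfl | rfl
    · rcases hb with h | h | h
      · exact hpr h
      · exact hps h
      · exact hz'p h.symm
    · rcases hb with h | h | h
      · exact hqr h
      · exact hqs h
      · exact hz'q h.symm
    · rcases hb with h | h | h
      · exact hzr h
      · exact hzs h
      · exact hzz'.ne h
  have hxAB : x ∉ A ∪ B := by
    simp only [hA, hB, Finset.mem_union, Finset.mem_insert, Finset.mem_singleton, not_or]
    exact ⟨⟨hxp.ne, hxq.ne, hzx.symm⟩, hxr.ne, hxs.ne, hz'x.symm⟩
  have hc : (insert x (A ∪ B)).card = 7 := by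
    rw [Finset.card_insert_of_notMem hxAB, Finset.card_union_of_disjoint hAB, hAc, hBc]
  obtain ⟨t, ht, hti⟩ := hP _ hc
  have hind : ∀ a ∈ t, ∀ b ∈ t, a ≠ b → ¬ G.Adj a b := by
    intro a ha b hb hab
    exact hti.isIndepSet (by exact_mod_cast ha) (by exact_mod_cast hb) hab
  have h1 : (t ∩ A).card ≤ 1 := by
    rw [Finset.card_le_one]
    intro a ha b hb
    by_contra hab
    rw [Finset.mem_inter] at ha hb
    exact hind a ha.1 b hb.1 hab (hAadj a ha.2 b hb.2 hab)
  have h2 : (t ∩ B).card ≤ 1 := by
    rw [Finset.card_le_one]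
    intro a ha b hb
    by_contra hab
    rw [Finset.mem_inter] at ha hb
    exact hind a ha.1 b hb.1 hab (hBadj a ha.2 b hb.2 hab)
  have hcard := hti.card_eq
  by_cases hxt : x ∈ t
  · -- `t ⊆ {x, z, z'}`
    have hsub : t ⊆ {x, z, z'} := by
      intro a ha
      have h3 := ht ha
      simp only [hA, hB, Finset.mem_insert, Finset.mem_union, Finset.mem_singleton] at h3
      simp only [Finset.mem_insert, Finset.mem_singleton]
      rcases h3 with h | (h | h | h) | (h | h | h)
      · exact Or.inl h
      · exact absurd (h ▸ hxp) (hind x hxt a ha (h ▸ hxp.ne))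
      · exact absurd (h ▸ hxq) (hind x hxt a ha (h ▸ hxq.ne))
      · exact Or.inr (Or.inl h)
      · exact absurd (h ▸ hxr) (hind x hxt a ha (h ▸ hxr.ne))
      · exact absurd (h ▸ hxs) (hind x hxt a ha (h ▸ hxs.ne))
      · exact Or.inr (Or.inr h)
    have h5 : ({x, z, z'} : Finset V).card ≤ 3 := Finset.card_le_three
    have heq : t = {x, z, z'} := Finset.eq_of_subset_of_card_le hsub (by omega)
    exact hind z (by rw [heq]; simp) z' (by rw [heq]; simp) hzz'.ne hzz'
  · have h3 : t.card ≤ (t ∩ A).card + (t ∩ B).card := by
      calc t.card ≤ ((t ∩ A) ∪ (t ∩ B)).card := by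
            apply Finset.card_le_card
            intro a ha
            have h4 := ht ha
            have h5 : a ≠ x := fun h => hxt (h ▸ ha)
            simp only [Finset.mem_insert, Finset.mem_union, Finset.mem_inter] at h4 ⊢
            tauto
        _ ≤ _ := Finset.card_union_le _ _
    omega

end EH73
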