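import Pool.Agent.Work.MP_185d81_co.Core

/-!
# Asym: choice of K and J   (120 lines, real powers)

Let ε > 0. Choose J ≥ 1 with 40/J ≤ 18 ε. For n large let K = ⌈n^(1/J)⌉ (so K^J ≥ n, K ≤ 2 n^(1/J),
K ≥ 100, K ≥ 8(J+1) for n ≥ N0). Let a = G.indepNum; 1 ≤ a for n ≥ 1. Suppose a < n^(8/19 - ε).
Then 2a ≤ n for large n (so a < n ≤ K^J), and `sq_le` gives n² ≤ a |dar G| + a n ≤ a |dar G| + n²/2, so
n² ≤ 2 a |dar G|. With `core` and C_J = (4/3)^(8((J+1)²+1)):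
n^16 ≤ 2^8 a^8 |dar G|^8 ≤ 2^8 C_J K^40 n^8 a^19 ≤ 2^48 C_J n^(40/J) n^8 a^19, so
n^(8 - 40/J) ≤ 2^48 C_J a^19 < 2^48 C_J n^(8 - 19 ε), so n^ε ≤ n^(19 ε - 40/J) < 2^48 C_J, false for n ≥ N.
-/

namespace EH73

open Finset Classical

theorem asym (ε : ℝ) (hε : 0 < ε) : ∃ N : ℕ, ∀ n : ℕ, N ≤ n → ∀ G : SimpleGraph (Fin n),
    Good G G.indepNum → (n : ℝ) ^ ((8 : ℝ) / 19 - ε) ≤ (G.indepNum : ℝ) := by
  obtain ⟨J, hJ1, hJ⟩ : ∃ J : ℕ, 1 ≤ J ∧ 40 / (J : ℝ) ≤ 18 * ε := by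
    obtain ⟨J, hJ⟩ := exists_nat_gt (40 / (18 * ε))
    refine ⟨J + 1, by omega, ?_⟩
    rw [div_lt_iff₀ (by positivity)] at hJ
    rw [div_le_iff₀ (by positivity)]
    push_cast
    nlinarith
  have hJpos : (0 : ℝ) < J := by exact_mod_cast hJ1
  obtain ⟨C, hC⟩ : ∃ C : ℝ, C = 2 ^ 48 * ((4 : ℝ) ^ ((J + 1) ^ 2 + 1)) ^ 8 := ⟨_, rfl⟩
  have h1 : Filter.Tendsto (fun n : ℕ => (n : ℝ) ^ ε) Filter.atTop Filter.atTop :=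
    (tendsto_rpow_atTop hε).comp tendsto_natCast_atTop_atTop
  have h2 : Filter.Tendsto (fun n : ℕ => (n : ℝ) ^ (1 / (J : ℝ))) Filter.atTop Filter.atTop :=
    (tendsto_rpow_atTop (by positivity)).comp tendsto_natCast_atTop_atTop
  obtain ⟨N, hN⟩ := Filter.eventually_atTop.1 ((h1.eventually_gt_atTop C).and
    ((h2.eventually_ge_atTop (100 + 8 * ((J : ℝ) + 1))).and (Filter.eventually_ge_atTop 4)))
  refine ⟨N, fun n hn G hG => ?_⟩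
  obtain ⟨g1, g2, g3⟩ := hN n hn
  by_contra hcon
  push Not at hcon
  set a := G.indepNum with ha_def
  have hx4 : (4 : ℝ) ≤ (n : ℝ) := by exact_mod_cast g3
  have hx1 : (1 : ℝ) ≤ (n : ℝ) := by linarith
  have hx0 : (0 : ℝ) < (n : ℝ) := by linarith
  have ha1 : 1 ≤ a := by
    have hn0 : 0 < n := by omega
    have h := hG.ind {⟨0, hn0⟩} (by simp [SimpleGraph.IsIndepSet])
    simpa using h
  have hA1 : (1 : ℝ) ≤ (a : ℝ) := by exact_mod_cast ha1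
  -- K
  set y : ℝ := (n : ℝ) ^ (1 / (J : ℝ)) with hy
  set K : ℕ := ⌈y⌉₊ with hK
  have hy0 : 0 ≤ y := by positivity
  have hyK : y ≤ (K : ℝ) := Nat.le_ceil y
  have hKy : (K : ℝ) ≤ 2 * y := by
    have := Nat.ceil_lt_add_one hy0
    have h3 : (0 : ℝ) ≤ J := hJpos.le
    linarith
  have hKbig : (100 + 8 * ((J : ℝ) + 1)) ≤ (K : ℝ) := g2.trans hyK
  have hK100 : 100 ≤ K := by
    have : (100 : ℝ) ≤ (K : ℝ) := by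
      have h3 : (0 : ℝ) ≤ J := hJpos.le
      linarith
    exact_mod_cast this
  have hKJ8 : 8 * (J + 1) ≤ K := by
    have : (8 * (J + 1) : ℝ) ≤ (K : ℝ) := by linarith
    exact_mod_cast this
  have hyJ : y ^ J = (n : ℝ) := by
    rw [hy, ← Real.rpow_natCast, ← Real.rpow_mul hx0.le, one_div_mul_cancel hJpos.ne',
      Real.rpow_one]
  have hKJn : (n : ℝ) ≤ (K : ℝ) ^ J := by
    rw [← hyJ]
    exact pow_le_pow_left₀ hy0 hyK J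
  -- bounds for a
  have ha819 : (a : ℝ) ≤ (n : ℝ) ^ ((8 : ℝ) / 19) :=
    hcon.le.trans (Real.rpow_le_rpow_of_exponent_le hx1 (by linarith))
  have h2a : 2 * (a : ℝ) ≤ (n : ℝ) := by
    have h3 : (2 : ℝ) ≤ (n : ℝ) ^ ((11 : ℝ) / 19) := by
      calc (2 : ℝ) = (4 : ℝ) ^ ((1 : ℝ) / 2) := by
            rw [← Real.sqrt_eq_rpow, show (4 : ℝ) = 2 ^ 2 by norm_num,
              Real.sqrt_sq (by norm_num)]
        _ ≤ (4 : ℝ) ^ ((11 : ℝ) / 19) :=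
            Real.rpow_le_rpow_of_exponent_le (by norm_num) (by norm_num)
        _ ≤ (n : ℝ) ^ ((11 : ℝ) / 19) := Real.rpow_le_rpow (by norm_num) hx4 (by norm_num)
    calc 2 * (a : ℝ) ≤ (n : ℝ) ^ ((11 : ℝ) / 19) * (n : ℝ) ^ ((8 : ℝ) / 19) :=
          mul_le_mul h3 ha819 (by linarith) (by positivity)
      _ = (n : ℝ) := by
          rw [← Real.rpow_add hx0]
          norm_num
  have haK : a < K ^ J := by
    have h3 : (a : ℝ) < (K : ℝ) ^ J := by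
      have : (a : ℝ) < n := by linarith
      linarith
    exact_mod_cast h3
  have hcore := core hG ha1 K J hK100 hKJ8 haK
  have hsq := sq_le hG.ind
  rw [Fintype.card_fin] at hcore hsq
  set E := (dar G).card with hE
  have hsqR : (n : ℝ) ^ 2 ≤ (a : ℝ) * ((E : ℝ) + (n : ℝ)) := by exact_mod_cast hsq
  have hcoreR : ((3 : ℝ) ^ ((J + 1) ^ 2 + 1) * (E : ℝ)) ^ 8 ≤
      ((4 : ℝ) ^ ((J + 1) ^ 2 + 1)) ^ 8 * ((K : ℝ) ^ 40 * (n : ℝ) ^ 8 * (a : ℝ) ^ 11) := by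
    exact_mod_cast hcore
  have h4 : (n : ℝ) ^ 2 ≤ 2 * (a : ℝ) * (E : ℝ) := by nlinarith
  have hE0 : (0 : ℝ) ≤ (E : ℝ) := by positivity
  have h5 : ((n : ℝ) ^ 2) ^ 8 ≤ (2 * (a : ℝ) * (E : ℝ)) ^ 8 :=
    pow_le_pow_left₀ (by positivity) h4 8
  have h3m : (1 : ℝ) ≤ ((3 : ℝ) ^ ((J + 1) ^ 2 + 1)) ^ 8 :=
    one_le_pow₀ (one_le_pow₀ (by norm_num))
  have h6 : (E : ℝ) ^ 8 ≤
      ((4 : ℝ) ^ ((J + 1) ^ 2 + 1)) ^ 8 * ((K : ℝ) ^ 40 * (n : ℝ) ^ 8 * (a : ℝ) ^ 11) := by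
    refine le_trans ?_ hcoreR
    rw [mul_pow]
    exact le_mul_of_one_le_left (by positivity) h3m
  have h7 : (n : ℝ) ^ 16 ≤ 2 ^ 8 * ((4 : ℝ) ^ ((J + 1) ^ 2 + 1)) ^ 8 * (K : ℝ) ^ 40 *
      (n : ℝ) ^ 8 * (a : ℝ) ^ 19 := by
    calc (n : ℝ) ^ 16 = ((n : ℝ) ^ 2) ^ 8 := by ring
      _ ≤ (2 * (a : ℝ) * (E : ℝ)) ^ 8 := h5
      _ = 2 ^ 8 * (a : ℝ) ^ 8 * (E : ℝ) ^ 8 := by ring
      _ ≤ 2 ^ 8 * (a : ℝ) ^ 8 * (((4 : ℝ) ^ ((J + 1) ^ 2 + 1)) ^ 8 *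
          ((K : ℝ) ^ 40 * (n : ℝ) ^ 8 * (a : ℝ) ^ 11)) :=
          mul_le_mul_of_nonneg_left h6 (by positivity)
      _ = _ := by ring
  have h8 : (n : ℝ) ^ 8 ≤ 2 ^ 8 * ((4 : ℝ) ^ ((J + 1) ^ 2 + 1)) ^ 8 * (K : ℝ) ^ 40 *
      (a : ℝ) ^ 19 := by
    have h9 : (n : ℝ) ^ 8 * (n : ℝ) ^ 8 ≤ (n : ℝ) ^ 8 *
        (2 ^ 8 * ((4 : ℝ) ^ ((J + 1) ^ 2 + 1)) ^ 8 * (K : ℝ) ^ 40 * (a : ℝ) ^ 19) := by
      calc (n : ℝ) ^ 8 * (n : ℝ) ^ 8 = (n : ℝ) ^ 16 := by ring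
        _ ≤ _ := h7
        _ = _ := by ring
    exact le_of_mul_le_mul_left h9 (by positivity)
  have h10 : (K : ℝ) ^ 40 ≤ 2 ^ 40 * (n : ℝ) ^ (40 / (J : ℝ)) := by
    calc (K : ℝ) ^ 40 ≤ (2 * y) ^ 40 := pow_le_pow_left₀ (by positivity) hKy 40
      _ = 2 ^ 40 * y ^ 40 := by rw [mul_pow]
      _ = 2 ^ 40 * (n : ℝ) ^ (40 / (J : ℝ)) := by
          congr 1
          rw [hy, ← Real.rpow_natCast, ← Real.rpow_mul hx0.le]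
          congr 1
          push_cast
          ring
  have h11 : (a : ℝ) ^ 19 ≤ (n : ℝ) ^ (8 - 19 * ε) := by
    calc (a : ℝ) ^ 19 ≤ ((n : ℝ) ^ ((8 : ℝ) / 19 - ε)) ^ 19 :=
          pow_le_pow_left₀ (by positivity) hcon.le 19
      _ = (n : ℝ) ^ (8 - 19 * ε) := by
          rw [← Real.rpow_natCast, ← Real.rpow_mul hx0.le]
          congr 1
          push_cast
          ring
  have h12 : (n : ℝ) ^ (8 : ℝ) ≤ C * (n : ℝ) ^ (40 / (J : ℝ) + (8 - 19 * ε)) := by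
    calc (n : ℝ) ^ (8 : ℝ) = (n : ℝ) ^ 8 := by
          rw [← Real.rpow_natCast]; norm_num
      _ ≤ 2 ^ 8 * ((4 : ℝ) ^ ((J + 1) ^ 2 + 1)) ^ 8 * (K : ℝ) ^ 40 * (a : ℝ) ^ 19 := h8
      _ ≤ 2 ^ 8 * ((4 : ℝ) ^ ((J + 1) ^ 2 + 1)) ^ 8 * (2 ^ 40 * (n : ℝ) ^ (40 / (J : ℝ))) *
          (n : ℝ) ^ (8 - 19 * ε) := by gcongr
      _ = C * (n : ℝ) ^ (40 / (J : ℝ) + (8 - 19 * ε)) := by
          rw [Real.rpow_add hx0, hC]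
          ring
  have h13 : (n : ℝ) ^ (40 / (J : ℝ) + (8 - 19 * ε)) ≤ (n : ℝ) ^ (8 - ε) :=
    Real.rpow_le_rpow_of_exponent_le hx1 (by linarith)
  have hC0 : 0 ≤ C := by rw [hC]; positivity
  have h14 : (n : ℝ) ^ (8 : ℝ) = (n : ℝ) ^ ε * (n : ℝ) ^ (8 - ε) := by
    rw [← Real.rpow_add hx0]
    congr 1
    ring
  have h15 : (n : ℝ) ^ ε * (n : ℝ) ^ (8 - ε) ≤ C * (n : ℝ) ^ (8 - ε) := by
    rw [← h14]
    exact h12.trans (mul_le_mul_of_nonneg_left h13 hC0)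
  have h16 := le_of_mul_le_mul_right h15 (by positivity)
  linarith

end EH73
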