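import Pool.Agent.Work.MP_185d81_co.Defs

namespace EH73

open Finset Classical

variable {V : Type} [Fintype V]

theorem cod_le {G : SimpleGraph V} {a : ℕ} (hG : Good G a) {A B : SimpleGraph V} (hA : A ≤ G)
    (hB : B ≤ G) {u v : V} (huv : G.Adj u v) : cod A B u v ≤ a := by
  apply hG.ind
  intro x hx y hy _ hxy
  simp only [cn, Finset.coe_filter, Finset.mem_univ, true_and, Set.mem_ofPred_eq] at hx hy
  exact hG.k4 u v x y huv (hA hx.1) (hA hy.1) (hB hx.2) (hB hy.2) hxy

theorem hh_le {G L : SimpleGraph V} {a : ℕ} (hG : Good G a) (hL : L ≤ G) (q : ℕ) {z u : V}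
    (hzu : L.Adj z u) : hh G L q z u ≤ a := by
  refine le_trans ?_ (cod_le hG hL le_rfl (hL hzu) : cod L G z u ≤ a)
  unfold hh cod cn
  apply Finset.card_le_card
  intro v hv
  simp only [Finset.mem_filter, Finset.mem_univ, true_and] at hv ⊢
  exact ⟨hv.1, hv.2.1⟩

omit [Fintype V] in
theorem T2_indep {G : SimpleGraph V} {a : ℕ} (hG : Good G a) (x : V) {z z' : V} (hz : T2 G x z)
    (hz' : T2 G x z') : ¬ G.Adj z z' := by
  intro hzz'
  obtain ⟨hxz, p, q, r, s, hxp, hxq, hpq, hzp, hzq, hxr, hxs, hrs, hzr, hzs, hpr, hps, hqr, hqs⟩ := hz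
  obtain ⟨hxz', p', q', r', s', hxp', hxq', hpq', hzp', hzq', hxr', hxs', hrs', hzr', hzs', hpr',
    hps', hqr', hqs'⟩ := hz'
  -- if `e` is disjoint from `e'` we are done
  by_cases h1 : G.Adj z' p ∧ G.Adj z' q
  · exact hG.k4 z z' p q hzz' hzp hzq h1.1 h1.2 hpq
  · -- one of `p, q` is not in `e1' ∪ e2'`
    have main : ∀ c d : V, G.Adj x c → G.Adj x d → G.Adj c d → G.Adj z c → G.Adj z d →
        ¬ G.Adj z' c → False := by
      intro c d hxc hxd hcd hzc hzd hc
      have c1 : c ≠ p' := fun h => hc (h ▸ hzp')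
      have c2 : c ≠ q' := fun h => hc (h ▸ hzq')
      have c3 : c ≠ r' := fun h => hc (h ▸ hzr')
      have c4 : c ≠ s' := fun h => hc (h ▸ hzs')
      by_cases hd : d = p' ∨ d = q'
      · refine hG.spin x c d r' s' z z' hxc hxd hcd hxr' hxs' hrs' c3 c4 ?_ ?_ hxz.symm hzc hzd
          hxz'.symm hzr' hzs' hzz'
        · rcases hd with rfl | rfl
          · exact hpr'
          · exact hqr'
        · rcases hd with rfl | rfl
          · exact hps'
          · exact hqs'
      · push Not at hd
        exact hG.spin x c d p' q' z z' hxc hxd hcd hxp' hxq' hpq' c1 c2 hd.1 hd.2 hxz.symm hzc hzd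
          hxz'.symm hzp' hzq' hzz'
    by_cases h2 : G.Adj z' p
    · have h3 : ¬ G.Adj z' q := fun h => h1 ⟨h2, h⟩
      exact main q p hxq hxp hpq.symm hzq hzp h3
    · exact main p q hxp hxq hpq hzp hzq h2

theorem card_T2 {G : SimpleGraph V} {a : ℕ} (hG : Good G a) (x : V) :
    (univ.filter fun z => T2 G x z).card ≤ a := by
  apply hG.ind
  intro z hz z' hz' _ h
  simp only [Finset.coe_filter, Finset.mem_univ, true_and, Set.mem_ofPred_eq] at hz hz'
  exact T2_indep hG x hz hz' h

theorem cod_comm (A B : SimpleGraph V) (u v : V) : cod A B u v = cod B A v u := by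
  unfold cod cn
  congr 1
  ext y
  simp [and_comm]

theorem mem_dar {L : SimpleGraph V} {p : V × V} : p ∈ dar L ↔ L.Adj p.1 p.2 := by
  simp [dar]

theorem mem_cn {A B : SimpleGraph V} {u v y : V} : y ∈ cn A B u v ↔ A.Adj u y ∧ B.Adj v y := by
  simp [cn]

/-- the number of darts is the sum of the degrees -/
theorem card_dar (L : SimpleGraph V) : (dar L).card = ∑ u : V, (univ.filter fun v => L.Adj u v).card := by
  unfold dar
  rw [Finset.card_filter, ← Finset.univ_product_univ, Finset.sum_product]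
  apply Finset.sum_congr rfl
  intro u _
  rw [Finset.card_filter]

/-- `∑_{(z,u) ∈ dar L} |{v : F u v, T2 z v}| = |trip G F L|` -/
theorem card_trip (G F L : SimpleGraph V) :
    (trip G F L).card = ∑ p ∈ dar L, (univ.filter fun v => F.Adj p.2 v ∧ T2 G p.1 v).card := by
  unfold trip dar
  rw [Finset.card_filter, ← Finset.univ_product_univ, Finset.sum_product, Finset.sum_filter,
    ← Finset.univ_product_univ, Finset.sum_product]
  apply Finset.sum_congr rfl
  intro z _
  rw [Finset.sum_product]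
  apply Finset.sum_congr rfl
  intro u _
  rw [Finset.card_filter]
  split_ifs with h
  · apply Finset.sum_congr rfl
    intro v _
    simp [h]
  · simp only at h
    simp [h]

end EH73
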