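import Pool.Agent.Work.MP_185d81_co.Defs

/-!
# Sampling: the random subset lemma   (120 lines, counting functions `V → Fin D`)

For `z ∈ A` let S_z = {v ∈ B : z ∈ N' v}, C_z = {v ∈ B : some w ∈ N' v is adjacent to z}. They are
disjoint, since N' v is independent. h = |S_z|, M = |C_z|, h + M ≤ D.
For `f : V → Fin D` let I_f = {z ∈ A : (∃ v ∈ S_z, f v = 0) ∧ ∀ v ∈ C_z, f v ≠ 0} (take `Fin (D'+1)` with
D = D'+1, or `0 : Fin D` with `NeZero D`).
* I_f is independent: z, z' ∈ I_f adjacent, v ∈ S_{z'} with f v = 0; then z' ∈ N' v is adjacent to z, so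
  v ∈ C_z, and f v ≠ 0, contradiction. So ∑_f |I_f| ≤ a D^{|V|}.
* For z ∈ A and v0 ∈ S_z the set of f with f v0 = 0 and f v ≠ 0 for all v ∈ (S_z ∪ C_z) \ {v0} has
  (D-1)^{k-1} D^{|V|-k} elements, k = h + M (`Fintype.card_piFinset`), these sets are disjoint for
  different v0, and contained in {f : z ∈ I_f}. So |{f : z ∈ I_f}| ≥ h (D-1)^{k-1} D^{|V|-k}.
* For 1 ≤ k ≤ D: 3 (D-1)^{k-1} ≥ D^{k-1} (D = 1: k = 1. D ≥ 2: (D/(D-1))^{k-1} ≤ (1+1/(D-1))^{D-1} ≤ e < 3).
* Hence D^{|V|-1} ∑_A h ≤ 3 ∑_f |I_f| ≤ 3 a D^{|V|}.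
-/

namespace EH73

open Finset Classical

variable {V : Type} [Fintype V]

private theorem sp_num (D' r : ℕ) (hr : r ≤ D') : (D' + 1) ^ r ≤ 3 * D' ^ r := by
  rcases Nat.eq_zero_or_pos D' with h | h
  · subst h
    have : r = 0 := by omega
    subst this
    norm_num
  have hD : (0 : ℝ) < D' := by exact_mod_cast h
  have h1 : ((D' + 1 : ℝ)) ^ r ≤ 3 * (D' : ℝ) ^ r := by
    have h2 : (1 + 1 / (D' : ℝ)) ≤ Real.exp (1 / D') := by
      have := Real.add_one_le_exp (1 / (D' : ℝ))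
      linarith
    have h3 : (1 + 1 / (D' : ℝ)) ^ r ≤ Real.exp 1 := by
      calc (1 + 1 / (D' : ℝ)) ^ r ≤ (Real.exp (1 / D')) ^ r := by gcongr
        _ = Real.exp (r * (1 / D')) := by rw [← Real.exp_nat_mul]
        _ ≤ Real.exp 1 := by
          rw [Real.exp_le_exp, mul_one_div, div_le_one hD]
          exact_mod_cast hr
    have h4 : Real.exp 1 < 3 := Real.exp_one_lt_d9.trans (by norm_num)
    have h5 : (D' + 1 : ℝ) = (1 + 1 / (D' : ℝ)) * D' := by field_simp
    rw [h5, mul_pow]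
    exact mul_le_mul_of_nonneg_right (h3.trans h4.le) (by positivity)
  exact_mod_cast h1

private theorem sp_count (D' : ℕ) (S C : Finset V) (hk : S.card + C.card ≤ D' + 1)
    (hdisj : Disjoint S C) :
    S.card * (D' + 1) ^ Fintype.card V ≤ 3 * (D' + 1) *
      (univ.filter fun f : V → Fin (D' + 1) => (∃ v ∈ S, f v = 0) ∧ ∀ v ∈ C, f v ≠ 0).card := by
  set E : V → Finset (V → Fin (D' + 1)) := fun v0 =>
    Fintype.piFinset fun v => if v = v0 then {0} else
      if v ∈ S ∪ C then univ.erase 0 else univ with hE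
  have hmem : ∀ v0 f, f ∈ E v0 ↔ f v0 = 0 ∧ ∀ v ∈ S ∪ C, v ≠ v0 → f v ≠ 0 := by
    intro v0 f
    rw [hE, Fintype.mem_piFinset]
    constructor
    · intro h
      refine ⟨?_, fun v hv hne => ?_⟩
      · have := h v0
        rw [if_pos rfl, mem_singleton] at this
        exact this
      · have := h v
        rw [if_neg hne, if_pos hv, mem_erase] at this
        exact this.1
    · rintro ⟨h1, h2⟩ v
      split_ifs with h3 h4
      · rw [h3, mem_singleton]; exact h1
      · exact mem_erase.2 ⟨h2 v h4 h3, mem_univ _⟩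
      · exact mem_univ _
  have hsub : S.biUnion E ⊆
      univ.filter fun f : V → Fin (D' + 1) => (∃ v ∈ S, f v = 0) ∧ ∀ v ∈ C, f v ≠ 0 := by
    intro f hf
    rw [mem_biUnion] at hf
    obtain ⟨v0, hv0, hf⟩ := hf
    rw [hmem] at hf
    rw [mem_filter]
    refine ⟨mem_univ _, ⟨v0, hv0, hf.1⟩, fun v hv => hf.2 v (mem_union_right _ hv) ?_⟩
    rintro rfl
    exact disjoint_left.1 hdisj hv0 hv
  have hcardB : (S.biUnion E).card = ∑ v ∈ S, (E v).card := by
    refine card_biUnion fun v hv v' hv' hne => ?_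
    show Disjoint (E v) (E v')
    rw [disjoint_left]
    intro f hf hf'
    rw [hmem] at hf hf'
    exact hf.2 v' (mem_union_left _ hv') hne.symm hf'.1
  have hcardE : ∀ v0 ∈ S, (D' + 1) ^ Fintype.card V ≤ 3 * (D' + 1) * (E v0).card := by
    intro v0 hv0
    set R := (S ∪ C).erase v0 with hR
    have hRsub : R ⊆ univ.erase v0 := erase_subset_erase _ (subset_univ _)
    have hRcard : R.card ≤ D' := by
      have h1 : R.card = (S ∪ C).card - 1 := card_erase_of_mem (mem_union_left _ hv0)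
      rw [card_union_of_disjoint hdisj] at h1
      omega
    have h1 : (E v0).card = (D' + 1) ^ ((univ.erase v0) \ R).card * D' ^ R.card := by
      rw [hE, Fintype.card_piFinset, ← mul_prod_erase univ _ (mem_univ v0), if_pos rfl,
        card_singleton, one_mul, ← prod_sdiff hRsub]
      congr 1
      · rw [← prod_const]
        refine prod_congr rfl fun v hv => ?_
        rw [mem_sdiff, mem_erase] at hv
        rw [if_neg hv.1.1, if_neg, card_univ, Fintype.card_fin]
        intro hcon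
        exact hv.2 (mem_erase.2 ⟨hv.1.1, hcon⟩)
      · rw [← prod_const]
        refine prod_congr rfl fun v hv => ?_
        rw [mem_erase] at hv
        rw [if_neg hv.1, if_pos hv.2, card_erase_of_mem (mem_univ _), card_univ, Fintype.card_fin,
          Nat.add_sub_cancel]
    have h2 : Fintype.card V = 1 + (((univ.erase v0) \ R).card + R.card) := by
      rw [card_sdiff_add_card_eq_card hRsub, card_erase_of_mem (mem_univ _), card_univ]
      have : 0 < Fintype.card V := Fintype.card_pos_iff.2 ⟨v0⟩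
      omega
    rw [h2, h1, pow_add, pow_add, pow_one]
    have h3 := sp_num D' R.card hRcard
    calc (D' + 1) * ((D' + 1) ^ ((univ.erase v0) \ R).card * (D' + 1) ^ R.card)
        ≤ (D' + 1) * ((D' + 1) ^ ((univ.erase v0) \ R).card * (3 * D' ^ R.card)) :=
          Nat.mul_le_mul_left _ (Nat.mul_le_mul_left _ h3)
      _ = 3 * (D' + 1) * ((D' + 1) ^ ((univ.erase v0) \ R).card * D' ^ R.card) := by ring
  calc S.card * (D' + 1) ^ Fintype.card V = ∑ _v ∈ S, (D' + 1) ^ Fintype.card V := by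
        rw [sum_const, smul_eq_mul]
    _ ≤ ∑ v ∈ S, 3 * (D' + 1) * (E v).card := sum_le_sum hcardE
    _ = 3 * (D' + 1) * (S.biUnion E).card := by rw [← mul_sum, hcardB]
    _ ≤ _ := Nat.mul_le_mul_left _ (card_le_card hsub)

theorem sampling (G : SimpleGraph V) (a : ℕ) (hind : IndLe G a) (B : Finset V) (N' : V → Finset V)
    (hN : ∀ v ∈ B, ∀ x ∈ N' v, ∀ y ∈ N' v, ¬ G.Adj x y) (D : ℕ) (hD : 1 ≤ D) (A : Finset V)
    (hA : ∀ z ∈ A, (B.filter fun v => z ∈ N' v).card +
      (B.filter fun v => ∃ w ∈ N' v, G.Adj w z).card ≤ D) :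
    ∑ z ∈ A, (B.filter fun v => z ∈ N' v).card ≤ 3 * a * D := by
  obtain ⟨D', rfl⟩ : ∃ D', D = D' + 1 := ⟨D - 1, by omega⟩
  set S : V → Finset V := fun z => B.filter fun v => z ∈ N' v with hS
  set C : V → Finset V := fun z => B.filter fun v => ∃ w ∈ N' v, G.Adj w z with hC
  have hdisj : ∀ z, Disjoint (S z) (C z) := by
    intro z
    rw [disjoint_left]
    intro v hv hv'
    rw [hS, mem_filter] at hv
    rw [hC, mem_filter] at hv'
    obtain ⟨hvB, w, hw, hwz⟩ := hv'
    exact hN v hvB w hw z hv.2 hwz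
  have h1 : ∀ z ∈ A, (S z).card * (D' + 1) ^ Fintype.card V ≤ 3 * (D' + 1) *
      (univ.filter fun f : V → Fin (D' + 1) =>
        (∃ v ∈ S z, f v = 0) ∧ ∀ v ∈ C z, f v ≠ 0).card :=
    fun z hz => sp_count D' (S z) (C z) (hA z hz) (hdisj z)
  have h2 := sum_le_sum h1
  rw [← sum_mul, ← mul_sum] at h2
  have h3 : ∑ z ∈ A, (univ.filter fun f : V → Fin (D' + 1) =>
        (∃ v ∈ S z, f v = 0) ∧ ∀ v ∈ C z, f v ≠ 0).card =
      ∑ f : V → Fin (D' + 1), (A.filter fun z =>
        (∃ v ∈ S z, f v = 0) ∧ ∀ v ∈ C z, f v ≠ 0).card := by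
    simp only [card_filter]
    exact sum_comm
  have h4 : ∀ f : V → Fin (D' + 1), (A.filter fun z =>
        (∃ v ∈ S z, f v = 0) ∧ ∀ v ∈ C z, f v ≠ 0).card ≤ a := by
    intro f
    apply hind
    intro z hz z' hz' _ hadj
    rw [mem_coe, mem_filter] at hz hz'
    obtain ⟨v, hv, hfv⟩ := hz'.2.1
    refine hz.2.2 v ?_ hfv
    rw [hS, mem_filter] at hv
    rw [hC, mem_filter]
    exact ⟨hv.1, z', hv.2, hadj.symm⟩
  have h5 : ∑ f : V → Fin (D' + 1), (A.filter fun z =>
        (∃ v ∈ S z, f v = 0) ∧ ∀ v ∈ C z, f v ≠ 0).card ≤ (D' + 1) ^ Fintype.card V * a := by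
    refine (sum_le_sum fun f _ => h4 f).trans ?_
    rw [sum_const, smul_eq_mul, card_univ, Fintype.card_fun, Fintype.card_fin]
  rw [h3] at h2
  have h6 := h2.trans (Nat.mul_le_mul_left _ h5)
  have hpos : 0 < (D' + 1) ^ Fintype.card V := by positivity
  have h7 : (D' + 1) ^ Fintype.card V * ∑ z ∈ A, (S z).card ≤
      (D' + 1) ^ Fintype.card V * (3 * a * (D' + 1)) := by
    calc (D' + 1) ^ Fintype.card V * ∑ z ∈ A, (S z).card
        = (∑ z ∈ A, (S z).card) * (D' + 1) ^ Fintype.card V := mul_comm _ _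
      _ ≤ 3 * (D' + 1) * ((D' + 1) ^ Fintype.card V * a) := h6
      _ = _ := by ring
  exact Nat.le_of_mul_le_mul_left h7 hpos

end EH73
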