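import Pool.Agent.Work.MP_185d81_co.Basic

/-!
# Star: the weight of the star-type vertices   (100 lines, elementary)

`greedy`: P finite, weight w, R reflexive symmetric relation such that every `p ∈ P` has at most `D`
elements `q ∈ P` with `R p q`. Then there is a subset M of P, pairwise not R-related, with
`∑_P w ≤ D ∑_M w`.
Proof: strong induction on |P|. If P is empty take M = ∅. Otherwise let p ∈ P have maximal weight
(`Finset.exists_max_image`), P' = P.filter (¬ R p ·) (smaller, as R p p), M' for P' by induction,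
M = insert p M'. The part of P related to p has at most D elements of weight ≤ w p.

`star_sum`: for x and a set P of pairs (p.1, p.2) of adjacent neighbours of x let
Z_p = {z ≠ x : not T2 x z, z ~ p.1, z ~ p.2}. Let R p q := the pairs p, q share a vertex
(p.1 = q.1 ∨ p.1 = q.2 ∨ p.2 = q.1 ∨ p.2 = q.2). By h1, h2 every p ∈ P is R-related to at most
Δ1 + Δ2 + Δ1 + Δ2 elements of P. Take M by `greedy` for w p = |Z_p|. For different p, q ∈ M the edges
p, q are disjoint, so Z_p ∩ Z_q = ∅ (a common z would have T2 x z) and there is no G-edge between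
Z_p and Z_q (`Good.spin`); inside Z_p there is no edge (K₄ {z, z', p.1, p.2}). So the union of the Z_p,
p ∈ M, is an independent set, of cardinality ∑_M w ≤ a.
-/

namespace EH73

open Finset Classical

variable {V : Type} [Fintype V]

theorem greedy {α : Type} (P : Finset α) (w : α → ℕ) (R : α → α → Prop) (hrefl : ∀ p, R p p)
    (hsymm : ∀ p q, R p q → R q p) (D : ℕ) (hD : ∀ p ∈ P, (P.filter fun q => R p q).card ≤ D) :
    ∃ M : Finset α, M ⊆ P ∧ (∀ p ∈ M, ∀ q ∈ M, p ≠ q → ¬ R p q) ∧ ∑ p ∈ P, w p ≤ D * ∑ p ∈ M, w p := by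
  induction P using Finset.strongInduction with
  | H P ih =>
    rcases P.eq_empty_or_nonempty with rfl | hne
    · exact ⟨∅, Finset.Subset.refl _, by simp, by simp⟩
    · obtain ⟨p, hp, hmax⟩ := Finset.exists_max_image P w hne
      have hss : P.filter (fun q => ¬ R p q) ⊂ P := by
        refine Finset.filter_ssubset.2 ⟨p, hp, ?_⟩
        exact not_not.2 (hrefl p)
      obtain ⟨M', hM1, hM2, hM3⟩ := ih _ hss (fun x hx =>
        (Finset.card_le_card (Finset.filter_subset_filter _ (Finset.filter_subset _ _))).trans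
          (hD x (Finset.mem_filter.1 hx).1))
      have hpM : p ∉ M' := fun h => (Finset.mem_filter.1 (hM1 h)).2 (hrefl p)
      refine ⟨insert p M', ?_, ?_, ?_⟩
      · intro x hx
        rcases Finset.mem_insert.1 hx with rfl | hx
        · exact hp
        · exact (Finset.mem_filter.1 (hM1 hx)).1
      · intro x hx y hy hxy
        rcases Finset.mem_insert.1 hx with hx' | hx'
        · rcases Finset.mem_insert.1 hy with hy' | hy'
          · exact absurd (hx'.trans hy'.symm) hxy
          · rw [hx']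
            exact (Finset.mem_filter.1 (hM1 hy')).2
        · rcases Finset.mem_insert.1 hy with hy' | hy'
          · rw [hy']
            exact fun h => (Finset.mem_filter.1 (hM1 hx')).2 (hsymm _ _ h)
          · exact hM2 x hx' y hy' hxy
      · rw [Finset.sum_insert hpM, mul_add,
          ← Finset.sum_filter_add_sum_filter_not P (fun q => R p q)]
        refine Nat.add_le_add ?_ hM3
        calc ∑ q ∈ P.filter (fun q => R p q), w q
            ≤ ∑ _q ∈ P.filter (fun q => R p q), w p :=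
              Finset.sum_le_sum fun q hq => hmax q (Finset.mem_filter.1 hq).1
          _ = (P.filter fun q => R p q).card * w p := by rw [Finset.sum_const, smul_eq_mul]
          _ ≤ D * w p := Nat.mul_le_mul_right _ (hD p hp)

theorem star_sum {G : SimpleGraph V} {a : ℕ} (hG : Good G a) (x : V) (P : Finset (V × V))
    (hP : ∀ p ∈ P, G.Adj x p.1 ∧ G.Adj x p.2 ∧ G.Adj p.1 p.2) (Δ1 Δ2 : ℕ)
    (h1 : ∀ u, (P.filter fun p => p.1 = u).card ≤ Δ1)
    (h2 : ∀ w, (P.filter fun p => p.2 = w).card ≤ Δ2) :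
    ∑ p ∈ P, (univ.filter fun z => z ≠ x ∧ ¬ T2 G x z ∧ G.Adj z p.1 ∧ G.Adj z p.2).card ≤
      2 * (Δ1 + Δ2) * a := by
  set Z : V × V → Finset V := fun p =>
    univ.filter fun z => z ≠ x ∧ ¬ T2 G x z ∧ G.Adj z p.1 ∧ G.Adj z p.2 with hZ
  have memZ : ∀ (p : V × V) (z : V), z ∈ Z p ↔
      (z ≠ x ∧ ¬ T2 G x z ∧ G.Adj z p.1 ∧ G.Adj z p.2) := by
    intro p z
    simp [hZ]
  obtain ⟨R, hR⟩ : ∃ R : V × V → V × V → Prop, ∀ p q, R p q ↔
    (p.1 = q.1 ∨ p.1 = q.2 ∨ p.2 = q.1 ∨ p.2 = q.2) := ⟨_, fun p q => Iff.rfl⟩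
  obtain ⟨M, hM1, hM2, hM3⟩ := greedy P (fun p => (Z p).card) R
    (fun p => (hR p p).2 (Or.inl rfl))
    (by
      intro p q h
      rw [hR] at h ⊢
      rcases h with h | h | h | h
      · exact Or.inl h.symm
      · exact Or.inr (Or.inr (Or.inl h.symm))
      · exact Or.inr (Or.inl h.symm)
      · exact Or.inr (Or.inr (Or.inr h.symm))) (2 * (Δ1 + Δ2))
    (by
      intro p _
      have hsub : (P.filter fun q => R p q) ⊆
          (((P.filter fun q => q.1 = p.1) ∪ (P.filter fun q => q.2 = p.1)) ∪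
            (P.filter fun q => q.1 = p.2)) ∪ (P.filter fun q => q.2 = p.2) := by
        intro q hq
        rw [Finset.mem_filter] at hq
        simp only [Finset.mem_union, Finset.mem_filter]
        obtain ⟨hq, h⟩ := hq
        rw [hR] at h
        rcases h with h | h | h | h
        · exact Or.inl (Or.inl (Or.inl ⟨hq, h.symm⟩))
        · exact Or.inl (Or.inl (Or.inr ⟨hq, h.symm⟩))
        · exact Or.inl (Or.inr ⟨hq, h.symm⟩)
        · exact Or.inr ⟨hq, h.symm⟩
      have e1 := h1 p.1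
      have e2 := h2 p.1
      have e3 := h1 p.2
      have e4 := h2 p.2
      have c1 := Finset.card_union_le (((P.filter fun q => q.1 = p.1) ∪
        (P.filter fun q => q.2 = p.1)) ∪ (P.filter fun q => q.1 = p.2))
        (P.filter fun q => q.2 = p.2)
      have c2 := Finset.card_union_le ((P.filter fun q => q.1 = p.1) ∪
        (P.filter fun q => q.2 = p.1)) (P.filter fun q => q.1 = p.2)
      have c3 := Finset.card_union_le (P.filter fun q => q.1 = p.1)
        (P.filter fun q => q.2 = p.1)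
      have c4 := Finset.card_le_card hsub
      omega)
  have hdis : ∀ p ∈ M, ∀ q ∈ M, p ≠ q →
      p.1 ≠ q.1 ∧ p.1 ≠ q.2 ∧ p.2 ≠ q.1 ∧ p.2 ≠ q.2 := by
    intro p hp q hq hpq
    have h := hM2 p hp q hq hpq
    rw [hR] at h
    push Not at h
    exact h
  have hcard : ∑ p ∈ M, (Z p).card = (M.biUnion Z).card := by
    rw [Finset.card_biUnion]
    intro p hp q hq hpq
    show Disjoint (Z p) (Z q)
    rw [Finset.disjoint_left]
    intro z hz hz'
    rw [memZ] at hz hz'
    obtain ⟨n1, n2, n3, n4⟩ := hdis p hp q hq hpq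
    obtain ⟨a1, a2, a3⟩ := hP p (hM1 hp)
    obtain ⟨b1, b2, b3⟩ := hP q (hM1 hq)
    exact hz.2.1 ⟨hz.1.symm, p.1, p.2, q.1, q.2, a1, a2, a3, hz.2.2.1, hz.2.2.2, b1, b2, b3,
      hz'.2.2.1, hz'.2.2.2, n1, n2, n3, n4⟩
  have hind : (M.biUnion Z).card ≤ a := by
    apply hG.ind
    intro z hz z' hz' _ hzz'
    simp only [Finset.coe_biUnion, Set.mem_iUnion, Finset.mem_coe] at hz hz'
    obtain ⟨p, hp, hz⟩ := hz
    obtain ⟨q, hq, hz'⟩ := hz'
    rw [memZ] at hz hz'
    obtain ⟨a1, a2, a3⟩ := hP p (hM1 hp)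
    obtain ⟨b1, b2, b3⟩ := hP q (hM1 hq)
    by_cases hpq : p = q
    · subst hpq
      exact hG.k4 z z' p.1 p.2 hzz' hz.2.2.1 hz.2.2.2 hz'.2.2.1 hz'.2.2.2 a3
    · obtain ⟨n1, n2, n3, n4⟩ := hdis p hp q hq hpq
      exact hG.spin x p.1 p.2 q.1 q.2 z z' a1 a2 a3 b1 b2 b3 n1 n2 n3 n4 hz.1 hz.2.2.1 hz.2.2.2
        hz'.1 hz'.2.2.1 hz'.2.2.2 hzz'
  calc ∑ p ∈ P, (Z p).card ≤ 2 * (Δ1 + Δ2) * ∑ p ∈ M, (Z p).card := hM3
    _ ≤ 2 * (Δ1 + Δ2) * a := by
        rw [hcard]
        exact Nat.mul_le_mul_left _ hind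

end EH73
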