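import Pool.Agent.Work.MP_185d81_co.Basic
import Pool.Agent.Work.MP_185d81_co.Star
import Pool.Agent.Work.MP_185d81_co.Sampling

/-!
# Hub: the sampling inequality inside the neighbourhoods   (180 lines)

Setting: F, L, L' ≤ G, `𝓓 ⊆ dar L` (elements (z,u)).
For a vertex u use `sampling` with sources B_u = {v : F u v}, N' v = {w : L u w ∧ L' v w} = cn L L' u v
(independent by K₄-freeness, as u ~ v). For z with L u z:
  h(z,u) = |{v : F u v ∧ L' v z}| = cod L' F z u  (z ∈ N' v ⟺ L u z ∧ L' v z),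
  M(z,u) = |{v : F u v ∧ ∃ w, L u w ∧ L' v w ∧ G w z}|.
Let A_u = {z : (z,u) ∈ 𝓓, h + M ≤ D}. `sampling` : ∑_{z ∈ A_u} h(z,u) ≤ 3aD, so
H1 * |A_u| ≤ 2 * 3aD, and c := ∑_u |A_u| = number of (z,u) ∈ 𝓓 with h+M ≤ D satisfies
H1 * c ≤ 6 a D n.
b := the number of (z,u) ∈ 𝓓 with h + M ≥ D+1; for these D + 1 ≤ H2 + M(z,u) and
M(z,u) ≤ 1 + |{v : F u v ∧ T2 z v}| + |{v : F u v ∧ v ≠ z ∧ ¬ T2 z v ∧ ∃ w, L u w ∧ L' v w ∧ G w z}|
(the 1 is for v = z). Summing: b (D - H2) ≤ |trip G F L| + St (written b*D ≤ b*H2 + ...), where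
St ≤ number of (z,u,v,w) with L z u, F u v, v ≠ z, ¬T2 z v, L u w, L' v w, G w z
   ≤ ∑_v ∑_{(u,w) ∈ P_v} |{z : z ≠ v, ¬ T2 v z, G z u, G z w}|,
with P_v = {(u,w) : F u v, L' v w, L u w} (`T2_comm`).
`star_sum` with x = v, P = P_v: fixed u: |{w : L u w, L' v w}| = cod L L' u v ≤ Δ1 if F u v (else 0);
fixed w: |{u : F u v, L u w}| = cod L F w v ≤ Δ2 if L' w v (else 0). So St ≤ n * (2*(Δ1+Δ2)*a).
-/

namespace EH73

open Finset Classical

variable {V : Type} [Fintype V]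

private noncomputable def hbP (F L L' : SimpleGraph V) (v : V) : Finset (V × V) :=
  univ.filter fun p => F.Adj p.1 v ∧ L'.Adj v p.2 ∧ L.Adj p.1 p.2

private noncomputable def hbZ (G F L L' : SimpleGraph V) (v u : V) : Finset V :=
  univ.filter fun z => L.Adj z u ∧ F.Adj u v ∧ v ≠ z ∧ ¬ T2 G z v ∧
    ∃ w, L.Adj u w ∧ L'.Adj v w ∧ G.Adj w z

private noncomputable def hbW (G F L L' : SimpleGraph V) (z u : V) : Finset V :=
  univ.filter fun v => F.Adj u v ∧ v ≠ z ∧ ¬ T2 G z v ∧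
    ∃ w, L.Adj u w ∧ L'.Adj v w ∧ G.Adj w z

private theorem hb_vertex {G : SimpleGraph V} {a : ℕ} (hG : Good G a) (F L L' : SimpleGraph V)
    (hF : F ≤ G) (hL : L ≤ G) (hL' : L' ≤ G) (Δ1 Δ2 : ℕ)
    (hΔ1 : ∀ u v, F.Adj u v → cod L L' u v ≤ Δ1) (hΔ2 : ∀ w v, L'.Adj w v → cod L F w v ≤ Δ2)
    (v : V) : ∑ u : V, (hbZ G F L L' v u).card ≤ 2 * (Δ1 + Δ2) * a := by
  have h1 : ∑ p ∈ hbP F L L' v,
      (univ.filter fun z => z ≠ v ∧ ¬ T2 G v z ∧ G.Adj z p.1 ∧ G.Adj z p.2).card ≤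
        2 * (Δ1 + Δ2) * a := by
    refine star_sum hG v _ ?_ Δ1 Δ2 ?_ ?_
    · intro p hp
      rw [hbP, mem_filter] at hp
      exact ⟨(hF hp.2.1).symm, hL' hp.2.2.1, hL hp.2.2.2⟩
    · intro u
      by_cases hu : F.Adj u v
      · refine le_trans ?_ (hΔ1 u v hu)
        refine card_le_card_of_injOn Prod.snd ?_ ?_
        · intro p hp
          rw [mem_coe, mem_filter, hbP, mem_filter] at hp
          obtain ⟨⟨_, _, h3, h4⟩, h5⟩ := hp
          rw [mem_coe, mem_cn]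
          exact ⟨h5 ▸ h4, h3⟩
        · intro p hp q hq hpq
          rw [mem_coe, mem_filter] at hp hq
          exact Prod.ext (hp.2.trans hq.2.symm) hpq
      · rw [filter_false_of_mem]
        · simp
        · intro p hp hpu
          rw [hbP, mem_filter] at hp
          exact hu (hpu ▸ hp.2.1)
    · intro w
      by_cases hw : L'.Adj w v
      · refine le_trans ?_ (hΔ2 w v hw)
        refine card_le_card_of_injOn Prod.fst ?_ ?_
        · intro p hp
          rw [mem_coe, mem_filter, hbP, mem_filter] at hp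
          obtain ⟨⟨_, h2, _, h4⟩, h5⟩ := hp
          rw [mem_coe, mem_cn]
          exact ⟨h5 ▸ h4.symm, h2.symm⟩
        · intro p hp q hq hpq
          rw [mem_coe, mem_filter] at hp hq
          exact Prod.ext hpq (hp.2.trans hq.2.symm)
      · rw [filter_false_of_mem]
        · simp
        · intro p hp hpw
          rw [hbP, mem_filter] at hp
          exact hw (hpw ▸ hp.2.2.1.symm)
  refine le_trans ?_ h1
  rw [hbP, sum_filter, ← univ_product_univ, sum_product]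
  refine sum_le_sum fun u _ => ?_
  have h2 : hbZ G F L L' v u ⊆
      (univ.filter fun w => F.Adj u v ∧ L'.Adj v w ∧ L.Adj u w).biUnion fun w =>
        univ.filter fun z => z ≠ v ∧ ¬ T2 G v z ∧ G.Adj z u ∧ G.Adj z w := by
    intro z hz
    rw [hbZ, mem_filter] at hz
    obtain ⟨_, h3, h4, h5, h6, w, h7, h8, h9⟩ := hz
    rw [mem_biUnion]
    refine ⟨w, ?_, ?_⟩
    · rw [mem_filter]; exact ⟨mem_univ _, h4, h8, h7⟩
    · rw [mem_filter]
      exact ⟨mem_univ _, h5.symm, fun h => h6 h.symm, hL h3, h9.symm⟩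
  refine (card_le_card h2).trans (card_biUnion_le.trans ?_)
  rw [sum_filter]

private theorem hb_swap (G F L L' : SimpleGraph V) :
    ∑ p ∈ dar L, (hbW G F L L' p.1 p.2).card = ∑ v : V, ∑ u : V, (hbZ G F L L' v u).card := by
  have h1 : ∑ p ∈ dar L, (hbW G F L L' p.1 p.2).card =
      ∑ z : V, ∑ u : V, ∑ v : V, if (L.Adj z u ∧ F.Adj u v ∧ v ≠ z ∧ ¬ T2 G z v ∧
        ∃ w, L.Adj u w ∧ L'.Adj v w ∧ G.Adj w z) then 1 else 0 := by
    rw [dar, sum_filter, ← univ_product_univ, sum_product]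
    refine sum_congr rfl fun z _ => sum_congr rfl fun u _ => ?_
    rw [hbW, card_filter]
    split_ifs with h
    · refine sum_congr rfl fun v _ => ?_
      by_cases hc : F.Adj u v ∧ v ≠ z ∧ ¬ T2 G z v ∧ ∃ w, L.Adj u w ∧ L'.Adj v w ∧ G.Adj w z
      · rw [if_pos hc, if_pos ⟨h, hc⟩]
      · rw [if_neg hc, if_neg fun hh => hc hh.2]
    · symm
      exact sum_eq_zero fun v _ => if_neg fun hh => h hh.1
  rw [h1]
  have h2 : ∀ z : V, ∑ u : V, ∑ v : V, (if (L.Adj z u ∧ F.Adj u v ∧ v ≠ z ∧ ¬ T2 G z v ∧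
        ∃ w, L.Adj u w ∧ L'.Adj v w ∧ G.Adj w z) then 1 else 0) =
      ∑ v : V, ∑ u : V, (if (L.Adj z u ∧ F.Adj u v ∧ v ≠ z ∧ ¬ T2 G z v ∧
        ∃ w, L.Adj u w ∧ L'.Adj v w ∧ G.Adj w z) then 1 else 0) := fun z => sum_comm
  rw [sum_congr rfl fun z _ => h2 z, sum_comm]
  refine sum_congr rfl fun v _ => ?_
  rw [sum_comm]
  refine sum_congr rfl fun u _ => ?_
  rw [hbZ, card_filter]

theorem hub_ineq {G : SimpleGraph V} {a : ℕ} (hG : Good G a) (F L L' : SimpleGraph V) (hF : F ≤ G)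
    (hL : L ≤ G) (hL' : L' ≤ G) (𝓓 : Finset (V × V)) (h𝓓 : 𝓓 ⊆ dar L) (H1 H2 Δ1 Δ2 D : ℕ)
    (hD : 1 ≤ D) (h1 : ∀ p ∈ 𝓓, H1 ≤ 2 * cod L' F p.1 p.2) (h2 : ∀ p ∈ 𝓓, cod L' F p.1 p.2 ≤ H2)
    (hΔ1 : ∀ u v, F.Adj u v → cod L L' u v ≤ Δ1) (hΔ2 : ∀ w v, L'.Adj w v → cod L F w v ≤ Δ2) :
    ∃ b c : ℕ, b + c = 𝓓.card ∧ H1 * c ≤ 6 * a * D * Fintype.card V ∧
      b * D ≤ b * H2 + (trip G F L).card + 2 * (Δ1 + Δ2) * a * Fintype.card V := by
  set B : V → Finset V := fun u => univ.filter fun v => F.Adj u v with hB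
  set hz : V → V → ℕ := fun z u => ((B u).filter fun v => z ∈ cn L L' u v).card with hhz
  set M : V → V → ℕ := fun z u => ((B u).filter fun v => ∃ w ∈ cn L L' u v, G.Adj w z).card with hM
  have hcod : ∀ z u, L.Adj z u → hz z u = cod L' F z u := by
    intro z u hzu
    rw [hhz, cod]
    simp only
    congr 1
    ext v
    rw [mem_filter, hB, mem_filter, mem_cn, mem_cn]
    constructor
    · rintro ⟨⟨_, h3⟩, _, h5⟩
      exact ⟨h5.symm, h3⟩
    · rintro ⟨h3, h4⟩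
      exact ⟨⟨mem_univ _, h4⟩, hzu.symm, h3.symm⟩
  have hadj : ∀ p ∈ 𝓓, L.Adj p.1 p.2 := fun p hp => mem_dar.1 (h𝓓 hp)
  refine ⟨(𝓓.filter fun p => ¬ (hz p.1 p.2 + M p.1 p.2 ≤ D)).card,
    (𝓓.filter fun p => hz p.1 p.2 + M p.1 p.2 ≤ D).card, ?_, ?_, ?_⟩
  · rw [add_comm]
    exact card_filter_add_card_filter_not _
  · set 𝓒 := 𝓓.filter fun p => hz p.1 p.2 + M p.1 p.2 ≤ D with h𝓒
    have e1 : 𝓒.card = ∑ u : V, (univ.filter fun z => (z, u) ∈ 𝓒).card := by
      rw [card_eq_sum_card_fiberwise (f := Prod.snd) (t := univ) (fun _ _ => mem_univ _)]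
      refine sum_congr rfl fun u _ => ?_
      refine card_bij (fun p _ => p.1) ?_ ?_ ?_
      · intro p hp
        rw [mem_filter] at hp
        rw [mem_filter]
        refine ⟨mem_univ _, ?_⟩
        rw [← hp.2]
        exact hp.1
      · intro p hp q hq hpq
        rw [mem_filter] at hp hq
        exact Prod.ext hpq (hp.2.trans hq.2.symm)
      · intro z hzm
        rw [mem_filter] at hzm
        exact ⟨(z, u), mem_filter.2 ⟨hzm.2, rfl⟩, rfl⟩
    have e2 : ∀ u : V, H1 * (univ.filter fun z => (z, u) ∈ 𝓒).card ≤ 6 * a * D := by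
      intro u
      have e3 := sampling G a hG.ind (B u) (fun v => cn L L' u v) (by
        intro v hv x hx y hy hxy
        rw [hB, mem_filter] at hv
        rw [mem_cn] at hx hy
        exact hG.k4 u v x y (hF hv.2) (hL hx.1) (hL hy.1) (hL' hx.2) (hL' hy.2) hxy) D hD
        (univ.filter fun z => (z, u) ∈ 𝓒) (by
          intro z hzm
          rw [mem_filter, h𝓒, mem_filter] at hzm
          exact hzm.2.2)
      have e4 : ∀ z ∈ univ.filter (fun z => (z, u) ∈ 𝓒), H1 ≤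
          2 * ((B u).filter fun v => z ∈ cn L L' u v).card := by
        intro z hzm
        rw [mem_filter, h𝓒, mem_filter] at hzm
        have e5 := h1 _ hzm.2.1
        rw [← hcod z u (hadj _ hzm.2.1)] at e5
        exact e5
      calc H1 * (univ.filter fun z => (z, u) ∈ 𝓒).card
          = ∑ _z ∈ univ.filter (fun z => (z, u) ∈ 𝓒), H1 := by
            rw [sum_const, smul_eq_mul, mul_comm]
        _ ≤ ∑ z ∈ univ.filter (fun z => (z, u) ∈ 𝓒),
            2 * ((B u).filter fun v => z ∈ cn L L' u v).card := sum_le_sum e4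
        _ = 2 * ∑ z ∈ univ.filter (fun z => (z, u) ∈ 𝓒),
            ((B u).filter fun v => z ∈ cn L L' u v).card := by rw [mul_sum]
        _ ≤ 2 * (3 * a * D) := Nat.mul_le_mul_left _ e3
        _ = 6 * a * D := by ring
    rw [e1, mul_sum]
    refine (sum_le_sum fun u _ => e2 u).trans ?_
    rw [sum_const, smul_eq_mul, card_univ]
    exact le_of_eq (mul_comm _ _)
  · set 𝓑 := 𝓓.filter fun p => ¬ (hz p.1 p.2 + M p.1 p.2 ≤ D) with h𝓑
    have key : ∀ p ∈ 𝓑, D ≤ H2 + ((univ.filter fun v => F.Adj p.2 v ∧ T2 G p.1 v).card +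
        (hbW G F L L' p.1 p.2).card) := by
      rintro ⟨z, u⟩ hp
      rw [h𝓑, mem_filter] at hp
      obtain ⟨hp1, hp2⟩ := hp
      have e1 := h2 _ hp1
      rw [← hcod z u (hadj _ hp1)] at e1
      have e2 : M z u ≤ 1 + ((univ.filter fun v => F.Adj u v ∧ T2 G z v).card +
          (hbW G F L L' z u).card) := by
        have e3 : ((B u).filter fun v => ∃ w ∈ cn L L' u v, G.Adj w z) ⊆
            {z} ∪ ((univ.filter fun v => F.Adj u v ∧ T2 G z v) ∪ hbW G F L L' z u) := by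
          intro v hv
          rw [mem_filter, hB, mem_filter] at hv
          obtain ⟨⟨_, hFv⟩, w, hw, hwz⟩ := hv
          rw [mem_cn] at hw
          rw [mem_union, mem_singleton, mem_union, mem_filter, hbW, mem_filter]
          by_cases hvz : v = z
          · exact Or.inl hvz
          · right
            by_cases hT : T2 G z v
            · exact Or.inl ⟨mem_univ _, hFv, hT⟩
            · exact Or.inr ⟨mem_univ _, hFv, hvz, hT, w, hw.1, hw.2, hwz⟩
        refine (card_le_card e3).trans ((card_union_le _ _).trans ?_)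
        rw [card_singleton]
        exact Nat.add_le_add_left (card_union_le _ _) 1
      simp only at hp2 e1 ⊢
      omega
    have e1 : 𝓑.card * D ≤ ∑ p ∈ 𝓑, (H2 + ((univ.filter fun v => F.Adj p.2 v ∧ T2 G p.1 v).card +
        (hbW G F L L' p.1 p.2).card)) := by
      calc 𝓑.card * D = ∑ _p ∈ 𝓑, D := by rw [sum_const, smul_eq_mul]
        _ ≤ _ := sum_le_sum key
    rw [sum_add_distrib, sum_const, smul_eq_mul] at e1
    have e2 : ∑ p ∈ 𝓑, ((univ.filter fun v => F.Adj p.2 v ∧ T2 G p.1 v).card +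
        (hbW G F L L' p.1 p.2).card) ≤ (trip G F L).card +
          2 * (Δ1 + Δ2) * a * Fintype.card V := by
      refine (sum_le_sum_of_subset ((filter_subset _ _).trans h𝓓)).trans ?_
      rw [sum_add_distrib, ← card_trip, hb_swap]
      refine Nat.add_le_add_left ?_ _
      refine (sum_le_sum fun v _ => hb_vertex hG F L L' hF hL hL' Δ1 Δ2 hΔ1 hΔ2 v).trans ?_
      rw [sum_const, smul_eq_mul, card_univ]
      exact le_of_eq (mul_comm _ _)
    omega

end EH73
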