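import Pool.Agent.Work.MP_185d81_co.Turan

namespace EH73

open Finset Classical

variable {V : Type} [Fintype V]

private theorem PP_eq (G L : SimpleGraph V) (z u : V) :
    PP G L z u = ∑ v : V, ∑ y : V,
      if (L.Adj z v ∧ G.Adj u v) ∧ (L.Adj u y ∧ L.Adj v y) then 1 else 0 := by
  unfold PP cod cn
  rw [Finset.sum_filter]
  apply Finset.sum_congr rfl
  intro v _
  by_cases h : L.Adj z v ∧ G.Adj u v
  · simp only [h, and_self, if_true, Finset.card_filter, true_and]
  · simp only [h, if_false, false_and, Finset.sum_const_zero]

theorem kc {G : SimpleGraph V} {a : ℕ} (hG : Good G a) (L : SimpleGraph V) (hL : L ≤ G) (P : ℕ)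
    (hP : ∀ z u, L.Adj z u → PP G L z u ≤ P) :
    (trip G L L).card ^ 2 ≤ Fintype.card V * a ^ 2 * ((dar L).card * P + (trip G L L).card) := by
  set T : Finset (V × V) := univ.filter fun p => T2 G p.1 p.2 with hT
  have hTc : T.card ≤ Fintype.card V * a := by
    rw [hT, Finset.card_filter, ← Finset.univ_product_univ, Finset.sum_product]
    calc ∑ x : V, ∑ y : V, (if T2 G (x, y).1 (x, y).2 then 1 else 0)
        = ∑ x : V, (univ.filter fun z => T2 G x z).card := by
          apply Finset.sum_congr rfl
          intro x _
          rw [Finset.card_filter]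
      _ ≤ ∑ _x : V, a := Finset.sum_le_sum fun x _ => card_T2 hG x
      _ = Fintype.card V * a := by rw [Finset.sum_const, smul_eq_mul, Finset.card_univ]
  have htrip : (trip G L L).card = ∑ p ∈ T, (cn L L p.1 p.2).card := by
    rw [hT, Finset.sum_filter, ← Finset.univ_product_univ, Finset.sum_product]
    unfold trip
    rw [Finset.card_filter, ← Finset.univ_product_univ, Finset.sum_product]
    apply Finset.sum_congr rfl
    intro z _
    rw [← Finset.univ_product_univ, Finset.sum_product, Finset.sum_comm]
    apply Finset.sum_congr rfl
    intro v _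
    unfold cn
    rw [Finset.card_filter]
    by_cases h : T2 G z v
    · simp only [h, and_true, if_true]
      apply Finset.sum_congr rfl
      intro u _
      simp only [L.adj_comm u v]
    · simp [h]
  have hCS : (trip G L L).card ^ 2 ≤ T.card * ∑ p ∈ T, (cn L L p.1 p.2).card ^ 2 := by
    rw [htrip]
    exact_mod_cast sq_sum_le_card_mul_sum_sq (s := T) (f := fun p => (cn L L p.1 p.2).card)
  have hW : ∑ p ∈ T, (cn L L p.1 p.2).card ^ 2 ≤
      a * (∑ p ∈ T, (((cn L L p.1 p.2) ×ˢ (cn L L p.1 p.2)).filter fun q => G.Adj q.1 q.2).card
        + (trip G L L).card) := by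
    rw [htrip, ← Finset.sum_add_distrib, Finset.mul_sum]
    exact Finset.sum_le_sum fun p _ => turan_sq hG.ind _
  have hE : ∑ p ∈ T, (((cn L L p.1 p.2) ×ˢ (cn L L p.1 p.2)).filter fun q => G.Adj q.1 q.2).card ≤
      (dar L).card * P := by
    calc ∑ p ∈ T, (((cn L L p.1 p.2) ×ˢ (cn L L p.1 p.2)).filter fun q => G.Adj q.1 q.2).card
        ≤ ∑ p : V × V, (((cn L L p.1 p.2) ×ˢ (cn L L p.1 p.2)).filter fun q => G.Adj q.1 q.2).card :=
          Finset.sum_le_sum_of_subset (Finset.subset_univ _)
      _ = ∑ z : V, ∑ y : V, ∑ u : V, ∑ v : V,
            (if (L.Adj z u ∧ L.Adj y u) ∧ (L.Adj z v ∧ L.Adj y v) ∧ G.Adj u v then 1 else 0) := by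
          rw [← Finset.univ_product_univ, Finset.sum_product]
          apply Finset.sum_congr rfl
          intro z _
          apply Finset.sum_congr rfl
          intro y _
          rw [Finset.card_filter, Finset.sum_product]
          unfold cn
          rw [Finset.sum_filter]
          apply Finset.sum_congr rfl
          intro u _
          by_cases h : L.Adj z u ∧ L.Adj y u
          · simp only [h, and_self, if_true, true_and]
            rw [Finset.sum_filter]
            apply Finset.sum_congr rfl
            intro v _
            by_cases h' : L.Adj z v ∧ L.Adj y v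
            · simp [h']
            · simp only [h', if_false, false_and]
          · simp [h]
      _ = ∑ z : V, ∑ u : V, ∑ v : V, ∑ y : V,
            (if (L.Adj z u ∧ L.Adj y u) ∧ (L.Adj z v ∧ L.Adj y v) ∧ G.Adj u v then 1 else 0) := by
          apply Finset.sum_congr rfl
          intro z _
          rw [Finset.sum_comm]
          apply Finset.sum_congr rfl
          intro u _
          rw [Finset.sum_comm]
      _ = ∑ z : V, ∑ u : V, (if L.Adj z u then PP G L z u else 0) := by
          apply Finset.sum_congr rfl
          intro z _
          apply Finset.sum_congr rfl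
          intro u _
          by_cases h : L.Adj z u
          · simp only [h, true_and, if_true]
            rw [PP_eq]
            apply Finset.sum_congr rfl
            intro v _
            apply Finset.sum_congr rfl
            intro y _
            congr 1
            apply propext
            rw [L.adj_comm y u, L.adj_comm y v]
            tauto
          · simp [h]
      _ = ∑ p ∈ dar L, PP G L p.1 p.2 := by
          unfold dar
          rw [Finset.sum_filter, ← Finset.univ_product_univ, Finset.sum_product]
      _ ≤ ∑ _p ∈ dar L, P := Finset.sum_le_sum fun p hp => hP _ _ (mem_dar.mp hp)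
      _ = (dar L).card * P := by rw [Finset.sum_const, smul_eq_mul]
  calc (trip G L L).card ^ 2 ≤ T.card * ∑ p ∈ T, (cn L L p.1 p.2).card ^ 2 := hCS
    _ ≤ (Fintype.card V * a) * (a * ((dar L).card * P + (trip G L L).card)) := by
        apply Nat.mul_le_mul hTc
        exact hW.trans (Nat.mul_le_mul_left _ (by omega))
    _ = Fintype.card V * a ^ 2 * ((dar L).card * P + (trip G L L).card) := by ring

end EH73
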