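import Pool.Agent.Work.MP_185d81_co.Basic

/-!
# Level: choice of the dominating level
-/

namespace EH73

open Finset Classical

variable {V : Type} [Fintype V]

private theorem lv_one_le_cod {L : SimpleGraph V} {z u v : V} (h1 : L.Adj z u) (h2 : L.Adj z v) :
    1 ≤ cod L L u v := by
  unfold cod
  refine Finset.card_pos.2 ⟨z, mem_cn.2 ⟨h1.symm, h2.symm⟩⟩

private theorem lv_PP {G : SimpleGraph V} {a : ℕ} (hG : Good G a) (L : SimpleGraph V) (hL : L ≤ G)
    (K J : ℕ) (hK : 2 ≤ K) (haK : a < K ^ J) (z u : V) (hzu : L.Adj z u) :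
    PP G L z u ≤ ∑ i ∈ range (J + 1), K ^ (i + 1) * hh G L (K ^ i) z u := by
  have h1 : ∀ v ∈ cn L G z u, cod L L u v ≤
      ∑ i ∈ range (J + 1), if K ^ i ≤ cod L L u v then K ^ (i + 1) else 0 := by
    intro v hv
    rw [mem_cn] at hv
    set c := cod L L u v with hc
    have hc1 : 1 ≤ c := lv_one_le_cod hzu hv.1
    have hca : c ≤ a := cod_le hG hL hL hv.2
    have hlog : Nat.log K c < J + 1 := by
      have : Nat.log K c ≤ J := by
        by_contra h
        push Not at h
        have h2 : K ^ Nat.log K c ≤ c := Nat.pow_log_le_self K (by omega)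
        have h3 : K ^ J ≤ K ^ Nat.log K c := Nat.pow_le_pow_right (by omega) h.le
        omega
      omega
    have h2 : K ^ Nat.log K c ≤ c := Nat.pow_log_le_self K (by omega)
    have h3 : c < K ^ (Nat.log K c + 1) := Nat.lt_pow_succ_log_self (by omega) c
    calc c ≤ (if K ^ Nat.log K c ≤ c then K ^ (Nat.log K c + 1) else 0) := by
          rw [if_pos h2]; exact h3.le
      _ ≤ _ := Finset.single_le_sum (f := fun i => if K ^ i ≤ c then K ^ (i + 1) else 0)
          (fun i _ => Nat.zero_le _) (Finset.mem_range.2 hlog)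
  unfold PP
  calc ∑ v ∈ cn L G z u, cod L L u v
      ≤ ∑ v ∈ cn L G z u, ∑ i ∈ range (J + 1), (if K ^ i ≤ cod L L u v then K ^ (i + 1) else 0) :=
        Finset.sum_le_sum h1
    _ = ∑ i ∈ range (J + 1), ∑ v ∈ cn L G z u, (if K ^ i ≤ cod L L u v then K ^ (i + 1) else 0) :=
        Finset.sum_comm
    _ = ∑ i ∈ range (J + 1), K ^ (i + 1) * hh G L (K ^ i) z u := by
        refine Finset.sum_congr rfl fun i _ => ?_
        rw [← Finset.sum_filter, Finset.sum_const, smul_eq_mul, mul_comm]
        congr 1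
        unfold hh cn
        rw [Finset.filter_filter]
        congr 1
        ext v
        simp only [Finset.mem_filter, Finset.mem_univ, true_and, and_assoc]

private theorem lv_f {G : SimpleGraph V} (L : SimpleGraph V) (K Q : ℕ) :
    (dar (hub G L K Q)).card * Q ≤ ∑ p ∈ dar L, hh G L Q p.1 p.2 := by
  set F := hub G L K Q with hF
  have h1 : (dar F).card * Q ≤ ∑ p ∈ dar F, cod L L p.1 p.2 := by
    rw [← smul_eq_mul, ← Finset.sum_const]
    refine Finset.sum_le_sum fun p hp => ?_
    rw [mem_dar] at hp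
    exact hp.2.1
  refine h1.trans ?_
  have e1 : ∑ p ∈ dar F, cod L L p.1 p.2 =
      ∑ u : V, ∑ v : V, ∑ y : V, if F.Adj u v ∧ L.Adj u y ∧ L.Adj v y then 1 else 0 := by
    unfold dar
    rw [Finset.sum_filter, Fintype.sum_prod_type]
    refine Finset.sum_congr rfl fun u _ => Finset.sum_congr rfl fun v _ => ?_
    by_cases h : F.Adj u v
    · simp only [h, if_true, true_and]
      unfold cod cn
      rw [Finset.card_filter]
    · simp [h]
  have e2 : ∑ p ∈ dar L, hh G L Q p.1 p.2 =
      ∑ y : V, ∑ u : V, ∑ v : V,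
        if L.Adj y u ∧ (L.Adj y v ∧ G.Adj u v ∧ Q ≤ cod L L u v) then 1 else 0 := by
    unfold dar
    rw [Finset.sum_filter, Fintype.sum_prod_type]
    refine Finset.sum_congr rfl fun y _ => Finset.sum_congr rfl fun u _ => ?_
    by_cases h : L.Adj y u
    · simp only [h, if_true, true_and]
      unfold hh
      rw [Finset.card_filter]
    · simp [h]
  rw [e1, e2]
  calc ∑ u : V, ∑ v : V, ∑ y : V, (if F.Adj u v ∧ L.Adj u y ∧ L.Adj v y then 1 else 0)
      = ∑ u : V, ∑ y : V, ∑ v : V, (if F.Adj u v ∧ L.Adj u y ∧ L.Adj v y then 1 else 0) :=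
        Finset.sum_congr rfl fun u _ => Finset.sum_comm
    _ = ∑ y : V, ∑ u : V, ∑ v : V, (if F.Adj u v ∧ L.Adj u y ∧ L.Adj v y then 1 else 0) :=
        Finset.sum_comm
    _ ≤ _ := by
        refine Finset.sum_le_sum fun y _ => Finset.sum_le_sum fun u _ =>
          Finset.sum_le_sum fun v _ => ?_
        by_cases h : F.Adj u v ∧ L.Adj u y ∧ L.Adj v y
        · rw [if_pos h, if_pos]
          exact ⟨h.2.1.symm, h.2.2.symm, h.1.1, h.1.2.1⟩
        · rw [if_neg h]
          exact Nat.zero_le _

theorem level {G : SimpleGraph V} {a : ℕ} (hG : Good G a) (L : SimpleGraph V) (hL : L ≤ G)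
    (K J T : ℕ) (hK : 2 ≤ K) (haK : a < K ^ J) (H : ℕ → ℕ)
    (hH : ∀ j ≤ J, (∀ z u, L.Adj z u → hh G L (K ^ j) z u ≤ K * H j) ∧
        (dar L).card ≤ T * ((dar L).filter fun p => H j ≤ hh G L (K ^ j) p.1 p.2).card)
    (hne : 0 < (dar L).card) :
    (∀ z u, L.Adj z u → cod L G z u ≤ K * H 0) ∧
    ∃ j ≤ J,
      (∀ z u, L.Adj z u → PP G L z u ≤ (J + 1) * K ^ 2 * (K ^ j * H j)) ∧
      (dar (hub G L K (K ^ j))).card * K ^ j ≤ (dar L).card * (K * H j) ∧
      (∀ z u, L.Adj z u → H j ≤ hh G L (K ^ j) z u → H j ≤ 2 * cod L (hub G L K (K ^ j)) z u) ∧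
      (∀ z u, L.Adj z u → cod L (hub G L K (K ^ j)) z u ≤ K * H j) ∧
      H j ≤ K * H 0 := by
  have h0 : ∀ z u, L.Adj z u → hh G L 1 z u ≤ K * H 0 := by
    intro z u hzu
    have := (hH 0 (Nat.zero_le _)).1 z u hzu
    simpa using this
  constructor
  · intro z u hzu
    refine le_trans ?_ (h0 z u hzu)
    unfold cod cn hh
    refine Finset.card_le_card fun v hv => ?_
    simp only [Finset.mem_filter, Finset.mem_univ, true_and] at hv ⊢
    exact ⟨hv.1, hv.2, lv_one_le_cod hzu hv.1⟩
  · obtain ⟨j, hj, hmax⟩ := Finset.exists_max_image (range (J + 1)) (fun i => K ^ i * H i)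
      ⟨0, by simp⟩
    rw [Finset.mem_range] at hj
    have hjJ : j ≤ J := by omega
    have hmax' : ∀ i ≤ J, K ^ i * H i ≤ K ^ j * H j := fun i hi =>
      hmax i (Finset.mem_range.2 (by omega))
    refine ⟨j, hjJ, ?_, ?_, ?_, ?_, ?_⟩
    · intro z u hzu
      refine (lv_PP hG L hL K J hK haK z u hzu).trans ?_
      calc ∑ i ∈ range (J + 1), K ^ (i + 1) * hh G L (K ^ i) z u
          ≤ ∑ i ∈ range (J + 1), K ^ 2 * (K ^ j * H j) := by
            refine Finset.sum_le_sum fun i hi => ?_
            rw [Finset.mem_range] at hi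
            have h1 := (hH i (by omega)).1 z u hzu
            calc K ^ (i + 1) * hh G L (K ^ i) z u ≤ K ^ (i + 1) * (K * H i) :=
                  Nat.mul_le_mul_left _ h1
              _ = K ^ 2 * (K ^ i * H i) := by ring
              _ ≤ K ^ 2 * (K ^ j * H j) := Nat.mul_le_mul_left _ (hmax' i (by omega))
        _ = (J + 1) * K ^ 2 * (K ^ j * H j) := by
            rw [Finset.sum_const, Finset.card_range, smul_eq_mul]
            ring
    · refine (lv_f L K (K ^ j)).trans ?_
      rw [← smul_eq_mul, ← Finset.sum_const]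
      refine Finset.sum_le_sum fun p hp => ?_
      rw [mem_dar] at hp
      exact (hH j hjJ).1 _ _ hp
    · intro z u hzu hle
      have h1 : hh G L (K ^ j) z u ≤ cod L (hub G L K (K ^ j)) z u +
          hh G L (K ^ 2 * K ^ j) z u := by
        unfold hh cod cn
        refine le_trans (Finset.card_le_card ?_) (Finset.card_union_le _ _)
        intro v hv
        simp only [Finset.mem_union, Finset.mem_filter, Finset.mem_univ, true_and] at hv ⊢
        by_cases h : cod L L u v < K ^ 2 * K ^ j
        · left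
          exact ⟨hv.1, hv.2.1, hv.2.2, h⟩
        · right
          exact ⟨hv.1, hv.2.1, not_lt.1 h⟩
      have h2 : 2 * hh G L (K ^ 2 * K ^ j) z u ≤ H j := by
        by_cases hj2 : j + 2 ≤ J
        · have h3 := (hH (j + 2) hj2).1 z u hzu
          have h4 := hmax' (j + 2) hj2
          have e : K ^ 2 * K ^ j = K ^ (j + 2) := by ring
          rw [e]
          have h5 : K ^ 2 * H (j + 2) ≤ H j := by
            have hp : 0 < K ^ j := Nat.pow_pos (by omega)
            refine Nat.le_of_mul_le_mul_left ?_ hp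
            calc K ^ j * (K ^ 2 * H (j + 2)) = K ^ (j + 2) * H (j + 2) := by ring
              _ ≤ _ := h4
          calc 2 * hh G L (K ^ (j + 2)) z u ≤ K * (K * H (j + 2)) :=
                Nat.mul_le_mul hK h3
            _ = K ^ 2 * H (j + 2) := by ring
            _ ≤ H j := h5
        · have h3 : hh G L (K ^ 2 * K ^ j) z u = 0 := by
            unfold hh
            rw [Finset.card_eq_zero, Finset.filter_eq_empty_iff]
            rintro v - ⟨_, hv2, hv3⟩
            have h4 : cod L L u v ≤ a := cod_le hG hL hL hv2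
            have h5 : K ^ J ≤ K ^ 2 * K ^ j := by
              rw [← pow_add]
              exact Nat.pow_le_pow_right (by omega) (by omega)
            omega
          omega
      omega
    · intro z u hzu
      refine le_trans ?_ ((hH j hjJ).1 z u hzu)
      unfold cod cn hh
      refine Finset.card_le_card fun v hv => ?_
      simp only [Finset.mem_filter, Finset.mem_univ, true_and] at hv ⊢
      exact ⟨hv.1, hv.2.1, hv.2.2.1⟩
    · have h1 := (hH j hjJ).2
      have h2 : 0 < ((dar L).filter fun p => H j ≤ hh G L (K ^ j) p.1 p.2).card := by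
        by_contra h
        push Not at h
        have : ((dar L).filter fun p => H j ≤ hh G L (K ^ j) p.1 p.2).card = 0 := by omega
        rw [this] at h1
        omega
      obtain ⟨p, hp⟩ := Finset.card_pos.1 h2
      rw [Finset.mem_filter, mem_dar] at hp
      refine hp.2.trans (le_trans ?_ (h0 _ _ hp.1))
      unfold hh
      refine Finset.card_le_card fun v hv => ?_
      simp only [Finset.mem_filter, Finset.mem_univ, true_and] at hv ⊢
      exact ⟨hv.1, hv.2.1, le_trans (Nat.one_le_pow _ _ (by omega)) hv.2.2⟩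

end EH73
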