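import Pool.Agent.Work.MP_185d81_co.Basic
import Pool.Agent.Work.MP_185d81_co.Star

/-!
# LowQ: triples from one heavy edge   (100 lines)

For (z,u) ∈ 𝓓 choose v with L z v, G u v, cod L L u v ≥ Q (exists as hh ≥ 1). The y ∈ cn L L u v with
y ≠ z are at least Q - 1 in number; each satisfies L u y, L v y. Either T2 z y, and (z,u,y) ∈ trip G L L;
or ¬ T2 z y and (z,u,y) is in the set St = {(z,u,y) : L z u, y ≠ z, ¬ T2 z y, ∃ w, L z w, G u w, G y u, G y w}.
So (Q-1) |𝓓| ≤ |trip G L L| + |St|.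
|St| ≤ ∑_z ∑_{(u,w) ∈ P_z} |{y : y ≠ z, ¬ T2 z y, G y u, G y w}| with P_z = {(u,w) : L z u, L z w, G u w};
`star_sum` with x = z: fixed u: |{w : L z w, G u w}| = cod L G z u ≤ Δ (if L z u, else 0), and the same
for fixed w. So |St| ≤ n * (2*(Δ+Δ)*a).
-/

namespace EH73

open Finset Classical

variable {V : Type} [Fintype V]

private noncomputable def lqW (G L : SimpleGraph V) (z u : V) : Finset V :=
  univ.filter fun y => y ≠ z ∧ ¬ T2 G z y ∧
    ∃ w, L.Adj z w ∧ G.Adj u w ∧ G.Adj y u ∧ G.Adj y w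

private noncomputable def lqP (G L : SimpleGraph V) (z : V) : Finset (V × V) :=
  univ.filter fun p => L.Adj z p.1 ∧ L.Adj z p.2 ∧ G.Adj p.1 p.2

private theorem lq_vertex {G : SimpleGraph V} {a : ℕ} (hG : Good G a) (L : SimpleGraph V)
    (hL : L ≤ G) (Δ : ℕ) (hΔ : ∀ z u, L.Adj z u → cod L G z u ≤ Δ) (z : V) :
    ∑ u : V, (if L.Adj z u then (lqW G L z u).card else 0) ≤ 2 * (Δ + Δ) * a := by
  have h1 : ∑ p ∈ lqP G L z,
      (univ.filter fun y => y ≠ z ∧ ¬ T2 G z y ∧ G.Adj y p.1 ∧ G.Adj y p.2).card ≤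
        2 * (Δ + Δ) * a := by
    refine star_sum hG z _ ?_ Δ Δ ?_ ?_
    · intro p hp
      rw [lqP, mem_filter] at hp
      exact ⟨hL hp.2.1, hL hp.2.2.1, hp.2.2.2⟩
    · intro u
      by_cases hu : L.Adj z u
      · refine le_trans ?_ (hΔ z u hu)
        refine card_le_card_of_injOn Prod.snd ?_ ?_
        · intro p hp
          rw [mem_coe, mem_filter, lqP, mem_filter] at hp
          obtain ⟨⟨_, _, h3, h4⟩, h5⟩ := hp
          rw [mem_coe, mem_cn]
          exact ⟨h3, h5 ▸ h4⟩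
        · intro p hp q hq hpq
          rw [mem_coe, mem_filter] at hp hq
          exact Prod.ext (hp.2.trans hq.2.symm) hpq
      · rw [filter_false_of_mem]
        · simp
        · intro p hp hpu
          rw [lqP, mem_filter] at hp
          exact hu (hpu ▸ hp.2.1)
    · intro w
      by_cases hw : L.Adj z w
      · refine le_trans ?_ (hΔ z w hw)
        refine card_le_card_of_injOn Prod.fst ?_ ?_
        · intro p hp
          rw [mem_coe, mem_filter, lqP, mem_filter] at hp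
          obtain ⟨⟨_, h2, _, h4⟩, h5⟩ := hp
          rw [mem_coe, mem_cn]
          exact ⟨h2, h5 ▸ h4.symm⟩
        · intro p hp q hq hpq
          rw [mem_coe, mem_filter] at hp hq
          exact Prod.ext hpq (hp.2.trans hq.2.symm)
      · rw [filter_false_of_mem]
        · simp
        · intro p hp hpw
          rw [lqP, mem_filter] at hp
          exact hw (hpw ▸ hp.2.2.1)
  refine le_trans ?_ h1
  rw [lqP, sum_filter, ← univ_product_univ, sum_product]
  refine sum_le_sum fun u _ => ?_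
  split_ifs with hu
  · have h2 : lqW G L z u ⊆ (univ.filter fun w => L.Adj z w ∧ G.Adj u w).biUnion fun w =>
        univ.filter fun y => y ≠ z ∧ ¬ T2 G z y ∧ G.Adj y u ∧ G.Adj y w := by
      intro y hy
      rw [lqW, mem_filter] at hy
      obtain ⟨_, h3, h4, w, h5, h6, h7, h8⟩ := hy
      rw [mem_biUnion]
      refine ⟨w, ?_, ?_⟩
      · rw [mem_filter]; exact ⟨mem_univ _, h5, h6⟩
      · rw [mem_filter]; exact ⟨mem_univ _, h3, h4, h7, h8⟩
    refine (card_le_card h2).trans (card_biUnion_le.trans ?_)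
    rw [sum_filter]
    refine sum_le_sum fun w _ => ?_
    split_ifs with h3 h4 h4
    · exact le_rfl
    · exact absurd ⟨hu, h3.1, h3.2⟩ h4
    · exact Nat.zero_le _
    · exact le_rfl
  · exact Nat.zero_le _

theorem lowQ {G : SimpleGraph V} {a : ℕ} (hG : Good G a) (L : SimpleGraph V) (hL : L ≤ G) (Q Δ : ℕ)
    (𝓓 : Finset (V × V)) (h𝓓 : 𝓓 ⊆ dar L) (h1 : ∀ p ∈ 𝓓, 1 ≤ hh G L Q p.1 p.2)
    (hΔ : ∀ z u, L.Adj z u → cod L G z u ≤ Δ) :
    (Q - 1) * 𝓓.card ≤ (trip G L L).card + 4 * Δ * a * Fintype.card V := by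
  have key : ∀ p ∈ 𝓓, Q - 1 ≤ (univ.filter fun y => L.Adj p.2 y ∧ T2 G p.1 y).card +
      (lqW G L p.1 p.2).card := by
    rintro ⟨z, u⟩ hp
    have h2 := h1 _ hp
    unfold hh at h2
    obtain ⟨v, hv⟩ := card_pos.1 h2
    rw [mem_filter] at hv
    obtain ⟨_, hzv, huv, hQ⟩ := hv
    have h3 : (cn L L u v).erase z ⊆ (univ.filter fun y => L.Adj u y ∧ T2 G z y) ∪
        lqW G L z u := by
      intro y hy
      rw [mem_erase, mem_cn] at hy
      obtain ⟨hne, huy, hvy⟩ := hy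
      rw [mem_union, mem_filter, lqW, mem_filter]
      by_cases hT : T2 G z y
      · exact Or.inl ⟨mem_univ _, huy, hT⟩
      · exact Or.inr ⟨mem_univ _, hne, hT, v, hzv, huv, (hL huy).symm, (hL hvy).symm⟩
    calc Q - 1 ≤ (cn L L u v).card - 1 := Nat.sub_le_sub_right hQ 1
      _ ≤ ((cn L L u v).erase z).card := pred_card_le_card_erase
      _ ≤ _ := (card_le_card h3).trans (card_union_le _ _)
  have h2 : (Q - 1) * 𝓓.card ≤ ∑ p ∈ dar L,
      ((univ.filter fun y => L.Adj p.2 y ∧ T2 G p.1 y).card + (lqW G L p.1 p.2).card) := by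
    calc (Q - 1) * 𝓓.card = ∑ _p ∈ 𝓓, (Q - 1) := by rw [sum_const, smul_eq_mul, mul_comm]
      _ ≤ ∑ p ∈ 𝓓, ((univ.filter fun y => L.Adj p.2 y ∧ T2 G p.1 y).card +
          (lqW G L p.1 p.2).card) := sum_le_sum key
      _ ≤ _ := sum_le_sum_of_subset h𝓓
  rw [sum_add_distrib, ← card_trip] at h2
  have h3 : ∑ p ∈ dar L, (lqW G L p.1 p.2).card ≤ 4 * Δ * a * Fintype.card V := by
    rw [dar, sum_filter, ← univ_product_univ, sum_product]
    refine (sum_le_sum fun z _ => lq_vertex hG L hL Δ hΔ z).trans ?_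
    rw [sum_const, smul_eq_mul, card_univ]
    exact le_of_eq (by ring)
  omega

end EH73
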