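import Pool.Agent.Work.MP_185d81_co.Defs

/-!
# Reg: regularization by pruning   (200 lines, finite combinatorics, Mathlib only)

h : ℕ → SimpleGraph V → V → V → ℕ monotone in the graph. For L ≤ G and j ≤ J put
  H_j(L) = the greatest h0 ≤ K^J with |dar L| ≤ T |{p ∈ dar L : h0 ≤ h j L p.1 p.2}|  (`Nat.findGreatest`;
  h0 = 0 always satisfies it since T ≥ 1).
φ(0) = 0, φ(x) = Nat.log K x + 1 for x ≥ 1; so φ(x) ≤ J+1 for x ≤ K^J, φ monotone, and K x' < x ⟹ φ(x') < φ(x).
Φ(L) = ∑_{j ≤ J} φ(H_j(L)) ≤ (J+1)².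
CLAIM by induction on t: for L ≤ G with Φ(L) ≤ t there are L' ≤ L and H as required with
3^(t+1) |dar L| ≤ 4^(t+1) |dar L'|. (Then apply with L = G, t = (J+1)².)
Proof: if dar L is empty take L' = L (everything is trivial, H = 0). Otherwise prune: L1 = the edges zu of L
such that h j L z u ≤ H_j(L) and h j L u z ≤ H_j(L) for all j ≤ J (symmetric).
 * |dar L| ≤ ... : for each j, T |{p ∈ dar L : H_j(L) + 1 ≤ h j L p}| ≤ |dar L| (maximality; if
   H_j(L) = K^J the set is empty by `hb`). Removed darts: for each j the p with h j L p.1 p.2 > H_j and the p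
   with h j L p.2 p.1 > H_j (same number by symmetry). So T * removed ≤ 2 (J+1) |dar L| and, as T ≥ 8(J+1),
   removed ≤ |dar L| / 4, i.e. 3 |dar L| ≤ 4 |dar L1|. In particular dar L1 is nonempty.
 * in L1: h j L1 z u ≤ h j L z u ≤ H_j(L) for all L1-edges (mono); hence H_j(L1) ≤ H_j(L) (otherwise the set
   of p ∈ dar L1 with H_j(L1) ≤ h j L1 p would be empty, but it has at least |dar L1|/T > 0 elements).
 * if H_j(L) ≤ K H_j(L1) for all j ≤ J then L' = L1, H j = H_j(L1) works (3^t ≤ 4^t).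
   Otherwise K H_j(L1) < H_j(L) for some j, so Φ(L1) < Φ(L) ≤ t, use the induction hypothesis for L1, t-1
   (t = 0 is impossible).
-/

namespace EH73

open Finset Classical

variable {V : Type} [Fintype V]

private noncomputable def rgH (h : ℕ → SimpleGraph V → V → V → ℕ) (T N j : ℕ)
    (L : SimpleGraph V) : ℕ :=
  Nat.findGreatest (fun h0 => (dar L).card ≤
    T * ((dar L).filter fun p => h0 ≤ h j L p.1 p.2).card) N

private theorem rg_spec (h : ℕ → SimpleGraph V → V → V → ℕ) (T N j : ℕ) (L : SimpleGraph V)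
    (hT : 1 ≤ T) : (dar L).card ≤
      T * ((dar L).filter fun p => rgH h T N j L ≤ h j L p.1 p.2).card := by
  unfold rgH
  refine Nat.findGreatest_spec (P := fun h0 => (dar L).card ≤
    T * ((dar L).filter fun p => h0 ≤ h j L p.1 p.2).card) (Nat.zero_le N) ?_
  rw [filter_true_of_mem fun p _ => Nat.zero_le _]
  exact Nat.le_mul_of_pos_left _ hT

private theorem rg_max (h : ℕ → SimpleGraph V → V → V → ℕ) (T N j : ℕ) (L : SimpleGraph V)
    (hb : ∀ z u, L.Adj z u → h j L z u ≤ N) :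
    T * ((dar L).filter fun p => rgH h T N j L + 1 ≤ h j L p.1 p.2).card ≤ (dar L).card := by
  rcases Nat.lt_or_ge (rgH h T N j L) N with h1 | h1
  · have h2 := Nat.findGreatest_is_greatest (P := fun h0 => (dar L).card ≤
      T * ((dar L).filter fun p => h0 ≤ h j L p.1 p.2).card) (n := N)
      (k := rgH h T N j L + 1) (Nat.lt_succ_self _) h1
    exact (not_le.1 h2).le
  · rw [filter_false_of_mem]
    · simp
    · rintro p hp hcon
      have h2 : L.Adj p.1 p.2 := (mem_filter.1 hp).2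
      have := hb _ _ h2
      omega

private def rgφ (K x : ℕ) : ℕ := if x = 0 then 0 else Nat.log K x + 1

private theorem rgφ_mono (K : ℕ) {x y : ℕ} (hxy : x ≤ y) : rgφ K x ≤ rgφ K y := by
  unfold rgφ
  split_ifs with h1 h2 h2
  · exact le_rfl
  · exact Nat.zero_le _
  · omega
  · exact Nat.succ_le_succ (Nat.log_mono_right hxy)

private theorem rgφ_le (K J : ℕ) (hK : 2 ≤ K) {x : ℕ} (hx : x ≤ K ^ J) : rgφ K x ≤ J + 1 := by
  unfold rgφ
  split_ifs with h1
  · exact Nat.zero_le _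
  · refine Nat.succ_le_succ ?_
    have h2 := Nat.log_mono_right (b := K) hx
    rwa [Nat.log_pow (by omega)] at h2

private theorem rgφ_lt (K : ℕ) (hK : 2 ≤ K) {x y : ℕ} (hxy : K * x < y) : rgφ K x < rgφ K y := by
  unfold rgφ
  rw [if_neg (show y ≠ 0 by omega)]
  split_ifs with h1
  · exact Nat.succ_pos _
  · refine Nat.succ_lt_succ ?_
    have h2 := Nat.log_mono_right (b := K) hxy.le
    rw [mul_comm, Nat.log_mul_base (by omega) h1] at h2
    omega

private theorem rg_mem (L : SimpleGraph V) (p : V × V) : p ∈ dar L ↔ L.Adj p.1 p.2 := by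
  rw [dar, mem_filter]
  exact ⟨fun h => h.2, fun h => ⟨mem_univ _, h⟩⟩

private theorem rg_dar_subset {L L' : SimpleGraph V} (h : L ≤ L') : dar L ⊆ dar L' := by
  intro p hp
  rw [dar, mem_filter] at hp ⊢
  exact ⟨mem_univ _, h hp.2⟩

private theorem rg_swap (L : SimpleGraph V) (f : V → V → ℕ) (x : ℕ) :
    ((dar L).filter fun p => x ≤ f p.2 p.1).card = ((dar L).filter fun p => x ≤ f p.1 p.2).card := by
  refine card_bij (fun p _ => p.swap) ?_ ?_ ?_
  · intro p hp
    rw [mem_filter, dar, mem_filter] at hp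
    rw [mem_filter, dar, mem_filter]
    exact ⟨⟨mem_univ _, hp.1.2.symm⟩, hp.2⟩
  · intro p _ q _ hpq
    exact Prod.swap_injective hpq
  · intro p hp
    rw [mem_filter, dar, mem_filter] at hp
    refine ⟨p.swap, ?_, Prod.swap_swap p⟩
    rw [mem_filter, dar, mem_filter]
    exact ⟨⟨mem_univ _, hp.1.2.symm⟩, hp.2⟩

private theorem rg_main (G : SimpleGraph V) (h : ℕ → SimpleGraph V → V → V → ℕ)
    (mono : ∀ j L L', L ≤ L' → ∀ z u, h j L z u ≤ h j L' z u) (K J : ℕ) (hK : 2 ≤ K)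
    (hb : ∀ j L, L ≤ G → ∀ z u, L.Adj z u → h j L z u ≤ K ^ J) (T : ℕ) (hT : 8 * (J + 1) ≤ T)
    (t : ℕ) : ∀ L : SimpleGraph V, L ≤ G →
      ∑ j ∈ range (J + 1), rgφ K (rgH h T (K ^ J) j L) ≤ t →
    ∃ L' : SimpleGraph V, L' ≤ G ∧
      3 ^ (t + 1) * (dar L).card ≤ 4 ^ (t + 1) * (dar L').card ∧
      ∃ H : ℕ → ℕ, ∀ j ≤ J, (∀ z u, L'.Adj z u → h j L' z u ≤ K * H j) ∧
        (dar L').card ≤ T * ((dar L').filter fun p => H j ≤ h j L' p.1 p.2).card := by
  induction t using Nat.strong_induction_on with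
  | _ t ih =>
    intro L hLG hΦ
    by_cases hemp : dar L = ∅
    · refine ⟨L, hLG, ?_, fun _ => 0, fun j _ => ⟨fun z u hzu => ?_, ?_⟩⟩
      · rw [hemp]; simp
      · have : (z, u) ∈ dar L := by rw [dar, mem_filter]; exact ⟨mem_univ _, hzu⟩
        rw [hemp] at this
        exact absurd this (notMem_empty _)
      · rw [hemp]; simp
    have hpos : 0 < (dar L).card := card_pos.2 (nonempty_iff_ne_empty.2 hemp)
    set Hf : ℕ → ℕ := fun j => rgH h T (K ^ J) j L with hHf
    let L1 : SimpleGraph V :=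
      { Adj := fun z u => L.Adj z u ∧ ∀ j ≤ J, h j L z u ≤ Hf j ∧ h j L u z ≤ Hf j
        symm := ⟨fun z u hzu => ⟨hzu.1.symm, fun j hj => ⟨(hzu.2 j hj).2, (hzu.2 j hj).1⟩⟩⟩
        loopless := ⟨fun u hu => L.loopless.irrefl u hu.1⟩ }
    have hL1L : L1 ≤ L := fun z u hzu => hzu.1
    have hL1G : L1 ≤ G := hL1L.trans hLG
    have hsub : dar L1 ⊆ dar L := rg_dar_subset hL1L
    -- removed
    have hrem : dar L \ dar L1 ⊆ (range (J + 1)).biUnion fun j =>
        ((dar L).filter fun p => Hf j + 1 ≤ h j L p.1 p.2) ∪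
        ((dar L).filter fun p => Hf j + 1 ≤ h j L p.2 p.1) := by
      intro p hp
      rw [mem_sdiff] at hp
      obtain ⟨hp1, hp2⟩ := hp
      have hadj : L.Adj p.1 p.2 := (mem_filter.1 hp1).2
      have hn : ¬ ∀ j ≤ J, h j L p.1 p.2 ≤ Hf j ∧ h j L p.2 p.1 ≤ Hf j := by
        intro hcon
        exact hp2 ((rg_mem L1 p).2 ⟨hadj, hcon⟩)
      push Not at hn
      obtain ⟨j, hj, hj2⟩ := hn
      rw [mem_biUnion]
      refine ⟨j, mem_range.2 (Nat.lt_succ_of_le hj), ?_⟩
      rw [mem_union, mem_filter, mem_filter]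
      by_cases hc : h j L p.1 p.2 ≤ Hf j
      · exact Or.inr ⟨hp1, hj2 hc⟩
      · exact Or.inl ⟨hp1, by omega⟩
    have hcard : T * (dar L \ dar L1).card ≤ 2 * (J + 1) * (dar L).card := by
      have h1 := (card_le_card hrem).trans card_biUnion_le
      have h2 : ∀ j ∈ range (J + 1), (((dar L).filter fun p => Hf j + 1 ≤ h j L p.1 p.2) ∪
        ((dar L).filter fun p => Hf j + 1 ≤ h j L p.2 p.1)).card ≤
          2 * ((dar L).filter fun p => Hf j + 1 ≤ h j L p.1 p.2).card := by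
        intro j _
        refine (card_union_le _ _).trans ?_
        rw [rg_swap L (h j L) (Hf j + 1)]
        omega
      have h3 := h1.trans (sum_le_sum h2)
      have h4 : ∀ j ∈ range (J + 1),
          T * (2 * ((dar L).filter fun p => Hf j + 1 ≤ h j L p.1 p.2).card) ≤
            2 * (dar L).card := by
        intro j _
        have := rg_max h T (K ^ J) j L (hb j L hLG)
        calc T * (2 * ((dar L).filter fun p => Hf j + 1 ≤ h j L p.1 p.2).card)
            = 2 * (T * ((dar L).filter fun p => Hf j + 1 ≤ h j L p.1 p.2).card) := by ring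
          _ ≤ 2 * (dar L).card := Nat.mul_le_mul_left _ this
      calc T * (dar L \ dar L1).card
          ≤ T * ∑ j ∈ range (J + 1),
              2 * ((dar L).filter fun p => Hf j + 1 ≤ h j L p.1 p.2).card :=
            Nat.mul_le_mul_left _ h3
        _ = ∑ j ∈ range (J + 1),
              T * (2 * ((dar L).filter fun p => Hf j + 1 ≤ h j L p.1 p.2).card) := by
            rw [mul_sum]
        _ ≤ ∑ j ∈ range (J + 1), 2 * (dar L).card := sum_le_sum h4
        _ = 2 * (J + 1) * (dar L).card := by rw [sum_const, card_range, smul_eq_mul]; ring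
    have hsplit : (dar L \ dar L1).card + (dar L1).card = (dar L).card :=
      card_sdiff_add_card_eq_card hsub
    have h34 : 3 * (dar L).card ≤ 4 * (dar L1).card := by
      have h1 : 8 * (J + 1) * (dar L \ dar L1).card ≤ T * (dar L \ dar L1).card :=
        Nat.mul_le_mul_right _ hT
      have h2 := h1.trans hcard
      have h3 : (2 * (J + 1)) * (4 * (dar L \ dar L1).card) ≤ (2 * (J + 1)) * (dar L).card := by
        calc (2 * (J + 1)) * (4 * (dar L \ dar L1).card)
            = 8 * (J + 1) * (dar L \ dar L1).card := by ring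
          _ ≤ _ := h2
      have h4 := Nat.le_of_mul_le_mul_left h3 (by omega)
      omega
    have hpos1 : 0 < (dar L1).card := by omega
    have hT1 : 1 ≤ T := by omega
    have hbd : ∀ j ≤ J, ∀ z u, L1.Adj z u → h j L1 z u ≤ Hf j := fun j hj z u hzu =>
      (mono j L1 L hL1L z u).trans (hzu.2 j hj).1
    have hHle : ∀ j ≤ J, rgH h T (K ^ J) j L1 ≤ Hf j := by
      intro j hj
      by_contra hcon
      have h1 := rg_spec h T (K ^ J) j L1 hT1
      rw [filter_false_of_mem] at h1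
      · simp at h1
        rw [h1] at hpos1
        simp at hpos1
      · intro p hp hcon2
        have h2 : L1.Adj p.1 p.2 := (rg_mem L1 p).1 hp
        have := hbd j hj _ _ h2
        omega
    by_cases hall : ∀ j ≤ J, Hf j ≤ K * rgH h T (K ^ J) j L1
    · refine ⟨L1, hL1G, ?_, fun j => rgH h T (K ^ J) j L1, fun j hj => ⟨fun z u hzu => ?_,
        rg_spec h T (K ^ J) j L1 hT1⟩⟩
      · rw [pow_succ 3 t, pow_succ 4 t]
        calc 3 ^ t * 3 * (dar L).card = 3 ^ t * (3 * (dar L).card) := by ring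
          _ ≤ 4 ^ t * (4 * (dar L1).card) :=
              Nat.mul_le_mul (Nat.pow_le_pow_left (by norm_num) _) h34
          _ = 4 ^ t * 4 * (dar L1).card := by ring
      · exact (hbd j hj z u hzu).trans (hall j hj)
    · push Not at hall
      obtain ⟨j0, hj0, hlt⟩ := hall
      have hΦlt : ∑ j ∈ range (J + 1), rgφ K (rgH h T (K ^ J) j L1) <
          ∑ j ∈ range (J + 1), rgφ K (Hf j) :=
        sum_lt_sum (fun j hj => rgφ_mono K (hHle j (Nat.lt_succ_iff.1 (mem_range.1 hj))))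
          ⟨j0, mem_range.2 (Nat.lt_succ_of_le hj0), rgφ_lt K hK hlt⟩
      have hΦ' : ∑ j ∈ range (J + 1), rgφ K (Hf j) ≤ t := hΦ
      have hlt2 := hΦlt.trans_le hΦ'
      obtain ⟨t', rfl⟩ : ∃ t', t = t' + 1 := ⟨t - 1, by omega⟩
      obtain ⟨L', hL'G, hc, H, hH⟩ := ih t' (Nat.lt_succ_self t') L1 hL1G (by omega)
      refine ⟨L', hL'G, ?_, H, hH⟩
      calc 3 ^ (t' + 1 + 1) * (dar L).card = 3 ^ (t' + 1) * (3 * (dar L).card) := by ring
        _ ≤ 3 ^ (t' + 1) * (4 * (dar L1).card) := Nat.mul_le_mul_left _ h34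
        _ = 4 * (3 ^ (t' + 1) * (dar L1).card) := by ring
        _ ≤ 4 * (4 ^ (t' + 1) * (dar L').card) := Nat.mul_le_mul_left _ hc
        _ = 4 ^ (t' + 1 + 1) * (dar L').card := by ring

theorem reg (G : SimpleGraph V) (h : ℕ → SimpleGraph V → V → V → ℕ)
    (mono : ∀ j L L', L ≤ L' → ∀ z u, h j L z u ≤ h j L' z u) (K J : ℕ) (hK : 2 ≤ K)
    (hb : ∀ j L, L ≤ G → ∀ z u, L.Adj z u → h j L z u ≤ K ^ J) (T : ℕ) (hT : 8 * (J + 1) ≤ T) :
    ∃ L : SimpleGraph V, L ≤ G ∧
      3 ^ ((J + 1) ^ 2 + 1) * (dar G).card ≤ 4 ^ ((J + 1) ^ 2 + 1) * (dar L).card ∧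
      ∃ H : ℕ → ℕ, ∀ j ≤ J, (∀ z u, L.Adj z u → h j L z u ≤ K * H j) ∧
        (dar L).card ≤ T * ((dar L).filter fun p => H j ≤ h j L p.1 p.2).card := by
  refine rg_main G h mono K J hK hb T hT ((J + 1) ^ 2) G le_rfl ?_
  calc ∑ j ∈ range (J + 1), rgφ K (rgH h T (K ^ J) j G)
      ≤ ∑ _j ∈ range (J + 1), (J + 1) :=
        sum_le_sum fun j _ => rgφ_le K J hK (Nat.findGreatest_le _)
    _ = (J + 1) ^ 2 := by rw [sum_const, card_range, smul_eq_mul]; ring

end EH73
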