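import Pool.Agent.Work.MP_185d81_co.Turan

namespace EH73

open Finset Classical

variable {V : Type} [Fintype V]

private theorem PP_eq (G L : SimpleGraph V) (z u : V) :
    PP G L z u = ∑ v : V, ∑ y : V,
      if (L.Adj z v ∧ G.Adj u v) ∧ (L.Adj u y ∧ L.Adj v y) then 1 else 0 := by
  unfold PP cod cn
  rw [Finset.sum_filter]
  apply Finset.sum_congr rfl
  intro v _
  by_cases h : L.Adj z v ∧ G.Adj u v
  · simp only [h, and_self, if_true, Finset.card_filter, true_and]
  · simp only [h, if_false, false_and, Finset.sum_const_zero]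

private noncomputable def Sb (G L : SimpleGraph V) (b u : V) : Finset V :=
  univ.filter fun z => L.Adj z u ∧ T2 G z b

private noncomputable def Ub (F L : SimpleGraph V) (b y y' : V) : Finset V :=
  univ.filter fun u => F.Adj b u ∧ L.Adj y u ∧ L.Adj y' u

private noncomputable def Tb (G : SimpleGraph V) (b : V) : Finset V :=
  univ.filter fun z => T2 G z b

private theorem Tb_card {G : SimpleGraph V} {a : ℕ} (hG : Good G a) (b : V) : (Tb G b).card ≤ a := by
  have := card_T2 hG b
  unfold Tb
  simpa only [T2_comm] using this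

private theorem sq_card_eq (s : Finset V) :
    s.card ^ 2 = ∑ y : V, ∑ y' : V, if y ∈ s ∧ y' ∈ s then 1 else 0 := by
  have : ∀ y y' : V, (if y ∈ s ∧ y' ∈ s then 1 else 0 : ℕ) =
      (if y ∈ s then 1 else 0) * (if y' ∈ s then 1 else 0) := by
    intro y y'
    by_cases h : y ∈ s <;> by_cases h' : y' ∈ s <;> simp [h, h']
  simp_rw [this]
  rw [← Finset.sum_mul_sum]
  simp [sq]

theorem second {G : SimpleGraph V} {a : ℕ} (hG : Good G a) (F L : SimpleGraph V) (hF : F ≤ G)
    (hL : L ≤ G) (P : ℕ) (hP : ∀ z u, L.Adj z u → PP G L z u ≤ P) :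
    ∃ X : ℕ, (trip G F L).card ^ 2 ≤ (dar F).card * X ∧
      X ^ 2 ≤ Fintype.card V * a ^ 3 * (X + P * (trip G F L).card) := by
  -- the quantities for a single `b`
  set Xb : V → ℕ := fun b => ∑ p ∈ Tb G b ×ˢ Tb G b, (Ub F L b p.1 p.2).card with hXb
  set Yb : V → ℕ := fun b => ∑ p ∈ Tb G b ×ˢ Tb G b,
    (((Ub F L b p.1 p.2) ×ˢ (Ub F L b p.1 p.2)).filter fun q => G.Adj q.1 q.2).card with hYb
  -- (2)
  have h2 : ∀ b, Xb b ^ 2 ≤ a ^ 3 * (Xb b + Yb b) := by
    intro b
    have e1 : Xb b ^ 2 ≤ (Tb G b ×ˢ Tb G b).card * ∑ p ∈ Tb G b ×ˢ Tb G b, (Ub F L b p.1 p.2).card ^ 2 := by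
      exact_mod_cast sq_sum_le_card_mul_sum_sq (s := Tb G b ×ˢ Tb G b)
        (f := fun p => (Ub F L b p.1 p.2).card)
    have e2 : ∑ p ∈ Tb G b ×ˢ Tb G b, (Ub F L b p.1 p.2).card ^ 2 ≤ a * (Yb b + Xb b) := by
      rw [hXb, hYb]
      simp only
      rw [← Finset.sum_add_distrib, Finset.mul_sum]
      exact Finset.sum_le_sum fun p _ => turan_sq hG.ind _
    have e3 : (Tb G b ×ˢ Tb G b).card ≤ a ^ 2 := by
      rw [Finset.card_product, sq]
      exact Nat.mul_le_mul (Tb_card hG b) (Tb_card hG b)
    calc Xb b ^ 2 ≤ a ^ 2 * (a * (Yb b + Xb b)) := e1.trans (Nat.mul_le_mul e3 e2)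
      _ = a ^ 3 * (Xb b + Yb b) := by ring
  -- `∑_u |S(b,u)|²`
  have hXsum : ∀ b, Xb b = ∑ u : V, if F.Adj b u then (Sb G L b u).card ^ 2 else 0 := by
    intro b
    rw [hXb]
    simp only
    rw [Finset.sum_product]
    have : ∀ u : V, (if F.Adj b u then (Sb G L b u).card ^ 2 else 0) =
        ∑ y : V, ∑ y' : V, if F.Adj b u ∧ ((L.Adj y u ∧ T2 G y b) ∧ (L.Adj y' u ∧ T2 G y' b)) then 1 else 0 := by
      intro u
      by_cases h : F.Adj b u
      · simp only [h, if_true, true_and]
        rw [sq_card_eq]
        apply Finset.sum_congr rfl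
        intro y _
        apply Finset.sum_congr rfl
        intro y' _
        simp [Sb]
      · simp [h]
    simp_rw [this]
    conv_rhs => rw [Finset.sum_comm]
    unfold Tb
    rw [Finset.sum_filter]
    apply Finset.sum_congr rfl
    intro y _
    conv_rhs => rw [Finset.sum_comm]
    by_cases hy : T2 G y b
    · simp only [hy, if_true, and_true]
      rw [Finset.sum_filter]
      apply Finset.sum_congr rfl
      intro y' _
      by_cases hy' : T2 G y' b
      · simp only [hy', if_true, and_true]
        unfold Ub
        rw [Finset.card_filter]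
      · simp [hy']
    · simp [hy]
  have htrip : (trip G F L).card = ∑ p ∈ dar F, (Sb G L p.1 p.2).card := by
    unfold trip dar
    rw [Finset.card_filter, ← Finset.univ_product_univ, Finset.sum_product, Finset.sum_filter,
      ← Finset.univ_product_univ, Finset.sum_product]
    simp only
    rw [Finset.sum_comm' (s := univ) (t := fun _ => univ ×ˢ univ) (t' := univ ×ˢ univ) (s' := fun _ => univ)
      (by simp)]
    rw [Finset.sum_product, Finset.sum_comm]
    apply Finset.sum_congr rfl
    intro b _
    apply Finset.sum_congr rfl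
    intro u _
    simp only
    by_cases h : F.Adj b u
    · simp only [h, if_true, h.symm, true_and]
      unfold Sb
      rw [Finset.card_filter]
    · have h' : ¬ F.Adj u b := fun h' => h h'.symm
      simp [h, h']
  have h1 : (trip G F L).card ^ 2 ≤ (dar F).card * ∑ b : V, Xb b := by
    rw [htrip]
    have e1 : (∑ p ∈ dar F, (Sb G L p.1 p.2).card) ^ 2 ≤
        (dar F).card * ∑ p ∈ dar F, (Sb G L p.1 p.2).card ^ 2 := by
      exact_mod_cast sq_sum_le_card_mul_sum_sq (s := dar F) (f := fun p => (Sb G L p.1 p.2).card)
    refine e1.trans (Nat.mul_le_mul_left _ (le_of_eq ?_))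
    simp_rw [hXsum]
    unfold dar
    rw [Finset.sum_filter, ← Finset.univ_product_univ, Finset.sum_product]
  -- (3)
  have h3 : (∑ b : V, Xb b) ^ 2 ≤ Fintype.card V * a ^ 3 * (∑ b : V, Xb b + ∑ b : V, Yb b) := by
    have e1 : (∑ b : V, Xb b) ^ 2 ≤ Fintype.card V * ∑ b : V, Xb b ^ 2 := by
      have := sq_sum_le_card_mul_sum_sq (s := (univ : Finset V)) (f := Xb)
      rw [Finset.card_univ] at this
      exact_mod_cast this
    calc (∑ b : V, Xb b) ^ 2 ≤ Fintype.card V * ∑ b : V, Xb b ^ 2 := e1
      _ ≤ Fintype.card V * ∑ b : V, a ^ 3 * (Xb b + Yb b) :=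
          Nat.mul_le_mul_left _ (Finset.sum_le_sum fun b _ => h2 b)
      _ = Fintype.card V * a ^ 3 * (∑ b : V, Xb b + ∑ b : V, Yb b) := by
          rw [← Finset.mul_sum, Finset.sum_add_distrib]; ring
  -- (4)
  have h4 : ∑ b : V, Yb b ≤ P * (trip G F L).card := by
    have hY : ∀ b, Yb b ≤ ∑ u : V, ∑ y : V,
        if F.Adj b u ∧ (L.Adj y u ∧ T2 G y b) then PP G L y u else 0 := by
      intro b
      rw [hYb]
      simp only
      rw [Finset.sum_product]
      calc ∑ y ∈ Tb G b, ∑ y' ∈ Tb G b,
            (((Ub F L b (y, y').1 (y, y').2) ×ˢ (Ub F L b (y, y').1 (y, y').2)).filter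
              fun q => G.Adj q.1 q.2).card
          ≤ ∑ y ∈ Tb G b, ∑ y' : V,
            (((Ub F L b y y') ×ˢ (Ub F L b y y')).filter fun q => G.Adj q.1 q.2).card := by
            apply Finset.sum_le_sum
            intro y _
            exact Finset.sum_le_sum_of_subset (Finset.subset_univ _)
        _ = ∑ y ∈ Tb G b, ∑ y' : V, ∑ u : V, ∑ u' : V,
            (if (F.Adj b u ∧ L.Adj y u ∧ L.Adj y' u) ∧ (F.Adj b u' ∧ L.Adj y u' ∧ L.Adj y' u') ∧
              G.Adj u u' then 1 else 0) := by
            apply Finset.sum_congr rfl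
            intro y _
            apply Finset.sum_congr rfl
            intro y' _
            rw [Finset.card_filter, Finset.sum_product]
            unfold Ub
            rw [Finset.sum_filter]
            apply Finset.sum_congr rfl
            intro u _
            by_cases h : F.Adj b u ∧ L.Adj y u ∧ L.Adj y' u
            · simp only [h, and_self, if_true, true_and]
              rw [Finset.sum_filter]
              apply Finset.sum_congr rfl
              intro u' _
              by_cases h' : F.Adj b u' ∧ L.Adj y u' ∧ L.Adj y' u'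
              · simp [h']
              · simp only [h', if_false, false_and]
            · simp only [h, if_false, false_and, Finset.sum_const_zero]
        _ ≤ ∑ y ∈ Tb G b, ∑ u : V, ∑ u' : V, ∑ y' : V,
            (if (F.Adj b u ∧ L.Adj y u) ∧ (L.Adj y u' ∧ G.Adj u u') ∧ (L.Adj u y' ∧ L.Adj u' y')
              then 1 else 0) := by
            apply Finset.sum_le_sum
            intro y _
            rw [Finset.sum_comm]
            apply Finset.sum_le_sum
            intro u _
            rw [Finset.sum_comm]
            apply Finset.sum_le_sum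
            intro u' _
            apply Finset.sum_le_sum
            intro y' _
            rw [L.adj_comm u y', L.adj_comm u' y']
            by_cases h : (F.Adj b u ∧ L.Adj y u ∧ L.Adj y' u) ∧
              (F.Adj b u' ∧ L.Adj y u' ∧ L.Adj y' u') ∧ G.Adj u u'
            · have h' : (F.Adj b u ∧ L.Adj y u) ∧ (L.Adj y u' ∧ G.Adj u u') ∧
                (L.Adj y' u ∧ L.Adj y' u') := by tauto
              simp [h, h']
            · simp [h]
        _ = ∑ y ∈ Tb G b, ∑ u : V, if F.Adj b u ∧ L.Adj y u then PP G L y u else 0 := by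
            apply Finset.sum_congr rfl
            intro y _
            apply Finset.sum_congr rfl
            intro u _
            by_cases h : F.Adj b u ∧ L.Adj y u
            · simp only [h, and_self, if_true, true_and]
              rw [PP_eq]
            · simp only [h, if_false, false_and, Finset.sum_const_zero]
        _ = ∑ u : V, ∑ y : V, if F.Adj b u ∧ (L.Adj y u ∧ T2 G y b) then PP G L y u else 0 := by
            unfold Tb
            rw [Finset.sum_filter]
            rw [Finset.sum_comm (s := univ) (t := univ) (f := fun u y =>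
              if F.Adj b u ∧ (L.Adj y u ∧ T2 G y b) then PP G L y u else 0)]
            apply Finset.sum_congr rfl
            intro y _
            by_cases h : T2 G y b
            · simp [h]
            · simp [h]
    calc ∑ b : V, Yb b ≤ ∑ b : V, ∑ u : V, ∑ y : V,
          (if F.Adj b u ∧ (L.Adj y u ∧ T2 G y b) then PP G L y u else 0) :=
          Finset.sum_le_sum fun b _ => hY b
      _ ≤ ∑ b : V, ∑ u : V, ∑ y : V, (if F.Adj b u ∧ (L.Adj y u ∧ T2 G y b) then P else 0) := by
          apply Finset.sum_le_sum
          intro b _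
          apply Finset.sum_le_sum
          intro u _
          apply Finset.sum_le_sum
          intro y _
          by_cases h : F.Adj b u ∧ (L.Adj y u ∧ T2 G y b)
          · simp only [h, and_self, if_true]
            exact hP _ _ h.2.1
          · simp [h]
      _ = ∑ b : V, ∑ u : V, P * (if F.Adj b u then (Sb G L b u).card else 0) := by
          apply Finset.sum_congr rfl
          intro b _
          apply Finset.sum_congr rfl
          intro u _
          by_cases h : F.Adj b u
          · simp only [h, true_and, if_true]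
            unfold Sb
            rw [Finset.card_filter, Finset.mul_sum]
            apply Finset.sum_congr rfl
            intro y _
            by_cases h' : L.Adj y u ∧ T2 G y b
            · simp [h']
            · simp [h']
          · simp [h]
      _ = P * (trip G F L).card := by
          rw [htrip]
          unfold dar
          rw [Finset.sum_filter, ← Finset.univ_product_univ, Finset.sum_product]
          simp only [Finset.mul_sum]
  refine ⟨∑ b : V, Xb b, h1, h3.trans (Nat.mul_le_mul_left _ (by omega))⟩

end EH73
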