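import Pool.Agent.Work.MP_185d81_co.Numerics
import Pool.Agent.Work.MP_185d81_co.Hub
import Pool.Agent.Work.MP_185d81_co.KC
import Pool.Agent.Work.MP_185d81_co.Second
import Pool.Agent.Work.MP_185d81_co.LowQ
import Pool.Agent.Work.MP_185d81_co.Reg
import Pool.Agent.Work.MP_185d81_co.Level

/-!
# Core: assembly (helper89)
-/

namespace EH73

open Finset Classical

variable {V : Type} [Fintype V]

private theorem hh_mono (G : SimpleGraph V) (q : ℕ) (L L' : SimpleGraph V) (h : L ≤ L') (z u : V) :
    hh G L q z u ≤ hh G L' q z u := by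
  unfold hh
  apply Finset.card_le_card
  intro v hv
  simp only [Finset.mem_filter, Finset.mem_univ, true_and] at hv ⊢
  refine ⟨h hv.1, hv.2.1, hv.2.2.trans ?_⟩
  unfold cod cn
  apply Finset.card_le_card
  intro y hy
  simp only [Finset.mem_filter, Finset.mem_univ, true_and] at hy ⊢
  exact ⟨h hy.1, h hy.2⟩

private theorem hub_le (G L : SimpleGraph V) (K Q : ℕ) : hub G L K Q ≤ G := by
  intro u v h
  exact h.1

/-- swapping the darts -/
private theorem card_swap (L : SimpleGraph V) (c : ℕ) (f : V → V → ℕ) :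
    ((dar L).filter fun p => c ≤ f p.1 p.2).card = ((dar L).filter fun p => c ≤ f p.2 p.1).card := by
  apply Finset.card_bij (fun p _ => (p.2, p.1))
  · intro p hp
    simp only [Finset.mem_filter, mem_dar] at hp ⊢
    exact ⟨hp.1.symm, hp.2⟩
  · intro p _ q _ h
    simp only [Prod.mk.injEq] at h
    exact Prod.ext h.2 h.1
  · intro p hp
    simp only [Finset.mem_filter, mem_dar] at hp
    refine ⟨(p.2, p.1), ?_, rfl⟩
    simp only [Finset.mem_filter, mem_dar]
    exact ⟨hp.1.symm, hp.2⟩

theorem core {G : SimpleGraph V} {a : ℕ} (hG : Good G a) (ha : 1 ≤ a) (K J : ℕ) (hK : 100 ≤ K)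
    (hKJ : 8 * (J + 1) ≤ K) (haK : a < K ^ J) :
    (3 ^ ((J + 1) ^ 2 + 1) * (dar G).card) ^ 8 ≤
      (4 ^ ((J + 1) ^ 2 + 1)) ^ 8 * (K ^ 40 * Fintype.card V ^ 8 * a ^ 11) := by
  obtain ⟨L, hL, hLG, H, hH⟩ := reg G (fun j L => hh G L (K ^ j))
    (fun j L L' h z u => hh_mono G (K ^ j) L L' h z u) K J (by omega)
    (fun j L hL z u hzu => (hh_le hG hL (K ^ j) hzu).trans haK.le) (8 * (J + 1)) le_rfl
  have key : (dar L).card ^ 8 ≤ K ^ 40 * Fintype.card V ^ 8 * a ^ 11 := by
    rcases Nat.eq_zero_or_pos (dar L).card with h0 | hne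
    · rw [h0]; simp
    obtain ⟨hc0, j, hj, hP, hf, hD, hC, hHH⟩ := level hG L hL K J (8 * (J + 1)) (by omega) haK H hH hne
    have hn : 1 ≤ Fintype.card V := by
      obtain ⟨p, hp⟩ := Finset.card_pos.mp hne
      exact Fintype.card_pos_iff.mpr ⟨p.1⟩
    -- the good sets of darts
    set T := 8 * (J + 1) with hT
    set F := hub G L K (K ^ j) with hF
    have hFG : F ≤ G := hub_le G L K (K ^ j)
    -- `h_0` on darts
    have hhc : ∀ z u, L.Adj z u → hh G L (K ^ 0) z u ≤ cod L G z u := by
      intro z u _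
      unfold hh cod cn
      apply Finset.card_le_card
      intro v hv
      simp only [Finset.mem_filter, Finset.mem_univ, true_and] at hv ⊢
      exact ⟨hv.1, hv.2.1⟩
    set D4 := (dar L).filter fun p => H 0 ≤ hh G L (K ^ 0) p.2 p.1 with hD4
    have hD4c : (dar L).card ≤ T * D4.card := by
      have := (hH 0 (Nat.zero_le _)).2
      rwa [card_swap L (H 0) (fun z u => hh G L (K ^ 0) z u)] at this
    set D8 := (dar L).filter fun p => H j ≤ hh G L (K ^ j) p.1 p.2 with hD8
    have hD8c : (dar L).card ≤ T * D8.card := (hH j hj).2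
    obtain ⟨X, hX1, hX2⟩ := second hG F L hFG hL _ hP
    refine numerics (Fintype.card V) (dar L).card a K J T (H 0) (H j) (K ^ j) (dar F).card
      (trip G L L).card (trip G F L).card ((J + 1) * K ^ 2 * (K ^ j * H j)) X hn hne ha hK
      hKJ (by omega) (Nat.one_le_pow _ _ (by omega)) rfl ?_ ?_ ?_ ?_ ?_ ?_ ?_ ?_ ?_
    · exact dar_le hG.ind L (K * H 0) (fun u z h => hc0 u z h)
    · intro D hD1
      obtain ⟨b, c, hbc, hc, hb⟩ := hub_ineq hG L L G hL hL le_rfl D4 (Finset.filter_subset _ _)
        (H 0) (K * H 0) a a D hD1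
        (by
          intro p hp
          rw [hD4, Finset.mem_filter, mem_dar] at hp
          have h1 := hhc p.2 p.1 hp.1.symm
          rw [cod_comm G L p.1 p.2]
          have := hp.2
          omega)
        (by
          intro p hp
          rw [hD4, Finset.mem_filter, mem_dar] at hp
          rw [cod_comm G L p.1 p.2]
          exact hc0 _ _ hp.1.symm)
        (fun u v h => cod_le hG hL le_rfl (hL h))
        (fun w v h => cod_le hG hL hL h)
      refine ⟨b, c, ?_, hc, ?_⟩
      · rw [hbc]; exact hD4c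
      · have : 2 * (a + a) * a * Fintype.card V = 4 * a * a * Fintype.card V := by ring
        rw [this] at hb
        exact hb
    · exact kc hG L hL _ hP
    · exact hf
    · intro D hD1
      obtain ⟨b, c, hbc, hc, hb⟩ := hub_ineq hG F L L hFG hL hL D8 (Finset.filter_subset _ _)
        (H j) (K * H j) (K ^ 2 * K ^ j) (K * H j) D hD1
        (by
          intro p hp
          rw [hD8, Finset.mem_filter, mem_dar] at hp
          exact hD _ _ hp.1 hp.2)
        (by
          intro p hp
          rw [hD8, Finset.mem_filter, mem_dar] at hp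
          exact hC _ _ hp.1)
        (fun u v h => h.2.2.le)
        (fun w v h => hC _ _ h)
      refine ⟨b, c, ?_, hc, ?_⟩
      · rw [hbc]; exact hD8c
      · exact hb
    · intro hHj
      refine ⟨D8.card, hD8c, ?_⟩
      exact lowQ hG L hL (K ^ j) (K * H 0) D8 (Finset.filter_subset _ _)
        (by
          intro p hp
          rw [hD8, Finset.mem_filter, mem_dar] at hp
          exact hHj.trans hp.2)
        (fun z u h => hc0 z u h)
    · exact hX1
    · exact hX2
    · exact hHH
  calc (3 ^ ((J + 1) ^ 2 + 1) * (dar G).card) ^ 8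
      ≤ (4 ^ ((J + 1) ^ 2 + 1) * (dar L).card) ^ 8 := Nat.pow_le_pow_left hLG 8
    _ = (4 ^ ((J + 1) ^ 2 + 1)) ^ 8 * (dar L).card ^ 8 := by rw [mul_pow]
    _ ≤ _ := Nat.mul_le_mul_left _ key

end EH73
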