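import Mathlib

/-!
# MP_185d81_co : definitions (FIXED, do not change)

Notation of the blueprint (`/team-store/blueprint_185d81.md`): `G` the graph, `L, L', F ≤ G` subgraphs,
all finsets are obtained by classical `filter` of `univ`.  No `DecidableEq V` anywhere: always
`open Classical`.
-/

namespace EH73

open Finset Classical

noncomputable section

variable {V : Type} [Fintype V]

/-- the darts (ordered adjacent pairs) of a graph, as a finset -/
def dar (L : SimpleGraph V) : Finset (V × V) := univ.filter fun p => L.Adj p.1 p.2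

/-- mixed common neighbours: the `y` with `u y ∈ A` and `v y ∈ B` -/
def cn (A B : SimpleGraph V) (u v : V) : Finset V := univ.filter fun y => A.Adj u y ∧ B.Adj v y

/-- mixed codegree -/
def cod (A B : SimpleGraph V) (u v : V) : ℕ := (cn A B u v).card

/-- `h_q(z;u)`: the number of `v` with `zv ∈ L`, `uv ∈ G` and at least `q` common `L`-neighbours of
`u` and `v` -/
def hh (G L : SimpleGraph V) (q : ℕ) (z u : V) : ℕ :=
  (univ.filter fun v => L.Adj z v ∧ G.Adj u v ∧ q ≤ cod L L u v).card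

/-- `P_u(z) = ∑_{v : zv ∈ L, uv ∈ G} cod_L(u,v)` -/
def PP (G L : SimpleGraph V) (z u : V) : ℕ := ∑ v ∈ cn L G z u, cod L L u v

/-- `x` and `z` are different and have two disjoint edges in their common neighbourhood -/
def T2 (G : SimpleGraph V) (x z : V) : Prop :=
  x ≠ z ∧ ∃ p q r s : V, G.Adj x p ∧ G.Adj x q ∧ G.Adj p q ∧ G.Adj z p ∧ G.Adj z q ∧
    G.Adj x r ∧ G.Adj x s ∧ G.Adj r s ∧ G.Adj z r ∧ G.Adj z s ∧ p ≠ r ∧ p ≠ s ∧ q ≠ r ∧ q ≠ s

omit [Fintype V] in
theorem T2.symm {G : SimpleGraph V} {x z : V} (h : T2 G x z) : T2 G z x := by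
  obtain ⟨hne, p, q, r, s, h1, h2, h3, h4, h5, h6, h7, h8, h9, h10, h11⟩ := h
  exact ⟨hne.symm, p, q, r, s, h4, h5, h3, h1, h2, h9, h10, h8, h6, h7, h11⟩

omit [Fintype V] in
theorem T2_comm {G : SimpleGraph V} {x z : V} : T2 G x z ↔ T2 G z x := ⟨T2.symm, T2.symm⟩

/-- the triples `(z,u,v)` with `zu ∈ L`, `uv ∈ F` and `T2 z v` -/
def trip (G F L : SimpleGraph V) : Finset (V × V × V) :=
  univ.filter fun t => L.Adj t.1 t.2.1 ∧ F.Adj t.2.1 t.2.2 ∧ T2 G t.1 t.2.2

/-- every independent set has at most `a` vertices -/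
def IndLe (G : SimpleGraph V) (a : ℕ) : Prop := ∀ s : Finset V, G.IsIndepSet (s : Set V) → s.card ≤ a

/-- The hypotheses used in the main argument: independence number at most `a`, no `K₄`, no Moser
spindle. -/
structure Good (G : SimpleGraph V) (a : ℕ) : Prop where
  ind : IndLe G a
  k4 : ∀ x y z w : V, G.Adj x y → G.Adj x z → G.Adj x w → G.Adj y z → G.Adj y w → G.Adj z w → False
  spin : ∀ x p q r s z z' : V, G.Adj x p → G.Adj x q → G.Adj p q → G.Adj x r → G.Adj x s →
    G.Adj r s → p ≠ r → p ≠ s → q ≠ r → q ≠ s → z ≠ x → G.Adj z p → G.Adj z q →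
    z' ≠ x → G.Adj z' r → G.Adj z' s → G.Adj z z' → False

/-- property `P(7,3)` (as in the problem) -/
def P73 (G : SimpleGraph V) : Prop :=
  ∀ s : Finset V, s.card = 7 → ∃ t : Finset V, t ⊆ s ∧ G.IsNIndepSet 3 t

/-- the hub graph: the edges `uv` of `G` with `Q ≤ cod_L(u,v) < K^2 Q` -/
def hub (G L : SimpleGraph V) (K Q : ℕ) : SimpleGraph V where
  Adj u v := G.Adj u v ∧ Q ≤ cod L L u v ∧ cod L L u v < K ^ 2 * Q
  symm := ⟨by
    intro u v h
    have e : cod L L v u = cod L L u v := by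
      unfold cod cn
      congr 1
      ext y
      simp [and_comm]
    refine ⟨h.1.symm, ?_, ?_⟩
    · rw [e]; exact h.2.1
    · rw [e]; exact h.2.2⟩
  loopless := ⟨fun u h => G.loopless.irrefl u h.1⟩

end

end EH73
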