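import Mathlib

/-!
# Numerics: from the inequalities to `m^8 ≤ K^40 n^8 a^11`

All positive quantities are replaced by their logarithms, so that every step is linear.
-/

namespace EH73

private noncomputable def nl (n : ℕ) : ℝ := Real.log (n : ℝ)

private theorem nl_mul {x y : ℕ} (hx : 0 < x) (hy : 0 < y) : nl (x * y) = nl x + nl y := by
  unfold nl
  push_cast
  exact Real.log_mul (by positivity) (by positivity)

private theorem nl_le {x y : ℕ} (hx : 0 < x) (h : x ≤ y) : nl x ≤ nl y := by
  unfold nl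
  exact Real.log_le_log (by exact_mod_cast hx) (by exact_mod_cast h)

private theorem nl_nonneg (x : ℕ) : 0 ≤ nl x := Real.log_natCast_nonneg x

private theorem nl_pow (x i : ℕ) : nl (x ^ i) = i * nl x := by
  unfold nl
  push_cast
  exact Real.log_pow _ _

/-- the choice of `D` -/
private theorem nm_D {n m a K T H : ℕ} (hn : 1 ≤ n) (hm : 1 ≤ m) (ha : 1 ≤ a) (hK : 100 ≤ K)
    (hTK : T ≤ K) (hH : 1 ≤ H) (R : ℕ → ℕ → ℕ → Prop)
    (h : ∀ D, 1 ≤ D → ∃ b c, m ≤ T * (b + c) ∧ H * c ≤ 6 * a * D * n ∧ R D b c)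
    (hx : 5 * nl K + 11 / 8 * nl a < nl m - nl n) :
    ∃ D b c, 1 ≤ D ∧ 1 ≤ b ∧ R D b c ∧ 2 * (K * H) ≤ D ∧
      nl m + (nl m - nl n) + nl H - nl 64 - 2 * nl K - nl a ≤ nl (b * D) := by
  have hk0 : 0 ≤ nl K := nl_nonneg K
  have ha0 : 0 ≤ nl a := nl_nonneg a
  have e64 : nl 64 = 6 * nl 2 := by
    rw [show (64 : ℕ) = 2 ^ 6 by norm_num, nl_pow]; norm_num
  have e32 : nl 32 = 5 * nl 2 := by
    rw [show (32 : ℕ) = 2 ^ 5 by norm_num, nl_pow]; norm_num
  have h64 : nl 64 ≤ nl K := nl_le (by norm_num) (by omega)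
  have h2p : 0 ≤ nl 2 := nl_nonneg 2
  set W : ℕ := 12 * a * K * n with hW
  have hWp : 0 < W := by positivity
  set D : ℕ := m * H / W with hD
  have hDle : D * W ≤ m * H := Nat.div_mul_le_self _ _
  have hDlt : m * H < W * (D + 1) := by
    rw [hD]
    exact Nat.lt_mul_div_succ _ hWp
  -- `W * (64 K H) ≤ m H`
  have hbig : 2 * (K * H) ≤ D := by
    rw [hD, Nat.le_div_iff_mul_le hWp]
    by_contra hcon
    push Not at hcon
    have h1 : m * H ≤ 32 * (K * (K * (a * (n * H)))) := by
      calc m * H ≤ 2 * (K * H) * W := hcon.le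
        _ = 24 * (K * (K * (a * (n * H)))) := by rw [hW]; ring
        _ ≤ _ := Nat.mul_le_mul_right _ (by norm_num)
    have h2 := nl_le (by positivity) h1
    simp (disch := positivity) only [nl_mul] at h2
    linarith
  have hD1 : 1 ≤ D := le_trans (by nlinarith [Nat.mul_le_mul hK hH]) hbig
  obtain ⟨b, c, hb1, hb2, hR⟩ := h D hD1
  have hc : 2 * K * c ≤ m := by
    have : H * (2 * K * c) ≤ H * m := by
      calc H * (2 * K * c) = 2 * K * (H * c) := by ring
        _ ≤ 2 * K * (6 * a * D * n) := Nat.mul_le_mul_left _ hb2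
        _ = D * W := by rw [hW]; ring
        _ ≤ m * H := hDle
        _ = H * m := by ring
    exact Nat.le_of_mul_le_mul_left this hH
  have hmb : m ≤ 2 * K * b := by
    have h1 : m ≤ K * (b + c) := hb1.trans (Nat.mul_le_mul_right _ hTK)
    nlinarith
  have hb : 1 ≤ b := by
    by_contra hcon
    have : b = 0 := by omega
    rw [this] at hmb
    omega
  refine ⟨D, b, c, hD1, hb, hR, hbig, ?_⟩
  have h3 : m * H ≤ 32 * (a * (K * (n * D))) := by
    calc m * H ≤ W * (D + 1) := hDlt.le
      _ ≤ W * (2 * D) := Nat.mul_le_mul_left _ (by omega)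
      _ = 24 * (a * (K * (n * D))) := by rw [hW]; ring
      _ ≤ _ := Nat.mul_le_mul_right _ (by norm_num)
  have h4 := nl_le (by positivity) h3
  have h5 := nl_le (by positivity) hmb
  simp (disch := positivity) only [nl_mul] at h4 h5 ⊢
  linarith

theorem numerics (n m a K J T H0 H Q f ML MF P X : ℕ) (hn : 1 ≤ n) (hm : 1 ≤ m) (ha : 1 ≤ a)
    (hK : 100 ≤ K) (hTK : T ≤ K) (hJK : J + 1 ≤ K) (hQ : 1 ≤ Q)
    (hP : P = (J + 1) * K ^ 2 * (Q * H))
    (h1 : m ≤ n * (a * (K * H0 + 1)))
    (h2 : ∀ D, 1 ≤ D → ∃ b c, m ≤ T * (b + c) ∧ H0 * c ≤ 6 * a * D * n ∧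
      b * D ≤ b * (K * H0) + ML + 4 * a * a * n)
    (h3 : ML ^ 2 ≤ n * a ^ 2 * (m * P + ML))
    (h5 : f * Q ≤ m * (K * H))
    (h7 : ∀ D, 1 ≤ D → ∃ b c, m ≤ T * (b + c) ∧ H * c ≤ 6 * a * D * n ∧
      b * D ≤ b * (K * H) + MF + 2 * (K ^ 2 * Q + K * H) * a * n)
    (h8 : 1 ≤ H → ∃ e, m ≤ T * e ∧ (Q - 1) * e ≤ ML + 4 * (K * H0) * a * n)
    (h9 : MF ^ 2 ≤ f * X) (h9' : X ^ 2 ≤ n * a ^ 3 * (X + P * MF))
    (h10 : H ≤ K * H0) : m ^ 8 ≤ K ^ 40 * n ^ 8 * a ^ 11 := by
  by_contra hcon
  push Not at hcon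
  have hx : 5 * nl K + 11 / 8 * nl a < nl m - nl n := by
    have hc : Real.log ((K ^ 40 * n ^ 8 * a ^ 11 : ℕ) : ℝ) < Real.log ((m ^ 8 : ℕ) : ℝ) :=
      Real.log_lt_log (by positivity) (by exact_mod_cast hcon)
    have hc' : nl (K ^ 40 * n ^ 8 * a ^ 11) < nl (m ^ 8) := hc
    rw [nl_mul (by positivity) (by positivity), nl_mul (by positivity) (by positivity), nl_pow,
      nl_pow, nl_pow, nl_pow] at hc'
    push_cast at hc'
    linarith
  have hk0 : 0 ≤ nl K := nl_nonneg K
  have ha0 : 0 ≤ nl a := nl_nonneg a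
  have e64 : nl 64 = 6 * nl 2 := by
    rw [show (64 : ℕ) = 2 ^ 6 by norm_num, nl_pow]; norm_num
  have e16 : nl 16 = 4 * nl 2 := by
    rw [show (16 : ℕ) = 2 ^ 4 by norm_num, nl_pow]; norm_num
  have e4 : nl 4 = 2 * nl 2 := by
    rw [show (4 : ℕ) = 2 ^ 2 by norm_num, nl_pow]; norm_num
  have h64 : nl 64 ≤ nl K := nl_le (by norm_num) (by omega)
  have h2p : 0 ≤ nl 2 := nl_nonneg 2
  -- (1)
  have hH0 : 1 ≤ H0 := by
    by_contra h
    have : H0 = 0 := by omega
    rw [this] at h1
    have h' : m ≤ n * a := by simpa using h1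
    have := nl_le (by positivity) h'
    rw [nl_mul (by positivity) (by positivity)] at this
    linarith
  have g1 : nl m - nl n - nl 2 - nl a - nl K ≤ nl H0 := by
    have h' : m ≤ 2 * (n * (a * (K * H0))) := by
      have : 1 ≤ K * H0 := by nlinarith
      calc m ≤ n * (a * (K * H0 + 1)) := h1
        _ ≤ n * (a * (2 * (K * H0))) := by gcongr; omega
        _ = _ := by ring
    have := nl_le (by positivity) h'
    simp (disch := positivity) only [nl_mul] at this
    linarith
  -- (2)
  obtain ⟨D, b, c, hD1, hb1, hR, hbig, hlog⟩ := nm_D hn hm ha hK hTK hH0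
    (fun D b _ => b * D ≤ b * (K * H0) + ML + 4 * a * a * n) h2 hx
  have hR2 : b * D ≤ 2 * (ML + 4 * a * a * n) := by
    have : b * (2 * (K * H0)) ≤ b * D := Nat.mul_le_mul_left _ hbig
    nlinarith
  have hML : 4 * a * a * n < ML := by
    by_contra h
    push Not at h
    have h' : b * D ≤ 16 * (a * (a * n)) := by nlinarith
    have h'' := nl_le (by positivity) h'
    have e : nl (16 * (a * (a * n))) = nl 16 + (nl a + (nl a + nl n)) := by
      rw [nl_mul (by norm_num) (by positivity), nl_mul ha (by positivity), nl_mul ha hn]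
    rw [e] at h''
    linarith
  have hML1 : 0 < ML := by omega
  have gML : nl m + (nl m - nl n) + nl H0 - nl 64 - 2 * nl K - nl a - 2 * nl 2 ≤ nl ML := by
    have h' : b * D ≤ 4 * ML := by omega
    have h'' := nl_le (by positivity) h'
    rw [nl_mul (by norm_num) hML1] at h''
    linarith
  -- (3)
  have hmP : ML < m * P := by
    by_contra h
    push Not at h
    have h' : ML * ML ≤ (2 * a * a * n) * ML := by
      calc ML * ML = ML ^ 2 := by ring
        _ ≤ n * a ^ 2 * (m * P + ML) := h3
        _ ≤ n * a ^ 2 * (ML + ML) := Nat.mul_le_mul_left _ (by omega)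
        _ = _ := by ring
    have h'' := Nat.le_of_mul_le_mul_right h' hML1
    nlinarith
  have hP1 : 0 < P := by
    by_contra h
    have : P = 0 := by omega
    rw [this] at hmP
    omega
  have gP : 2 * nl ML ≤ nl 2 + nl n + 2 * nl a + nl m + nl P := by
    have h' : ML * ML ≤ 2 * (n * (a * (a * (m * P)))) := by
      calc ML * ML = ML ^ 2 := by ring
        _ ≤ n * a ^ 2 * (m * P + ML) := h3
        _ ≤ n * a ^ 2 * (m * P + m * P) := Nat.mul_le_mul_left _ (by omega)
        _ = _ := by ring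
    have h'' := nl_le (by positivity) h'
    simp (disch := positivity) only [nl_mul] at h''
    linarith
  -- (4)
  have hH1 : 1 ≤ H := by
    by_contra h
    have : H = 0 := by omega
    rw [this] at hP
    simp at hP
    omega
  have gPle : nl P ≤ 3 * nl K + nl Q + nl H := by
    have h' : P ≤ K * (K * (K * (Q * H))) := by
      rw [hP]
      calc (J + 1) * K ^ 2 * (Q * H) ≤ K * K ^ 2 * (Q * H) := by gcongr
        _ = _ := by ring
    have h'' := nl_le hP1 h'
    simp (disch := positivity) only [nl_mul] at h''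
    linarith
  have hq0 : 0 ≤ nl Q := nl_nonneg Q
  have hh0 : 0 ≤ nl H := nl_nonneg H
  have g10 : nl H ≤ nl K + nl H0 := by
    have h'' := nl_le (by positivity) h10
    rwa [nl_mul (by positivity) hH0] at h''
  -- (8)
  have g8 : nl Q = 0 ∨ nl Q + (nl m - nl n) ≤ 5 * nl 2 + 5 * nl K + 2 * nl a + nl H ∨
      nl Q + (nl m - nl n) ≤ 4 * nl 2 + 2 * nl K + nl H0 + nl a := by
    by_cases hQ1 : Q = 1
    · left
      rw [hQ1]
      unfold nl
      simp
    · right
      obtain ⟨e, he1, he2⟩ := h8 hH1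
      have he3 : m ≤ K * e := he1.trans (Nat.mul_le_mul_right _ hTK)
      have he : 0 < e := by
        by_contra h
        have : e = 0 := by omega
        rw [this] at he3
        omega
      have he4 := nl_le (by positivity) he3
      rw [nl_mul (by positivity) he] at he4
      obtain ⟨Q', rfl⟩ : ∃ Q', Q = Q' + 2 := ⟨Q - 2, by omega⟩
      have he5 : (Q' + 2) * e ≤ 2 * (ML + 4 * (K * H0) * a * n) := by
        have : (Q' + 2 - 1) = Q' + 1 := by omega
        rw [this] at he2
        nlinarith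
      by_cases hA : 4 * (K * H0) * a * n ≤ ML
      · left
        have h' : (Q' + 2) * e ≤ 4 * ML := by omega
        have h'' := nl_le (by positivity) h'
        rw [nl_mul (by positivity) he, nl_mul (by norm_num) hML1] at h''
        linarith
      · right
        push Not at hA
        have h' : (Q' + 2) * e ≤ 16 * (K * (H0 * (a * n))) := by nlinarith
        have h'' := nl_le (by positivity) h'
        rw [nl_mul (by positivity) he] at h''
        rw [nl_mul (by norm_num) (by positivity), nl_mul (by positivity) (by positivity),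
          nl_mul hH0 (by positivity), nl_mul ha hn] at h''
        linarith
  -- (7)
  obtain ⟨D', b', c', hD1', hb1', hR', hbig', hlog'⟩ := nm_D hn hm ha hK hTK hH1
    (fun D b _ => b * D ≤ b * (K * H) + MF + 2 * (K ^ 2 * Q + K * H) * a * n) h7 hx
  have hR2' : b' * D' ≤ 2 * (MF + 2 * (K ^ 2 * Q + K * H) * a * n) := by
    have : b' * (2 * (K * H)) ≤ b' * D' := Nat.mul_le_mul_left _ hbig'
    nlinarith
  have hMF : 2 * (K ^ 2 * Q + K * H) * a * n < MF := by
    by_contra h
    push Not at h
    have h' : b' * D' ≤ 8 * ((K ^ 2 * Q + K * H) * (a * n)) := by nlinarith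
    rcases le_total (K ^ 2 * Q) (K * H) with hc | hc
    · have h'' : b' * D' ≤ 16 * (K * (H * (a * n))) := by
        calc b' * D' ≤ 8 * ((K ^ 2 * Q + K * H) * (a * n)) := h'
          _ ≤ 8 * ((K * H + K * H) * (a * n)) := by gcongr
          _ = _ := by ring
      have h3' := nl_le (by positivity) h''
      have e : nl (16 * (K * (H * (a * n)))) = nl 16 + (nl K + (nl H + (nl a + nl n))) := by
        rw [nl_mul (by norm_num) (by positivity), nl_mul (by positivity) (by positivity),
          nl_mul hH1 (by positivity), nl_mul ha hn]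
      rw [e] at h3'
      linarith
    · have h'' : b' * D' ≤ 16 * (K * (K * (Q * (a * n)))) := by
        calc b' * D' ≤ 8 * ((K ^ 2 * Q + K * H) * (a * n)) := h'
          _ ≤ 8 * ((K ^ 2 * Q + K ^ 2 * Q) * (a * n)) := by gcongr
          _ = _ := by ring
      have h3' := nl_le (by positivity) h''
      have e : nl (16 * (K * (K * (Q * (a * n))))) =
          nl 16 + (nl K + (nl K + (nl Q + (nl a + nl n)))) := by
        rw [nl_mul (by norm_num) (by positivity), nl_mul (by positivity) (by positivity),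
          nl_mul (by positivity) (by positivity), nl_mul hQ (by positivity), nl_mul ha hn]
      rw [e] at h3'
      rcases g8 with g8 | g8 | g8 <;> linarith
  have hMF1 : 0 < MF := by omega
  have gMF : nl m + (nl m - nl n) + nl H - nl 64 - 2 * nl K - nl a - 2 * nl 2 ≤ nl MF := by
    have h' : b' * D' ≤ 4 * MF := by omega
    have h'' := nl_le (by positivity) h'
    rw [nl_mul (by norm_num) hMF1] at h''
    linarith
  -- (9)
  have hfX : 0 < f * X := lt_of_lt_of_le (by positivity) h9
  have hf : 0 < f := Nat.pos_of_mul_pos_right hfX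
  have hX : 0 < X := Nat.pos_of_mul_pos_left hfX
  have gf : nl f + nl Q ≤ nl m + (nl K + nl H) := by
    have h'' := nl_le (by positivity) h5
    rwa [nl_mul hf hQ, nl_mul hm (by positivity), nl_mul (by positivity) hH1] at h''
  have g9 : 2 * nl MF ≤ nl f + nl X := by
    have h'' := nl_le (by positivity) h9
    rw [nl_mul hf hX, nl_pow] at h''
    exact_mod_cast h''
  rcases le_total (P * MF) X with hc | hc
  · have h' : X * X ≤ (2 * (n * (a * (a * a)))) * X := by
      calc X * X = X ^ 2 := by ring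
        _ ≤ n * a ^ 3 * (X + P * MF) := h9'
        _ ≤ n * a ^ 3 * (X + X) := Nat.mul_le_mul_left _ (by omega)
        _ = _ := by ring
    have h'' := Nat.le_of_mul_le_mul_right h' hX
    have h3' := nl_le hX h''
    rw [nl_mul (by norm_num) (by positivity), nl_mul hn (by positivity),
      nl_mul ha (by positivity), nl_mul ha ha] at h3'
    linarith
  · have h' : X * X ≤ 2 * (n * (a * (a * (a * (P * MF))))) := by
      calc X * X = X ^ 2 := by ring
        _ ≤ n * a ^ 3 * (X + P * MF) := h9'
        _ ≤ n * a ^ 3 * (P * MF + P * MF) := Nat.mul_le_mul_left _ (by omega)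
        _ = _ := by ring
    have h3' := nl_le (by positivity) h'
    rw [nl_mul hX hX, nl_mul (by norm_num) (by positivity), nl_mul hn (by positivity),
      nl_mul ha (by positivity), nl_mul ha (by positivity), nl_mul ha (by positivity),
      nl_mul hP1 hMF1] at h3'
    linarith

end EH73
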