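import Mathlib

/-!
# MP_185d81_co: a covering form of the Caro-Wei bound

For a finite family `E` with a reflexive symmetric conflict relation `R` and an incidence relation `I`
between `E` and a finite set, there is a conflict-free subfamily `M` covering at least
`∑ 1 / (s_c + deg e)` elements, the sum being over the incident pairs `(e, c)`.
-/

namespace EH73

open Finset Classical

theorem cover_caro_wei {ι γ : Type} (R : ι → ι → Prop) (hrefl : ∀ e, R e e)
    (hsymm : ∀ e f, R e f → R f e) (I : ι → γ → Prop) (E : Finset ι) (U : Finset γ) :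
    ∃ M : Finset ι, M ⊆ E ∧ (∀ e ∈ M, ∀ f ∈ M, e ≠ f → ¬ R e f) ∧
      ∑ p ∈ (E ×ˢ U).filter (fun p => I p.1 p.2),
        (1 : ℝ) / (((E.filter fun f => I f p.2).card : ℝ) +
          ((E.filter fun f => R p.1 f).card : ℝ)) ≤
        ((U.filter fun c => ∃ e ∈ M, I e c).card : ℝ) := by
  induction' hn : E.card using Nat.strong_induction_on with n ih generalizing E U
  rcases Finset.eq_empty_or_nonempty E with rfl | hne
  · exact ⟨∅, by simp, by simp, by simp⟩
  -- weights, losses, gains
  set P : Finset (ι × γ) := (E ×ˢ U).filter (fun p => I p.1 p.2) with hP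
  set w : ι × γ → ℝ := fun p => (1 : ℝ) / (((E.filter fun f => I f p.2).card : ℝ) +
          ((E.filter fun f => R p.1 f).card : ℝ)) with hw
  have hPmem : ∀ p ∈ P, p.1 ∈ E ∧ p.2 ∈ U ∧ I p.1 p.2 := by
    intro p hp
    rw [hP, Finset.mem_filter, Finset.mem_product] at hp
    exact ⟨hp.1.1, hp.1.2, hp.2⟩
  have hdenpos : ∀ p ∈ P, 0 < (((E.filter fun f => I f p.2).card : ℝ) +
          ((E.filter fun f => R p.1 f).card : ℝ)) := by
    intro p hp
    have h1 : 0 < (E.filter fun f => R p.1 f).card :=
      Finset.card_pos.mpr ⟨p.1, Finset.mem_filter.mpr ⟨(hPmem p hp).1, hrefl _⟩⟩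
    have h2 : (0 : ℝ) < ((E.filter fun f => R p.1 f).card : ℝ) := by exact_mod_cast h1
    positivity
  have hsum : ∑ f ∈ E, ∑ p ∈ P.filter (fun p => R f p.1 ∨ I f p.2), w p ≤
      ∑ f ∈ E, ((U.filter fun c => I f c).card : ℝ) := by
    have h1 : ∑ f ∈ E, ∑ p ∈ P.filter (fun p => R f p.1 ∨ I f p.2), w p =
        ∑ p ∈ P, ((E.filter fun f => R f p.1 ∨ I f p.2).card : ℝ) * w p := by
      simp_rw [Finset.sum_filter]
      rw [Finset.sum_comm]
      apply Finset.sum_congr rfl
      intro p _
      rw [← Finset.sum_filter, Finset.sum_const, nsmul_eq_mul]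
    have h2 : ∀ p ∈ P, ((E.filter fun f => R f p.1 ∨ I f p.2).card : ℝ) * w p ≤ 1 := by
      intro p hp
      have h3 : (E.filter fun f => R f p.1 ∨ I f p.2).card ≤
          (E.filter fun f => I f p.2).card + (E.filter fun f => R p.1 f).card := by
        calc _ ≤ ((E.filter fun f => I f p.2) ∪ (E.filter fun f => R p.1 f)).card := by
              apply Finset.card_le_card
              intro f hf
              rw [Finset.mem_filter] at hf
              rw [Finset.mem_union, Finset.mem_filter, Finset.mem_filter]
              rcases hf.2 with h | h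
              · exact Or.inr ⟨hf.1, hsymm _ _ h⟩
              · exact Or.inl ⟨hf.1, h⟩
          _ ≤ _ := Finset.card_union_le _ _
      have h4 : ((E.filter fun f => R f p.1 ∨ I f p.2).card : ℝ) ≤
          ((E.filter fun f => I f p.2).card : ℝ) + ((E.filter fun f => R p.1 f).card : ℝ) := by
        exact_mod_cast h3
      have h5 := hdenpos p hp
      rw [hw]
      simp only
      rw [mul_one_div, div_le_one h5]
      exact h4
    have h6 : ∑ f ∈ E, ((U.filter fun c => I f c).card : ℝ) = ∑ p ∈ P, (1 : ℝ) := by
      rw [hP, Finset.sum_filter, Finset.sum_product]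
      apply Finset.sum_congr rfl
      intro f _
      rw [← Finset.sum_filter]
      simp
    rw [h1, h6]
    exact Finset.sum_le_sum h2
  obtain ⟨f, hf, hloss⟩ := Finset.exists_le_of_sum_le hne hsum
  set E' : Finset ι := E.filter fun e => ¬ R f e with hE'
  set U' : Finset γ := U.filter fun c => ¬ I f c with hU'
  have hlt : E'.card < n := by
    rw [← hn]
    apply Finset.card_lt_card
    rw [Finset.ssubset_iff_of_subset (Finset.filter_subset _ _)]
    refine ⟨f, hf, ?_⟩
    rw [Finset.mem_filter]
    intro h
    exact h.2 (hrefl f)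
  obtain ⟨M', hM'E, hM'i, hM's⟩ := ih _ hlt E' U' rfl
  refine ⟨insert f M', ?_, ?_, ?_⟩
  · intro e he
    rw [Finset.mem_insert] at he
    rcases he with rfl | he
    · exact hf
    · exact (Finset.mem_filter.mp (hM'E he)).1
  · intro e he g hg heg
    rw [Finset.mem_insert] at he hg
    rcases he with rfl | he
    · rcases hg with rfl | hg
      · exact absurd rfl heg
      · exact (Finset.mem_filter.mp (hM'E hg)).2
    · rcases hg with rfl | hg
      · intro h
        exact (Finset.mem_filter.mp (hM'E he)).2 (hsymm _ _ h)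
      · exact hM'i e he g hg heg
  · -- the estimate
    have hsplit : ∑ p ∈ P, w p = ∑ p ∈ P.filter (fun p => R f p.1 ∨ I f p.2), w p +
        ∑ p ∈ P.filter (fun p => ¬ (R f p.1 ∨ I f p.2)), w p := by
      rw [Finset.sum_filter_add_sum_filter_not]
    have hrest : ∑ p ∈ P.filter (fun p => ¬ (R f p.1 ∨ I f p.2)), w p ≤
        ∑ p ∈ (E' ×ˢ U').filter (fun p => I p.1 p.2),
        (1 : ℝ) / (((E'.filter fun f => I f p.2).card : ℝ) +
          ((E'.filter fun f => R p.1 f).card : ℝ)) := by
      have hset : P.filter (fun p => ¬ (R f p.1 ∨ I f p.2)) =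
          (E' ×ˢ U').filter (fun p => I p.1 p.2) := by
        ext p
        simp only [hP, hE', hU', Finset.mem_filter, Finset.mem_product]
        tauto
      rw [hset]
      apply Finset.sum_le_sum
      intro p hp
      rw [Finset.mem_filter, Finset.mem_product] at hp
      have h1 : (E'.filter fun f => I f p.2).card ≤ (E.filter fun f => I f p.2).card :=
        Finset.card_le_card (Finset.filter_subset_filter _ (Finset.filter_subset _ _))
      have h2 : (E'.filter fun f => R p.1 f).card ≤ (E.filter fun f => R p.1 f).card :=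
        Finset.card_le_card (Finset.filter_subset_filter _ (Finset.filter_subset _ _))
      have h3 : 0 < (E'.filter fun f => R p.1 f).card :=
        Finset.card_pos.mpr ⟨p.1, Finset.mem_filter.mpr ⟨hp.1.1, hrefl _⟩⟩
      have h1' : ((E'.filter fun f => I f p.2).card : ℝ) ≤
        ((E.filter fun f => I f p.2).card : ℝ) := by exact_mod_cast h1
      have h2' : ((E'.filter fun f => R p.1 f).card : ℝ) ≤
        ((E.filter fun f => R p.1 f).card : ℝ) := by exact_mod_cast h2
      have h3' : (0 : ℝ) < ((E'.filter fun f => R p.1 f).card : ℝ) := by exact_mod_cast h3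
      apply one_div_le_one_div_of_le
      · positivity
      · linarith
    have hcov : (U.filter fun c => I f c).card + (U'.filter fun c => ∃ e ∈ M', I e c).card ≤
        (U.filter fun c => ∃ e ∈ insert f M', I e c).card := by
      rw [← Finset.card_union_of_disjoint]
      · apply Finset.card_le_card
        intro c hc
        rw [Finset.mem_union, Finset.mem_filter, Finset.mem_filter] at hc
        rw [Finset.mem_filter]
        rcases hc with hc | hc
        · exact ⟨hc.1, f, Finset.mem_insert_self _ _, hc.2⟩
        · obtain ⟨e, he, hce⟩ := hc.2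
          exact ⟨(Finset.mem_filter.mp hc.1).1, e, Finset.mem_insert_of_mem he, hce⟩
      · rw [Finset.disjoint_left]
        intro c hc hc'
        rw [Finset.mem_filter] at hc hc'
        exact (Finset.mem_filter.mp hc'.1).2 hc.2
    have hcov' : ((U.filter fun c => I f c).card : ℝ) +
        ((U'.filter fun c => ∃ e ∈ M', I e c).card : ℝ) ≤
        ((U.filter fun c => ∃ e ∈ insert f M', I e c).card : ℝ) := by exact_mod_cast hcov
    calc ∑ p ∈ P, w p ≤ _ := hsplit.le
      _ ≤ ((U.filter fun c => I f c).card : ℝ) +
        ((U'.filter fun c => ∃ e ∈ M', I e c).card : ℝ) := add_le_add hloss (hrest.trans hM's)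
      _ ≤ _ := hcov'

end EH73
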