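import Pool.Agent.Work.MP_185d81_co.Reduct
import Pool.Agent.Work.MP_185d81_co.SpCov

/-!
# MP_185d81_co: links, sums over ordered triangles, Turan in links
-/

namespace EH73

open Finset Classical

variable {V : Type} [Fintype V]

/-- the ordered edges of the link of `x` -/
noncomputable def lk (G : SimpleGraph V) (x : V) : Finset (V × V) :=
  univ.filter fun p => G.Adj x p.1 ∧ G.Adj x p.2 ∧ G.Adj p.1 p.2

/-- two ordered pairs share an entry -/
def Shr (e f : V × V) : Prop := e.1 = f.1 ∨ e.1 = f.2 ∨ e.2 = f.1 ∨ e.2 = f.2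

/-- sums over the ordered triangles -/
noncomputable def tri3 (G : SimpleGraph V) (f : V → V → V → ℝ) : ℝ :=
  ∑ x : V, ∑ p ∈ lk G x, f x p.1 p.2

theorem mem_lk {G : SimpleGraph V} {x : V} {p : V × V} :
    p ∈ lk G x ↔ G.Adj x p.1 ∧ G.Adj x p.2 ∧ G.Adj p.1 p.2 := by
  simp [lk]

omit [Fintype V] in
theorem Shr.refl (e : V × V) : Shr e e := Or.inl rfl

omit [Fintype V] in
theorem Shr.symm' (e f : V × V) (h : Shr e f) : Shr f e := by
  rcases h with h | h | h | h
  · exact Or.inl h.symm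
  · exact Or.inr (Or.inr (Or.inl h.symm))
  · exact Or.inr (Or.inl h.symm)
  · exact Or.inr (Or.inr (Or.inr h.symm))

theorem tri3_eq (G : SimpleGraph V) (f : V → V → V → ℝ) :
    tri3 G f = ∑ x : V, ∑ y : V, ∑ z : V,
      if G.Adj x y ∧ G.Adj x z ∧ G.Adj y z then f x y z else 0 := by
  unfold tri3 lk
  apply Finset.sum_congr rfl
  intro x _
  rw [Finset.sum_filter, ← Finset.univ_product_univ, Finset.sum_product]

theorem tri3_rot (G : SimpleGraph V) (f : V → V → V → ℝ) :
    tri3 G f = tri3 G (fun x y z => f y z x) := by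
  rw [tri3_eq, tri3_eq]
  have h1 : ∑ x : V, ∑ y : V, ∑ z : V,
      (if G.Adj x y ∧ G.Adj x z ∧ G.Adj y z then f y z x else 0) =
      ∑ y : V, ∑ z : V, ∑ x : V,
      (if G.Adj x y ∧ G.Adj x z ∧ G.Adj y z then f y z x else 0) := by
    rw [Finset.sum_comm]
    apply Finset.sum_congr rfl
    intro y _
    rw [Finset.sum_comm]
  rw [h1]
  apply Finset.sum_congr rfl
  intro y _
  apply Finset.sum_congr rfl
  intro z _
  apply Finset.sum_congr rfl
  intro x _
  apply if_congr
  · constructor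
    · rintro ⟨h1, h2, h3⟩
      exact ⟨h2.symm, h3.symm, h1⟩
    · rintro ⟨h1, h2, h3⟩
      exact ⟨h3, h1.symm, h2.symm⟩
  · rfl
  · rfl

theorem tri3_mono (G : SimpleGraph V) (f g : V → V → V → ℝ)
    (h : ∀ x y z, G.Adj x y → G.Adj x z → G.Adj y z → f x y z ≤ g x y z) :
    tri3 G f ≤ tri3 G g := by
  unfold tri3
  apply Finset.sum_le_sum
  intro x _
  apply Finset.sum_le_sum
  intro p hp
  rw [mem_lk] at hp
  exact h x p.1 p.2 hp.1 hp.2.1 hp.2.2

theorem tri3_add (G : SimpleGraph V) (f g : V → V → V → ℝ) :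
    tri3 G (fun x y z => f x y z + g x y z) = tri3 G f + tri3 G g := by
  unfold tri3
  rw [← Finset.sum_add_distrib]
  apply Finset.sum_congr rfl
  intro x _
  rw [← Finset.sum_add_distrib]

theorem tri3_mul (G : SimpleGraph V) (c : ℝ) (f : V → V → V → ℝ) :
    tri3 G (fun x y z => c * f x y z) = c * tri3 G f := by
  unfold tri3
  rw [Finset.mul_sum]
  apply Finset.sum_congr rfl
  intro x _
  rw [← Finset.mul_sum]

/-- unions of common neighbourhoods over a matching of a link are small -/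
theorem union_le {G : SimpleGraph V} {a : ℕ} (hG : Good G a) (x : V) (M : Finset (V × V))
    (hM : M ⊆ lk G x) (hMi : ∀ e ∈ M, ∀ f ∈ M, e ≠ f → ¬ Shr e f) :
    (univ.filter fun c => c ≠ x ∧ ∃ e ∈ M, G.Adj c e.1 ∧ G.Adj c e.2).card ≤ a := by
  apply hG.ind
  intro c hc c' hc' _ hcc'
  simp only [Finset.coe_filter, Finset.mem_univ, true_and, Set.mem_ofPred_eq] at hc hc'
  obtain ⟨hcx, e, he, hce1, hce2⟩ := hc
  obtain ⟨hc'x, f, hf, hcf1, hcf2⟩ := hc'
  have he' := mem_lk.mp (hM he)
  have hf' := mem_lk.mp (hM hf)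
  by_cases hef : e = f
  · subst hef
    exact hG.k4 c c' e.1 e.2 hcc' hce1 hce2 hcf1 hcf2 he'.2.2
  · have hs := hMi e he f hf hef
    unfold Shr at hs
    simp only [not_or] at hs
    exact hG.spin x e.1 e.2 f.1 f.2 c c' he'.1 he'.2.1 he'.2.2 hf'.1 hf'.2.1 hf'.2.2
      hs.1 hs.2.1 hs.2.2.1 hs.2.2.2 hcx hce1 hce2 hc'x hcf1 hcf2 hcc'

theorem deg_shr (G : SimpleGraph V) (x : V) (e : V × V) :
    ((lk G x).filter fun f => Shr e f).card ≤ 2 * cod G G x e.1 + 2 * cod G G x e.2 := by
  have h1 : ∀ v : V, ((lk G x).filter fun f => f.1 = v).card ≤ cod G G x v := by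
    intro v
    unfold cod
    apply Finset.card_le_card_of_injOn (fun f => f.2)
    · intro f hf
      rw [Finset.mem_coe, Finset.mem_filter, mem_lk] at hf
      rw [Finset.mem_coe, mem_cn]
      obtain ⟨⟨h1, h2, h3⟩, h4⟩ := hf
      exact ⟨h2, h4 ▸ h3⟩
    · intro f hf g hg hfg
      rw [Finset.mem_coe, Finset.mem_filter] at hf hg
      exact Prod.ext (hf.2.trans hg.2.symm) hfg
  have h2 : ∀ v : V, ((lk G x).filter fun f => f.2 = v).card ≤ cod G G x v := by
    intro v
    unfold cod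
    apply Finset.card_le_card_of_injOn (fun f => f.1)
    · intro f hf
      rw [Finset.mem_coe, Finset.mem_filter, mem_lk] at hf
      rw [Finset.mem_coe, mem_cn]
      obtain ⟨⟨h1, h2, h3⟩, h4⟩ := hf
      exact ⟨h1, h4 ▸ h3.symm⟩
    · intro f hf g hg hfg
      rw [Finset.mem_coe, Finset.mem_filter] at hf hg
      exact Prod.ext hfg (hf.2.trans hg.2.symm)
  have h3 : ((lk G x).filter fun f => Shr e f) ⊆
      (((lk G x).filter fun f => f.1 = e.1) ∪ ((lk G x).filter fun f => f.2 = e.1)) ∪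
      (((lk G x).filter fun f => f.1 = e.2) ∪ ((lk G x).filter fun f => f.2 = e.2)) := by
    intro f hf
    rw [Finset.mem_filter] at hf
    obtain ⟨hf, h⟩ := hf
    simp only [Finset.mem_union, Finset.mem_filter]
    rcases h with h | h | h | h
    · exact Or.inl (Or.inl ⟨hf, h.symm⟩)
    · exact Or.inl (Or.inr ⟨hf, h.symm⟩)
    · exact Or.inr (Or.inl ⟨hf, h.symm⟩)
    · exact Or.inr (Or.inr ⟨hf, h.symm⟩)
  have h4 := Finset.card_le_card h3
  have h5 := Finset.card_union_le (((lk G x).filter fun f => f.1 = e.1) ∪ ((lk G x).filter fun f => f.2 = e.1))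
      (((lk G x).filter fun f => f.1 = e.2) ∪ ((lk G x).filter fun f => f.2 = e.2))
  have h6 := Finset.card_union_le ((lk G x).filter fun f => f.1 = e.1) ((lk G x).filter fun f => f.2 = e.1)
  have h7 := Finset.card_union_le ((lk G x).filter fun f => f.1 = e.2) ((lk G x).filter fun f => f.2 = e.2)
  have h8 := h1 e.1
  have h9 := h1 e.2
  have h10 := h2 e.1
  have h11 := h2 e.2
  omega

/-- sums over triangles of a function of the first edge -/
theorem tri3_edge (G : SimpleGraph V) (f : V → V → ℝ) :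
    tri3 G (fun x y _ => f x y) = ∑ p ∈ dar G, (cod G G p.1 p.2 : ℝ) * f p.1 p.2 := by
  rw [tri3_eq]
  unfold dar
  rw [Finset.sum_filter, ← Finset.univ_product_univ, Finset.sum_product]
  apply Finset.sum_congr rfl
  intro x _
  apply Finset.sum_congr rfl
  intro y _
  simp only
  by_cases hxy : G.Adj x y
  · rw [if_pos hxy]
    have : ∀ z : V, (if G.Adj x y ∧ G.Adj x z ∧ G.Adj y z then f x y else 0) =
        if G.Adj x z ∧ G.Adj y z then f x y else 0 := by
      intro z
      apply if_congr _ rfl rfl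
      simp [hxy]
    simp_rw [this]
    rw [← Finset.sum_filter, Finset.sum_const, nsmul_eq_mul]
    rfl
  · rw [if_neg hxy]
    apply Finset.sum_eq_zero
    intro z _
    rw [if_neg]
    intro h
    exact hxy h.1

theorem tri3_inv (G : SimpleGraph V) :
    tri3 G (fun x y _ => 1 / (cod G G x y : ℝ)) ≤ ((dar G).card : ℝ) := by
  rw [tri3_edge]
  calc ∑ p ∈ dar G, (cod G G p.1 p.2 : ℝ) * (1 / (cod G G p.1 p.2 : ℝ)) ≤ ∑ _p ∈ dar G, (1 : ℝ) := by
        apply Finset.sum_le_sum
        intro p _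
        rcases eq_or_ne (cod G G p.1 p.2 : ℝ) 0 with h | h
        · rw [h]; norm_num
        · rw [mul_one_div_cancel h]
    _ = _ := by simp

/-- Turan's bound in the links, summed with the Cauchy-Schwarz inequality -/
theorem turan_links {G : SimpleGraph V} {a : ℕ} (hG : Good G a) :
    ((dar G).card : ℝ) ^ 2 ≤ (Fintype.card V : ℝ) * a * (tri3 G (fun _ _ _ => 1) + (dar G).card) := by
  have h1 : ∀ x : V, ((univ.filter fun y => G.Adj x y).card : ℝ) ^ 2 ≤
      a * (((lk G x).card : ℝ) + ((univ.filter fun y => G.Adj x y).card : ℝ)) := by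
    intro x
    have h := turan_sq hG.ind (univ.filter fun y => G.Adj x y)
    have h2 : (((univ.filter fun y => G.Adj x y) ×ˢ (univ.filter fun y => G.Adj x y)).filter
        fun p => G.Adj p.1 p.2) = lk G x := by
      ext p
      simp only [lk, Finset.mem_filter, Finset.mem_product, Finset.mem_univ, true_and]
      tauto
    rw [h2] at h
    exact_mod_cast h
  have h3 : (tri3 G (fun _ _ _ => 1) : ℝ) = ∑ x : V, ((lk G x).card : ℝ) := by
    unfold tri3
    apply Finset.sum_congr rfl
    intro x _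
    simp
  have h4 : ((dar G).card : ℝ) = ∑ x : V, ((univ.filter fun y => G.Adj x y).card : ℝ) := by
    rw [card_dar]
    push_cast
    rfl
  have h5 : (∑ x : V, ((univ.filter fun y => G.Adj x y).card : ℝ)) ^ 2 ≤
      (Fintype.card V : ℝ) * ∑ x : V, ((univ.filter fun y => G.Adj x y).card : ℝ) ^ 2 := by
    have := sq_sum_le_card_mul_sum_sq (s := (univ : Finset V))
      (f := fun x => ((univ.filter fun y => G.Adj x y).card : ℝ))
    rwa [Finset.card_univ] at this
  have h6 : ∑ x : V, ((univ.filter fun y => G.Adj x y).card : ℝ) ^ 2 ≤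
      a * (tri3 G (fun _ _ _ => 1) + (dar G).card) := by
    rw [h3, h4, ← Finset.sum_add_distrib, Finset.mul_sum]
    exact Finset.sum_le_sum fun x _ => h1 x
  rw [h4]
  refine h5.trans ?_
  rw [mul_assoc]
  apply mul_le_mul_of_nonneg_left _ (Nat.cast_nonneg _)
  rw [← h4]
  exact h6

end EH73
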