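import Pool.Agent.Work.MP_185d81_co.SpOne

/-!
# MP_185d81_co: the codegree of the tips of a diamond against the codegree of its spine
-/

namespace EH73

open Finset Classical

variable {V : Type} [Fintype V]

omit [Fintype V] in
/-- a largest conflict-free subfamily -/
theorem exists_max_matching (L : Finset (V × V)) :
    ∃ M : Finset (V × V), M ⊆ L ∧ (∀ e ∈ M, ∀ f ∈ M, e ≠ f → ¬ Shr e f) ∧
      ∀ g ∈ L, ∃ e ∈ M, Shr e g := by
  obtain ⟨M, hM, hmax⟩ := Finset.exists_max_image
    (L.powerset.filter fun M => ∀ e ∈ M, ∀ f ∈ M, e ≠ f → ¬ Shr e f) Finset.card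
    ⟨∅, by simp⟩
  rw [Finset.mem_filter, Finset.mem_powerset] at hM
  refine ⟨M, hM.1, hM.2, ?_⟩
  intro g hg
  by_contra hcon
  push Not at hcon
  have hgM : g ∉ M := fun h => hcon g h (Shr.refl g)
  have h1 := hmax (insert g M) (by
    rw [Finset.mem_filter, Finset.mem_powerset]
    refine ⟨Finset.insert_subset hg hM.1, ?_⟩
    intro e he f hf hef
    rw [Finset.mem_insert] at he hf
    rcases he with rfl | he
    · rcases hf with rfl | hf
      · exact absurd rfl hef
      · intro h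
        exact hcon f hf (Shr.symm' _ _ h)
    · rcases hf with rfl | hf
      · exact hcon e he
      · exact hM.2 e he f hf hef)
  rw [Finset.card_insert_of_notMem hgM] at h1
  omega

/-- a matching inside a common neighbourhood -/
theorem two_mul_card_le (G : SimpleGraph V) (x c : V) (M : Finset (V × V)) (hM : M ⊆ lk G x)
    (hMi : ∀ e ∈ M, ∀ f ∈ M, e ≠ f → ¬ Shr e f) (hc : ∀ e ∈ M, G.Adj c e.1 ∧ G.Adj c e.2) :
    2 * M.card ≤ cod G G x c := by
  have h1 : (M.image fun e => e.1).card = M.card := by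
    apply Finset.card_image_of_injOn
    intro e he f hf hef
    by_contra hne
    exact hMi e he f hf hne (Or.inl hef)
  have h2 : (M.image fun e => e.2).card = M.card := by
    apply Finset.card_image_of_injOn
    intro e he f hf hef
    by_contra hne
    exact hMi e he f hf hne (Or.inr (Or.inr (Or.inr hef)))
  have h3 : Disjoint (M.image fun e => e.1) (M.image fun e => e.2) := by
    rw [Finset.disjoint_left]
    intro v hv hv'
    rw [Finset.mem_image] at hv hv'
    obtain ⟨e, he, rfl⟩ := hv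
    obtain ⟨f, hf, hfe⟩ := hv'
    by_cases hef : e = f
    · subst hef
      exact (mem_lk.mp (hM he)).2.2.ne hfe.symm
    · exact hMi e he f hf hef (Or.inr (Or.inl hfe.symm))
  have h4 : (M.image fun e => e.1) ∪ (M.image fun e => e.2) ⊆ cn G G x c := by
    intro v hv
    rw [Finset.mem_union, Finset.mem_image, Finset.mem_image] at hv
    rw [mem_cn]
    rcases hv with ⟨e, he, rfl⟩ | ⟨e, he, rfl⟩
    · exact ⟨(mem_lk.mp (hM he)).1, (hc e he).1⟩
    · exact ⟨(mem_lk.mp (hM he)).2.1, (hc e he).2⟩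
  have h5 := Finset.card_le_card h4
  rw [Finset.card_union_of_disjoint h3, h1, h2] at h5
  unfold cod
  omega

/-- the matching of spines is small -/
theorem matching_le {G : SimpleGraph V} {a : ℕ} (hG : Good G a) (C : ℝ) (hC0 : 0 < C)
    (hC : ∀ x c y z : V, c ≠ x → G.Adj x y → G.Adj x z → G.Adj y z → G.Adj c y → G.Adj c z →
      (cod G G x c : ℝ) ≤ C * (cod G G y z : ℝ))
    (x : V) (M : Finset (V × V)) (hM : M ⊆ lk G x) (hM2 : ∀ e ∈ M, 2 ≤ cod G G e.1 e.2)
    (hMi : ∀ e ∈ M, ∀ f ∈ M, e ≠ f → ¬ Shr e f) : (M.card : ℝ) ≤ C * a := by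
  set U : Finset V := univ.filter fun c => c ≠ x ∧ ∃ e ∈ M, G.Adj c e.1 ∧ G.Adj c e.2 with hU
  have hUa : (U.card : ℝ) ≤ a := by exact_mod_cast union_le hG x M hM hMi
  set m : V → ℕ := fun c => (M.filter fun e => G.Adj c e.1 ∧ G.Adj c e.2).card with hm
  -- `∑_{c ∈ U} 1` as a sum over incident pairs
  have h1 : ∑ e ∈ M, ∑ c ∈ U.filter (fun c => G.Adj c e.1 ∧ G.Adj c e.2), (1 : ℝ) / (m c : ℝ) =
      (U.card : ℝ) := by
    simp_rw [Finset.sum_filter]
    rw [Finset.sum_comm]
    have : ∀ c ∈ U, ∑ e ∈ M, (if G.Adj c e.1 ∧ G.Adj c e.2 then (1 : ℝ) / (m c : ℝ) else 0) = 1 := by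
      intro c hc
      rw [← Finset.sum_filter, Finset.sum_const, nsmul_eq_mul]
      have hpos : 0 < m c := by
        rw [hU, Finset.mem_filter] at hc
        obtain ⟨_, _, e, he, hce⟩ := hc
        exact Finset.card_pos.mpr ⟨e, Finset.mem_filter.mpr ⟨he, hce⟩⟩
      have hpos' : (0 : ℝ) < (m c : ℝ) := by exact_mod_cast hpos
      exact mul_one_div_cancel hpos'.ne'
    rw [Finset.sum_congr rfl this]
    simp
  have h2 : ∀ e ∈ M, (1 : ℝ) / C ≤
      ∑ c ∈ U.filter (fun c => G.Adj c e.1 ∧ G.Adj c e.2), (1 : ℝ) / (m c : ℝ) := by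
    intro e he
    have hek := mem_lk.mp (hM he)
    have hset : U.filter (fun c => G.Adj c e.1 ∧ G.Adj c e.2) =
        univ.filter fun c => c ≠ x ∧ G.Adj c e.1 ∧ G.Adj c e.2 := by
      ext c
      simp only [hU, Finset.mem_filter, Finset.mem_univ, true_and]
      constructor
      · rintro ⟨⟨h, _⟩, h'⟩
        exact ⟨h, h'⟩
      · rintro ⟨h, h'⟩
        exact ⟨⟨h, e, he, h'⟩, h'⟩
    have hk2 : (2 : ℝ) ≤ (cod G G e.1 e.2 : ℝ) := by exact_mod_cast hM2 e he
    have hk0 : (0 : ℝ) < (cod G G e.1 e.2 : ℝ) := by linarith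
    have h3 : ∀ c ∈ U.filter (fun c => G.Adj c e.1 ∧ G.Adj c e.2),
        2 / (C * (cod G G e.1 e.2 : ℝ)) ≤ (1 : ℝ) / (m c : ℝ) := by
      intro c hc
      rw [hset, Finset.mem_filter] at hc
      obtain ⟨_, hcx, hce⟩ := hc
      have hpos : 0 < m c := Finset.card_pos.mpr ⟨e, Finset.mem_filter.mpr ⟨he, hce⟩⟩
      have hpos' : (0 : ℝ) < (m c : ℝ) := by exact_mod_cast hpos
      have h4 : 2 * m c ≤ cod G G x c :=
        two_mul_card_le G x c (M.filter fun e => G.Adj c e.1 ∧ G.Adj c e.2)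
          ((Finset.filter_subset _ _).trans hM)
          (fun f hf g hg => hMi f (Finset.mem_filter.mp hf).1 g (Finset.mem_filter.mp hg).1)
          (fun f hf => (Finset.mem_filter.mp hf).2)
      have h4' : 2 * (m c : ℝ) ≤ (cod G G x c : ℝ) := by exact_mod_cast h4
      have h5 := hC x c e.1 e.2 hcx hek.1 hek.2.1 hek.2.2 hce.1 hce.2
      rw [div_le_div_iff₀ (by positivity) hpos']
      linarith
    have h6 := Finset.card_nsmul_le_sum _ _ _ h3
    refine le_trans ?_ h6
    rw [nsmul_eq_mul, hset, card_far G (hM he)]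
    rw [div_le_iff₀ hC0]
    have : ((cod G G e.1 e.2 : ℝ) - 1) * (2 / (C * (cod G G e.1 e.2 : ℝ))) * C =
        2 * ((cod G G e.1 e.2 : ℝ) - 1) / (cod G G e.1 e.2 : ℝ) := by
      field_simp
    rw [this, le_div_iff₀ hk0]
    linarith
  have h7 : (M.card : ℝ) * (1 / C) ≤ a := by
    calc (M.card : ℝ) * (1 / C) = ∑ _e ∈ M, (1 : ℝ) / C := by
          rw [Finset.sum_const, nsmul_eq_mul]
      _ ≤ _ := Finset.sum_le_sum h2
      _ = (U.card : ℝ) := h1
      _ ≤ a := hUa
  rw [mul_one_div, div_le_iff₀ hC0] at h7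
  linarith

/-- the degree bound at one vertex -/
theorem deg_le_third {G : SimpleGraph V} {a : ℕ} (hG : Good G a) (C : ℝ) (hC0 : 0 < C)
    (hC : ∀ x c y z : V, c ≠ x → G.Adj x y → G.Adj x z → G.Adj y z → G.Adj c y → G.Adj c z →
      (cod G G x c : ℝ) ≤ C * (cod G G y z : ℝ)) (x : V) :
    2 * ((univ.filter fun y => G.Adj x y).card : ℝ) ≤ (4 * C + 3) * a +
      (((lk G x).filter fun e => cod G G e.1 e.2 ≤ 1).card : ℝ) := by
  obtain ⟨M, hM, hMi, hmax⟩ := exists_max_matching ((lk G x).filter fun e => 2 ≤ cod G G e.1 e.2)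
  have hMl : M ⊆ lk G x := hM.trans (Finset.filter_subset _ _)
  have hMc : (M.card : ℝ) ≤ C * a := matching_le hG C hC0 hC x M hMl
    (fun e he => (Finset.mem_filter.mp (hM he)).2) hMi
  set J : Finset V := univ.filter fun v => G.Adj x v ∧ ∀ e ∈ M, v ≠ e.1 ∧ v ≠ e.2 with hJ
  have hcard : (univ.filter fun y => G.Adj x y).card ≤ J.card + 2 * M.card := by
    have hsub : (univ.filter fun y => G.Adj x y) ⊆
        J ∪ ((M.image fun e => e.1) ∪ (M.image fun e => e.2)) := by
      intro v hv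
      rw [Finset.mem_filter] at hv
      by_cases h : ∀ e ∈ M, v ≠ e.1 ∧ v ≠ e.2
      · exact Finset.mem_union_left _ (Finset.mem_filter.mpr ⟨Finset.mem_univ _, hv.2, h⟩)
      · push Not at h
        obtain ⟨e, he, h'⟩ := h
        apply Finset.mem_union_right
        by_cases h1 : v = e.1
        · exact Finset.mem_union_left _ (Finset.mem_image.mpr ⟨e, he, h1.symm⟩)
        · exact Finset.mem_union_right _ (Finset.mem_image.mpr ⟨e, he, (h' h1).symm⟩)
    have h1 := Finset.card_le_card hsub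
    have h2 := Finset.card_union_le J ((M.image fun e => e.1) ∪ (M.image fun e => e.2))
    have h3 := Finset.card_union_le (M.image fun e => e.1) (M.image fun e => e.2)
    have h4 : (M.image fun e => e.1).card ≤ M.card := Finset.card_image_le
    have h5 : (M.image fun e => e.2).card ≤ M.card := Finset.card_image_le
    omega
  have hJe : ((J ×ˢ J).filter fun p => G.Adj p.1 p.2).card ≤
      ((lk G x).filter fun e => cod G G e.1 e.2 ≤ 1).card := by
    apply Finset.card_le_card
    intro p hp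
    rw [Finset.mem_filter, Finset.mem_product] at hp
    obtain ⟨⟨hp1, hp2⟩, hadj⟩ := hp
    rw [hJ, Finset.mem_filter] at hp1 hp2
    have hlk : p ∈ lk G x := mem_lk.mpr ⟨hp1.2.1, hp2.2.1, hadj⟩
    rw [Finset.mem_filter]
    refine ⟨hlk, ?_⟩
    by_contra hcon
    push Not at hcon
    obtain ⟨e, he, hs⟩ := hmax p (Finset.mem_filter.mpr ⟨hlk, hcon⟩)
    have h1 := hp1.2.2 e he
    have h2 := hp2.2.2 e he
    rcases hs with h | h | h | h
    · exact h1.1 h.symm
    · exact h2.1 h.symm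
    · exact h1.2 h.symm
    · exact h2.2 h.symm
  have hT := turan_sq hG.ind J
  have hT' : (J.card : ℝ) ^ 2 ≤ a * ((((J ×ˢ J).filter fun p => G.Adj p.1 p.2).card : ℝ) + J.card) := by
    exact_mod_cast hT
  have hJe' : ((((J ×ˢ J).filter fun p => G.Adj p.1 p.2).card : ℝ)) ≤
      (((lk G x).filter fun e => cod G G e.1 e.2 ≤ 1).card : ℝ) := by exact_mod_cast hJe
  have hcard' : ((univ.filter fun y => G.Adj x y).card : ℝ) ≤ J.card + 2 * M.card := by
    exact_mod_cast hcard
  set e1 : ℝ := (((lk G x).filter fun e => cod G G e.1 e.2 ≤ 1).card : ℝ) with he1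
  have he10 : 0 ≤ e1 := Nat.cast_nonneg _
  have ha : (0 : ℝ) ≤ a := Nat.cast_nonneg _
  have hj0 : (0 : ℝ) ≤ (J.card : ℝ) := Nat.cast_nonneg _
  have hJ2 : (J.card : ℝ) ^ 2 ≤ a * (e1 + J.card) := by
    refine hT'.trans ?_
    apply mul_le_mul_of_nonneg_left _ ha
    linarith
  have hJb : 2 * (J.card : ℝ) ≤ 3 * a + e1 := by
    by_contra hcon
    push Not at hcon
    nlinarith [mul_nonneg ha he10, sq_nonneg (a : ℝ), sq_nonneg e1]
  nlinarith

theorem third_bound {G : SimpleGraph V} {a : ℕ} (hG : Good G a) (C : ℝ) (hC0 : 0 < C)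
    (hC : ∀ x c y z : V, c ≠ x → G.Adj x y → G.Adj x z → G.Adj y z → G.Adj c y → G.Adj c z →
      (cod G G x c : ℝ) ≤ C * (cod G G y z : ℝ)) :
    (Fintype.card V : ℝ) ≤ (4 * C + 3) * (a : ℝ) ^ 2 + a := by
  apply fin_step hG _ (by linarith)
  have h1 : ((dar G).card : ℝ) = ∑ x : V, ((univ.filter fun y => G.Adj x y).card : ℝ) := by
    rw [card_dar]
    push_cast
    rfl
  have h2 : ∑ x : V, (((lk G x).filter fun e => cod G G e.1 e.2 ≤ 1).card : ℝ) ≤
      ((dar G).card : ℝ) := by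
    set k : V → V → V → ℝ := fun x y _ => if cod G G x y ≤ 1 then 1 else 0 with hk
    have e1 : ∑ x : V, (((lk G x).filter fun e => cod G G e.1 e.2 ≤ 1).card : ℝ) =
        tri3 G (fun x y z => k y z x) := by
      unfold tri3
      apply Finset.sum_congr rfl
      intro x _
      simp only [hk]
      rw [Finset.card_filter]
      push_cast
      rfl
    rw [e1, ← tri3_rot]
    rw [tri3_edge G (fun x y => if cod G G x y ≤ 1 then 1 else 0)]
    calc ∑ p ∈ dar G, (cod G G p.1 p.2 : ℝ) * (if cod G G p.1 p.2 ≤ 1 then 1 else 0)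
        ≤ ∑ _p ∈ dar G, (1 : ℝ) := by
          apply Finset.sum_le_sum
          intro p _
          by_cases h : cod G G p.1 p.2 ≤ 1
          · rw [if_pos h, mul_one]
            exact_mod_cast h
          · rw [if_neg h, mul_zero]
            norm_num
      _ = _ := by simp
  have h3 : 2 * ((dar G).card : ℝ) ≤ (Fintype.card V : ℝ) * ((4 * C + 3) * a) + (dar G).card := by
    calc 2 * ((dar G).card : ℝ) = ∑ x : V, 2 * ((univ.filter fun y => G.Adj x y).card : ℝ) := by
          rw [h1, Finset.mul_sum]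
      _ ≤ ∑ x : V, ((4 * C + 3) * a +
          (((lk G x).filter fun e => cod G G e.1 e.2 ≤ 1).card : ℝ)) :=
          Finset.sum_le_sum fun x _ => deg_le_third hG C hC0 hC x
      _ = (Fintype.card V : ℝ) * ((4 * C + 3) * a) +
          ∑ x : V, (((lk G x).filter fun e => cod G G e.1 e.2 ≤ 1).card : ℝ) := by
          rw [Finset.sum_add_distrib, Finset.sum_const, Finset.card_univ, nsmul_eq_mul]
      _ ≤ _ := by linarith
  linarith

end EH73
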