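import Pool.Agent.Work.MP_185d81_co.SpFirst
import Pool.Agent.Work.MP_185d81_co.SpThird

/-!
# MP_185d81_co: codegrees inside independent sets at most a constant times `d² / n` on average
-/

namespace EH73

open Finset Classical

variable {V : Type} [Fintype V]

/-- the union of the common neighbourhoods over a matching of a link is independent -/
theorem union_indep {G : SimpleGraph V} {a : ℕ} (hG : Good G a) (x : V) (M : Finset (V × V))
    (hM : M ⊆ lk G x) (hMi : ∀ e ∈ M, ∀ f ∈ M, e ≠ f → ¬ Shr e f) :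
    G.IsIndepSet ((insert x (univ.filter fun c => c ≠ x ∧ ∃ e ∈ M, G.Adj c e.1 ∧ G.Adj c e.2) :
      Finset V) : Set V) := by
  have hx : ∀ c : V, (∃ e ∈ M, G.Adj c e.1 ∧ G.Adj c e.2) → ¬ G.Adj x c := by
    rintro c ⟨e, he, hc1, hc2⟩ hxc
    have h := mem_lk.mp (hM he)
    exact hG.k4 x c e.1 e.2 hxc h.1 h.2.1 hc1 hc2 h.2.2
  intro c hc c' hc' hne hcc'
  simp only [Finset.coe_insert, Set.mem_insert_iff, Finset.coe_filter, Finset.mem_univ, true_and,
    Set.mem_ofPred_eq] at hc hc'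
  rcases hc with rfl | hc
  · rcases hc' with rfl | hc'
    · exact hne rfl
    · exact hx c' hc'.2 hcc'
  · rcases hc' with rfl | hc'
    · exact hx c hc.2 hcc'.symm
    · obtain ⟨hcx, e, he, hce1, hce2⟩ := hc
      obtain ⟨hc'x, f, hf, hcf1, hcf2⟩ := hc'
      have he' := mem_lk.mp (hM he)
      have hf' := mem_lk.mp (hM hf)
      by_cases hef : e = f
      · subst hef
        exact hG.k4 c c' e.1 e.2 hcc' hce1 hce2 hcf1 hcf2 he'.2.2
      · have hs := hMi e he f hf hef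
        unfold Shr at hs
        simp only [not_or] at hs
        exact hG.spin x e.1 e.2 f.1 f.2 c c' he'.1 he'.2.1 he'.2.2 hf'.1 hf'.2.1 hf'.2.2
          hs.1 hs.2.1 hs.2.2.1 hs.2.2.2 hcx hce1 hce2 hc'x hcf1 hcf2 hcc'

/-- the real inequality behind the next theorem -/
theorem fifth_real (N r a C : ℝ) (hN0 : 0 < N) (hr0 : 0 ≤ r) (ha1 : 1 ≤ a)
    (h1 : r ^ 2 * N ≤ 5 / 2 * C * r ^ 2 * a ^ 2 + 2 * r * N * a)
    (hcon : (5 * C + 6) * a ^ 2 < N) : r ≤ 4 * a := by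
  rcases lt_or_eq_of_le hr0 with hr | hr
  · have h2 : 0 ≤ r ^ 2 := sq_nonneg r
    have h4 : 5 * C * a ^ 2 ≤ N := by nlinarith [sq_nonneg a]
    have h3 : 5 / 2 * C * r ^ 2 * a ^ 2 ≤ r ^ 2 * N / 2 := by nlinarith [mul_le_mul_of_nonneg_left h4 h2]
    have h5 : (r * N) * r ≤ (r * N) * (4 * a) := by nlinarith
    exact le_of_mul_le_mul_left h5 (by positivity)
  · rw [← hr]
    linarith

theorem fifth_bound {G : SimpleGraph V} {a : ℕ} (hG : Good G a) (ha1 : 1 ≤ a) (C : ℝ) (hC0 : 0 ≤ C)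
    (hC : ∀ (x : V) (U W : Finset V), x ∈ U → G.IsIndepSet (U : Set V) →
      (∀ c ∈ W, c ∈ U ∧ c ≠ x) → ∑ c ∈ W, (cod G G x c : ℝ) ≤
        C * ((((dar G).card : ℝ) / (Fintype.card V : ℝ)) ^ 2 / (Fintype.card V : ℝ)) * a) :
    (Fintype.card V : ℝ) ≤ (5 * C + 6) * (a : ℝ) ^ 2 := by
  have ha1' : (1 : ℝ) ≤ a := by exact_mod_cast ha1
  rcases Nat.eq_zero_or_pos (Fintype.card V) with h0 | hpos
  · rw [h0]
    push_cast
    positivity
  have hN0 : (0 : ℝ) < (Fintype.card V : ℝ) := by exact_mod_cast hpos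
  by_contra hcon
  push Not at hcon
  obtain ⟨N, hN⟩ : ∃ N : ℝ, N = (Fintype.card V : ℝ) := ⟨_, rfl⟩
  obtain ⟨r, hr⟩ : ∃ r : ℝ, r = ((dar G).card : ℝ) / (Fintype.card V : ℝ) := ⟨_, rfl⟩
  have hr0 : 0 ≤ r := by
    rw [hr]
    exact div_nonneg (Nat.cast_nonneg _) (Nat.cast_nonneg _)
  have hDr : ((dar G).card : ℝ) = r * N := by
    rw [hr, hN, div_mul_cancel₀ _ hN0.ne']
  rw [← hN] at hN0 hcon
  have hlink : ∀ x : V, ∑ p ∈ lk G x, ((cod G G p.1 p.2 : ℝ) - 1) /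
      (2 * (cod G G x p.1 : ℝ) + 2 * (cod G G x p.2 : ℝ) + 1) ≤ C * (r ^ 2 / N) * a / 2 := by
    intro x
    apply link_gen
    intro M hM hMi
    rw [sum_mlt G x M hM]
    have h1 : ∑ c ∈ univ.filter (fun c => c ≠ x ∧ ∃ e ∈ M, G.Adj c e.1 ∧ G.Adj c e.2),
        (mlt G M c : ℝ) ≤
        ∑ c ∈ univ.filter (fun c => c ≠ x ∧ ∃ e ∈ M, G.Adj c e.1 ∧ G.Adj c e.2),
        (cod G G x c : ℝ) / 2 := by
      apply Finset.sum_le_sum
      intro c _
      have h2 := two_mul_card_le G x c (M.filter fun e => G.Adj c e.1 ∧ G.Adj c e.2)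
        ((Finset.filter_subset _ _).trans hM)
        (fun f hf g hg => hMi f (Finset.mem_filter.mp hf).1 g (Finset.mem_filter.mp hg).1)
        (fun f hf => (Finset.mem_filter.mp hf).2)
      have h3 : 2 * (mlt G M c : ℝ) ≤ (cod G G x c : ℝ) := by
        unfold mlt
        exact_mod_cast h2
      linarith
    have h4 := hC x (insert x (univ.filter fun c => c ≠ x ∧ ∃ e ∈ M, G.Adj c e.1 ∧ G.Adj c e.2))
      (univ.filter fun c => c ≠ x ∧ ∃ e ∈ M, G.Adj c e.1 ∧ G.Adj c e.2)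
      (Finset.mem_insert_self _ _) (union_indep hG x M hM hMi)
      (fun c hc => ⟨Finset.mem_insert_of_mem hc, (Finset.mem_filter.mp hc).2.1⟩)
    rw [← hr, ← hN] at h4
    rw [← Finset.sum_div] at h1
    linarith
  have h5 := tri_le G _ hlink
  have h6 := turan_links hG
  rw [← hN] at h5 h6
  rw [hDr] at h5 h6
  have ha0 : (0 : ℝ) ≤ a := by linarith
  have h7 : (r * N) ^ 2 ≤ N * a * (5 / 2 * C * r ^ 2 * a + 2 * (r * N)) := by
    refine h6.trans ?_
    apply mul_le_mul_of_nonneg_left _ (mul_nonneg hN0.le ha0)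
    have h8 : 5 * (N * (C * (r ^ 2 / N) * a / 2)) = 5 / 2 * C * r ^ 2 * a := by
      field_simp
    linarith
  have h9 : N * (r ^ 2 * N) ≤ N * (5 / 2 * C * r ^ 2 * a ^ 2 + 2 * r * N * a) := by
    calc N * (r ^ 2 * N) = (r * N) ^ 2 := by ring
      _ ≤ _ := h7
      _ = _ := by ring
  have h10 := le_of_mul_le_mul_left h9 hN0
  have h11 := fifth_real N r a C hN0 hr0 ha1' h10 hcon
  have h12 : ((dar G).card : ℝ) ≤ 4 * a * (Fintype.card V : ℝ) := by
    rw [hDr, ← hN]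
    exact mul_le_mul_of_nonneg_right h11 hN0.le
  have h13 := fin_step hG 4 (by norm_num) h12
  rw [← hN] at h13
  have h14 : (a : ℝ) ≤ (a : ℝ) ^ 2 := by nlinarith
  nlinarith [mul_nonneg hC0 (sq_nonneg (a : ℝ))]

end EH73
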