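import Pool.Agent.Work.MP_185d81_co.SpOne

/-!
# MP_185d81_co: bounded matchings in the common neighbourhoods of three vertices
-/

namespace EH73

open Finset Classical

variable {V : Type} [Fintype V]

/-- `((c, c'), e)` with `c ≠ c'` further common neighbours of the ends of `e` -/
def I4 (G : SimpleGraph V) (x : V) (e : V × V) (q : (V × V) × (V × V)) : Prop :=
  q.2 = e ∧ (q.1.1 ≠ x ∧ G.Adj q.1.1 e.1 ∧ G.Adj q.1.1 e.2) ∧
    (q.1.2 ≠ x ∧ G.Adj q.1.2 e.1 ∧ G.Adj q.1.2 e.2) ∧ q.1.1 ≠ q.1.2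

theorem card_I4 {G : SimpleGraph V} {x : V} {e : V × V} (he : e ∈ lk G x) :
    ((univ.filter fun q => I4 G x e q).card : ℝ) =
      ((cod G G e.1 e.2 : ℝ) - 1) * ((cod G G e.1 e.2 : ℝ) - 2) := by
  set F : Finset V := univ.filter fun c => c ≠ x ∧ G.Adj c e.1 ∧ G.Adj c e.2 with hF
  have hFc : (F.card : ℝ) = (cod G G e.1 e.2 : ℝ) - 1 := card_far G he
  have h1 : (univ.filter fun q => I4 G x e q).card = F.offDiag.card := by
    apply Finset.card_bij (fun q _ => q.1)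
    · intro q hq
      have hq' := (Finset.mem_filter.mp hq).2
      rw [Finset.mem_offDiag]
      exact ⟨Finset.mem_filter.mpr ⟨Finset.mem_univ _, hq'.2.1⟩,
        Finset.mem_filter.mpr ⟨Finset.mem_univ _, hq'.2.2.1⟩, hq'.2.2.2⟩
    · intro q hq q' hq' h
      have h1 := (Finset.mem_filter.mp hq).2
      have h2 := (Finset.mem_filter.mp hq').2
      exact Prod.ext h (h1.1.trans h2.1.symm)
    · intro c hc
      rw [Finset.mem_offDiag] at hc
      exact ⟨(c, e), Finset.mem_filter.mpr ⟨Finset.mem_univ _, rfl, (Finset.mem_filter.mp hc.1).2,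
        (Finset.mem_filter.mp hc.2.1).2, hc.2.2⟩, rfl⟩
  rw [h1, Finset.offDiag_card, Nat.cast_sub (Nat.le_mul_self _)]
  push_cast
  rw [hFc]
  ring

theorem lhs_four (G : SimpleGraph V) (x : V) :
    ∑ p ∈ lk G x, (((cod G G p.1 p.2 : ℝ) - 1) * ((cod G G p.1 p.2 : ℝ) - 2)) /
      (2 * (cod G G x p.1 : ℝ) + 2 * (cod G G x p.2 : ℝ) + 1) ≤
      ∑ p ∈ (lk G x ×ˢ univ).filter (fun p => I4 G x p.1 p.2),
        (1 : ℝ) / ((((lk G x).filter fun f => I4 G x f p.2).card : ℝ) +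
          (((lk G x).filter fun f => Shr p.1 f).card : ℝ)) := by
  rw [Finset.sum_filter, Finset.sum_product]
  apply Finset.sum_le_sum
  intro e he
  rw [← card_I4 he, ← Finset.sum_filter]
  rw [div_eq_mul_inv, ← nsmul_eq_mul, ← Finset.sum_const]
  apply Finset.sum_le_sum
  intro q hq
  simp only
  rw [one_div]
  apply inv_anti₀
  · have h2 : 0 < ((lk G x).filter fun f => Shr e f).card :=
      Finset.card_pos.mpr ⟨e, Finset.mem_filter.mpr ⟨he, Shr.refl e⟩⟩
    have h3 : (0 : ℝ) < (((lk G x).filter fun f => Shr e f).card : ℝ) := by exact_mod_cast h2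
    positivity
  · have h4 : ((lk G x).filter fun f => I4 G x f q).card ≤ 1 := by
      rw [Finset.card_le_one]
      intro f hf g hg
      have hf' := (Finset.mem_filter.mp hf).2
      have hg' := (Finset.mem_filter.mp hg).2
      exact hf'.1.symm.trans hg'.1
    have h5 := deg_shr G x e
    have h4' : (((lk G x).filter fun f => I4 G x f q).card : ℝ) ≤ 1 := by exact_mod_cast h4
    have h5' : (((lk G x).filter fun f => Shr e f).card : ℝ) ≤
        2 * (cod G G x e.1 : ℝ) + 2 * (cod G G x e.2 : ℝ) := by exact_mod_cast h5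
    linarith

theorem rhs_four {G : SimpleGraph V} {a : ℕ} (hG : Good G a) (t : ℕ)
    (ht : ∀ x c c' : V, c ≠ x → c' ≠ x → c ≠ c' → ∀ M : Finset (V × V), M ⊆ lk G x →
      (∀ e ∈ M, (G.Adj c e.1 ∧ G.Adj c e.2) ∧ G.Adj c' e.1 ∧ G.Adj c' e.2) →
      (∀ e ∈ M, ∀ f ∈ M, e ≠ f → ¬ Shr e f) → M.card ≤ t)
    (x : V) (M : Finset (V × V)) (hM : M ⊆ lk G x) (hMi : ∀ e ∈ M, ∀ f ∈ M, e ≠ f → ¬ Shr e f) :
    ((univ : Finset ((V × V) × (V × V))).filter fun c => ∃ e ∈ M, I4 G x e c).card ≤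
      t * (a * a) := by
  have h1 := Finset.card_le_mul_card_image (f := fun q : (V × V) × (V × V) => q.1)
    ((univ : Finset ((V × V) × (V × V))).filter fun c => ∃ e ∈ M, I4 G x e c) t (by
      intro c hc
      rw [Finset.mem_image] at hc
      obtain ⟨q, hq, rfl⟩ := hc
      simp only [Finset.mem_filter, Finset.mem_univ, true_and] at hq
      obtain ⟨e, he, hqe⟩ := hq
      have hle := ht x q.1.1 q.1.2 hqe.2.1.1 hqe.2.2.1.1 hqe.2.2.2
        (M.filter fun f => (G.Adj q.1.1 f.1 ∧ G.Adj q.1.1 f.2) ∧ G.Adj q.1.2 f.1 ∧ G.Adj q.1.2 f.2)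
        ((Finset.filter_subset _ _).trans hM)
        (fun f hf => (Finset.mem_filter.mp hf).2)
        (fun f hf g hg => hMi f (Finset.mem_filter.mp hf).1 g (Finset.mem_filter.mp hg).1)
      refine le_trans ?_ hle
      apply Finset.card_le_card_of_injOn (fun r => r.2)
      · intro r hr
        rw [Finset.mem_coe, Finset.mem_filter] at hr
        obtain ⟨hr1, hr2⟩ := hr
        simp only [Finset.mem_filter, Finset.mem_univ, true_and] at hr1
        obtain ⟨g, hg, hrg⟩ := hr1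
        rw [Finset.mem_coe, Finset.mem_filter]
        have e1 : r.2 = g := hrg.1
        show r.2 ∈ M ∧ (G.Adj q.1.1 r.2.1 ∧ G.Adj q.1.1 r.2.2) ∧ G.Adj q.1.2 r.2.1 ∧ G.Adj q.1.2 r.2.2
        rw [e1, ← hr2]
        exact ⟨hg, hrg.2.1.2, hrg.2.2.1.2⟩
      · intro r hr r' hr' h
        rw [Finset.mem_coe, Finset.mem_filter] at hr hr'
        exact Prod.ext (hr.2.trans hr'.2.symm) h)
  refine h1.trans (Nat.mul_le_mul_left _ ?_)
  set U : Finset V := univ.filter fun c => c ≠ x ∧ ∃ e ∈ M, G.Adj c e.1 ∧ G.Adj c e.2 with hU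
  have hUa : U.card ≤ a := union_le hG x M hM hMi
  have hsub : (((univ : Finset ((V × V) × (V × V))).filter fun c => ∃ e ∈ M, I4 G x e c).image
      fun q => q.1) ⊆ U ×ˢ U := by
    intro c hc
    rw [Finset.mem_image] at hc
    obtain ⟨q, hq, rfl⟩ := hc
    simp only [Finset.mem_filter, Finset.mem_univ, true_and] at hq
    obtain ⟨e, he, hqe⟩ := hq
    rw [Finset.mem_product]
    exact ⟨Finset.mem_filter.mpr ⟨Finset.mem_univ _, hqe.2.1.1, e, he, hqe.2.1.2⟩,
      Finset.mem_filter.mpr ⟨Finset.mem_univ _, hqe.2.2.1.1, e, he, hqe.2.2.1.2⟩⟩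
  calc _ ≤ (U ×ˢ U).card := Finset.card_le_card hsub
    _ = U.card * U.card := Finset.card_product _ _
    _ ≤ a * a := Nat.mul_le_mul hUa hUa

/-- the matching inequality at one vertex -/
theorem link_four {G : SimpleGraph V} {a : ℕ} (hG : Good G a) (t : ℕ)
    (ht : ∀ x c c' : V, c ≠ x → c' ≠ x → c ≠ c' → ∀ M : Finset (V × V), M ⊆ lk G x →
      (∀ e ∈ M, (G.Adj c e.1 ∧ G.Adj c e.2) ∧ G.Adj c' e.1 ∧ G.Adj c' e.2) →
      (∀ e ∈ M, ∀ f ∈ M, e ≠ f → ¬ Shr e f) → M.card ≤ t) (x : V) :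
    ∑ p ∈ lk G x, (((cod G G p.1 p.2 : ℝ) - 1) * ((cod G G p.1 p.2 : ℝ) - 2)) /
      (2 * (cod G G x p.1 : ℝ) + 2 * (cod G G x p.2 : ℝ) + 1) ≤ t * (a * a) := by
  obtain ⟨M, hM, hMi, hsum⟩ := cover_caro_wei Shr Shr.refl Shr.symm' (I4 G x) (lk G x) univ
  have hrhs := rhs_four hG t ht x M hM hMi
  have hrhs' : (((univ : Finset ((V × V) × (V × V))).filter fun c => ∃ e ∈ M, I4 G x e c).card : ℝ) ≤
      t * (a * a) := by exact_mod_cast hrhs
  exact (lhs_four G x).trans (hsum.trans hrhs')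

/-- the pointwise inequality for the codegrees of a triangle -/
theorem four_form (p q r : ℝ) (hp : 1 ≤ p) (hq : 1 ≤ q) (hr : 1 ≤ r) :
    1 / 10 * (p + q + r) + (-3 / 2) * 1 ≤
      ((p - 1) * (p - 2)) / (2 * r + 2 * q + 1) + ((q - 1) * (q - 2)) / (2 * p + 2 * r + 1) +
        ((r - 1) * (r - 2)) / (2 * q + 2 * p + 1) := by
  have hp0 : 0 < p := by linarith
  have hq0 : 0 < q := by linarith
  have hr0 : 0 < r := by linarith
  have key : ∀ u v w : ℝ, 1 ≤ u → 1 ≤ v → 1 ≤ w →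
      1 / 5 * (u ^ 2 / (v + w)) - 1 / 2 ≤ ((u - 1) * (u - 2)) / (2 * w + 2 * v + 1) := by
    intro u v w hu hv hw
    have hd : 0 < 2 * w + 2 * v + 1 := by linarith
    have hvw : 0 < v + w := by linarith
    have h1 : u ^ 2 / 2 - 5 / 2 ≤ (u - 1) * (u - 2) := by nlinarith [sq_nonneg (u - 3)]
    have h2 : (u ^ 2 / 2 - 5 / 2) / (2 * w + 2 * v + 1) ≤
        ((u - 1) * (u - 2)) / (2 * w + 2 * v + 1) := div_le_div_of_nonneg_right h1 hd.le
    have h3 : 1 / 5 * (u ^ 2 / (v + w)) ≤ (u ^ 2 / 2) / (2 * w + 2 * v + 1) := by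
      rw [← mul_div_assoc, div_le_div_iff₀ hvw hd]
      nlinarith [sq_nonneg u]
    have h4 : (5 / 2) / (2 * w + 2 * v + 1) ≤ 1 / 2 := by
      rw [div_le_iff₀ hd]
      linarith
    rw [sub_div] at h2
    linarith
  have h1 := key p q r hp hq hr
  have h2 := key q r p hq hr hp
  have h3 := key r p q hr hp hq
  have nes : (p + q + r) / 2 ≤ p ^ 2 / (q + r) + q ^ 2 / (r + p) + r ^ 2 / (p + q) := by
    have aux : ∀ u v : ℝ, 0 < v → u - v / 4 ≤ u ^ 2 / v := by
      intro u v hv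
      rw [le_div_iff₀ hv]
      nlinarith [sq_nonneg (u - v / 2)]
    have a1 := aux p (q + r) (by linarith)
    have a2 := aux q (r + p) (by linarith)
    have a3 := aux r (p + q) (by linarith)
    linarith
  linarith

theorem fourth_dar {G : SimpleGraph V} {a : ℕ} (hG : Good G a) (t : ℕ)
    (ht : ∀ x c c' : V, c ≠ x → c' ≠ x → c ≠ c' → ∀ M : Finset (V × V), M ⊆ lk G x →
      (∀ e ∈ M, (G.Adj c e.1 ∧ G.Adj c e.2) ∧ G.Adj c' e.1 ∧ G.Adj c' e.2) →
      (∀ e ∈ M, ∀ f ∈ M, e ≠ f → ¬ Shr e f) → M.card ≤ t) :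
    tri3 G (fun _ _ _ => 1) ^ 2 ≤ (10 * ((Fintype.card V : ℝ) * (t * (a * a))) +
      5 * tri3 G (fun _ _ _ => 1)) * (dar G).card := by
  set f : V → V → V → ℝ := fun x y z => (((cod G G y z : ℝ) - 1) * ((cod G G y z : ℝ) - 2)) /
      (2 * (cod G G x y : ℝ) + 2 * (cod G G x z : ℝ) + 1) with hf
  have h1 : tri3 G f ≤ (Fintype.card V : ℝ) * (t * (a * a)) := by
    unfold tri3
    calc ∑ x : V, ∑ p ∈ lk G x, f x p.1 p.2 ≤ ∑ _x : V, (t * (a * a) : ℝ) :=
          Finset.sum_le_sum fun x _ => link_four hG t ht x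
      _ = _ := by rw [Finset.sum_const, Finset.card_univ, nsmul_eq_mul]
  have h2 : tri3 G f = tri3 G (fun x y z => f y z x) := tri3_rot G f
  have h3 : tri3 G f = tri3 G (fun x y z => f z x y) := by
    rw [h2, tri3_rot]
  set k : V → V → V → ℝ := fun x y _ => (cod G G x y : ℝ) with hk
  have k2 : tri3 G k = tri3 G (fun x y z => k y z x) := tri3_rot G k
  have k3 : tri3 G k = tri3 G (fun x y z => k z x y) := by
    rw [k2, tri3_rot]
  have key : tri3 G (fun x y z => 1 / 10 * ((k x y z + k y z x) + k z x y) + (-3 / 2) * 1) ≤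
      tri3 G (fun x y z => (f x y z + f y z x) + f z x y) := by
    apply tri3_mono
    intro x y z hxy hxz hyz
    have p1 : (1 : ℝ) ≤ (cod G G y z : ℝ) := by exact_mod_cast cod_pos_of_lk hxy hxz
    have p2 : (1 : ℝ) ≤ (cod G G z x : ℝ) := by exact_mod_cast cod_pos_of_lk hyz hxy.symm
    have p3 : (1 : ℝ) ≤ (cod G G x y : ℝ) := by exact_mod_cast cod_pos_of_lk hxz.symm hyz.symm
    have e1 : cod G G x z = cod G G z x := cod_comm G G x z
    have e2 : cod G G y x = cod G G x y := cod_comm G G y x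
    have e3 : cod G G z y = cod G G y z := cod_comm G G z y
    have h := four_form (cod G G y z : ℝ) (cod G G z x : ℝ) (cod G G x y : ℝ) p1 p2 p3
    simp only [hf, hk]
    rw [e1, e2, e3]
    linarith
  have q1 : tri3 G (fun x y z => (f x y z + f y z x) + f z x y) = tri3 G f + tri3 G f + tri3 G f := by
    rw [tri3_add G (fun x y z => f x y z + f y z x) (fun x y z => f z x y),
      tri3_add G (fun x y z => f x y z) (fun x y z => f y z x)]
    rw [← h2, ← h3]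
  have q2 : tri3 G (fun x y z => (k x y z + k y z x) + k z x y) = tri3 G k + tri3 G k + tri3 G k := by
    rw [tri3_add G (fun x y z => k x y z + k y z x) (fun x y z => k z x y),
      tri3_add G (fun x y z => k x y z) (fun x y z => k y z x)]
    rw [← k2, ← k3]
  have q3 : tri3 G (fun x y z => 1 / 10 * ((k x y z + k y z x) + k z x y) + (-3 / 2) * 1) =
      1 / 10 * (tri3 G k + tri3 G k + tri3 G k) + (-3 / 2) * tri3 G (fun _ _ _ => 1) := by
    rw [tri3_add G (fun x y z => 1 / 10 * ((k x y z + k y z x) + k z x y)) (fun _ _ _ => (-3 / 2) * 1),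
      tri3_mul G (1 / 10) (fun x y z => (k x y z + k y z x) + k z x y),
      tri3_mul G (-3 / 2) (fun _ _ _ => 1), q2]
  rw [q1, q3] at key
  -- Cauchy-Schwarz
  have c1 : tri3 G (fun _ _ _ => 1) = ∑ p ∈ dar G, (cod G G p.1 p.2 : ℝ) := by
    have := tri3_edge G (fun _ _ => 1)
    simpa using this
  have c2 : tri3 G k = ∑ p ∈ dar G, (cod G G p.1 p.2 : ℝ) ^ 2 := by
    have := tri3_edge G (fun x y => (cod G G x y : ℝ))
    rw [hk, this]
    apply Finset.sum_congr rfl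
    intro p _
    ring
  have c3 : tri3 G (fun _ _ _ => 1) ^ 2 ≤ ((dar G).card : ℝ) * tri3 G k := by
    rw [c1, c2]
    exact sq_sum_le_card_mul_sum_sq
  have c4 : tri3 G k ≤ 10 * ((Fintype.card V : ℝ) * (t * (a * a))) +
      5 * tri3 G (fun _ _ _ => 1) := by linarith
  calc _ ≤ ((dar G).card : ℝ) * tri3 G k := c3
    _ ≤ ((dar G).card : ℝ) * (10 * ((Fintype.card V : ℝ) * (t * (a * a))) +
      5 * tri3 G (fun _ _ _ => 1)) := mul_le_mul_of_nonneg_left c4 (Nat.cast_nonneg _)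
    _ = _ := by ring

theorem fourth_bound {G : SimpleGraph V} {a : ℕ} (hG : Good G a) (t : ℕ) (κ : ℝ) (hκ1 : 1 ≤ κ)
    (hκ : κ ^ 3 = t * a)
    (ht : ∀ x c c' : V, c ≠ x → c' ≠ x → c ≠ c' → ∀ M : Finset (V × V), M ⊆ lk G x →
      (∀ e ∈ M, (G.Adj c e.1 ∧ G.Adj c e.2) ∧ G.Adj c' e.1 ∧ G.Adj c' e.2) →
      (∀ e ∈ M, ∀ f ∈ M, e ≠ f → ¬ Shr e f) → M.card ≤ t) :
    (Fintype.card V : ℝ) ≤ 11 * κ * (a : ℝ) ^ 2 + a := by
  have ha : (0 : ℝ) ≤ a := Nat.cast_nonneg _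
  have hn : (0 : ℝ) ≤ (Fintype.card V : ℝ) := Nat.cast_nonneg _
  apply fin_step hG _ (by linarith)
  have h1 := fourth_dar hG t ht
  have h2 := turan_links hG
  set D : ℝ := ((dar G).card : ℝ) with hD
  have hD0 : 0 ≤ D := Nat.cast_nonneg _
  set N : ℝ := (Fintype.card V : ℝ) with hN
  set τ : ℝ := tri3 G (fun _ _ _ => 1) with hτ
  have hNa : 0 ≤ N * a := mul_nonneg hn ha
  by_contra hcon
  push Not at hcon
  have hDpos : 0 < D := lt_of_le_of_lt (by positivity) hcon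
  have hcon' : 11 * κ * (N * a) < D := by nlinarith
  have hNapos : 0 < N * a := by
    rcases lt_or_eq_of_le hNa with h | h
    · exact h
    · exfalso
      rw [← h] at h2
      nlinarith
  have hκNa : N * a ≤ κ * (N * a) := by nlinarith
  -- `τ ≥ 10 D`
  have hτ10 : 10 * D < τ := by
    by_contra h
    push Not at h
    have h3 : D * D ≤ D * (11 * (N * a)) := by nlinarith
    have h4 := le_of_mul_le_mul_left h3 hDpos
    nlinarith
  have h5 : D ^ 2 ≤ N * a * (11 / 10 * τ) := by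
    refine h2.trans ?_
    apply mul_le_mul_of_nonneg_left _ hNa
    linarith
  have h6 : τ ^ 2 ≤ 20 * (N * (t * (a * a))) * D := by
    have h7 : 5 * τ * D ≤ τ ^ 2 / 2 := by nlinarith
    nlinarith
  -- `D ^ 4 ≤ (121/100) (N a)^2 τ^2`
  have h8 : (D ^ 2) ^ 2 ≤ (N * a * (11 / 10 * τ)) ^ 2 := by
    apply pow_le_pow_left₀ (by positivity) h5
  have h9 : (D ^ 2) ^ 2 ≤ (N * a) ^ 2 * (121 / 100) * (20 * (N * (t * (a * a))) * D) := by
    calc (D ^ 2) ^ 2 ≤ (N * a * (11 / 10 * τ)) ^ 2 := h8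
      _ = (N * a) ^ 2 * (121 / 100) * τ ^ 2 := by ring
      _ ≤ _ := mul_le_mul_of_nonneg_left h6 (by positivity)
  have h10 : D * D ^ 3 ≤ D * ((121 / 5) * (κ * (N * a)) ^ 3) := by
    calc D * D ^ 3 = (D ^ 2) ^ 2 := by ring
      _ ≤ (N * a) ^ 2 * (121 / 100) * (20 * (N * (t * (a * a))) * D) := h9
      _ = D * ((121 / 5) * ((t * a) * (N * a) ^ 3)) := by ring
      _ = D * ((121 / 5) * (κ * (N * a)) ^ 3) := by rw [← hκ]; ring
  have h11 : D ^ 3 ≤ (121 / 5) * (κ * (N * a)) ^ 3 := le_of_mul_le_mul_left h10 hDpos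
  have h12 : (11 * κ * (N * a)) ^ 3 < D ^ 3 := by
    apply pow_lt_pow_left₀ hcon' (by positivity) (by norm_num)
  have h13 : (0 : ℝ) < (κ * (N * a)) ^ 3 := by positivity
  nlinarith

end EH73
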