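import Pool.Agent.Work.MP_185d81_co.SpOne

/-!
# MP_185d81_co: few edges in the common neighbourhoods of pairs at distance two
-/

namespace EH73

open Finset Classical

variable {V : Type} [Fintype V]

/-- `c` is a further common neighbour of the ends of `e` -/
def I2 (G : SimpleGraph V) (x : V) (e : V × V) (c : V) : Prop :=
  c ≠ x ∧ G.Adj c e.1 ∧ G.Adj c e.2

theorem lhs_two (G : SimpleGraph V) (s : ℕ)
    (hs : ∀ x c : V, c ≠ x → ((lk G x).filter fun e => I2 G x e c).card ≤ 2 * s) (x : V) :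
    ∑ p ∈ lk G x, ((cod G G p.1 p.2 : ℝ) - 1) /
      (2 * s + 2 * (cod G G x p.1 : ℝ) + 2 * (cod G G x p.2 : ℝ)) ≤
      ∑ p ∈ (lk G x ×ˢ univ).filter (fun p => I2 G x p.1 p.2),
        (1 : ℝ) / ((((lk G x).filter fun f => I2 G x f p.2).card : ℝ) +
          (((lk G x).filter fun f => Shr p.1 f).card : ℝ)) := by
  rw [Finset.sum_filter, Finset.sum_product]
  apply Finset.sum_le_sum
  intro e he
  have hc0 : (univ.filter fun c => I2 G x e c) =
      (univ.filter fun c => c ≠ x ∧ G.Adj c e.1 ∧ G.Adj c e.2) := by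
    ext c
    constructor
    · intro h
      exact Finset.mem_filter.mpr ⟨Finset.mem_univ _, (Finset.mem_filter.mp h).2⟩
    · intro h
      exact Finset.mem_filter.mpr ⟨Finset.mem_univ _, (Finset.mem_filter.mp h).2⟩
  have hc : ((univ.filter fun c => I2 G x e c).card : ℝ) = (cod G G e.1 e.2 : ℝ) - 1 := by
    rw [hc0]
    exact card_far G he
  rw [← hc, ← Finset.sum_filter]
  rw [div_eq_mul_inv, ← nsmul_eq_mul, ← Finset.sum_const]
  apply Finset.sum_le_sum
  intro q hq
  simp only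
  rw [one_div]
  apply inv_anti₀
  · have h2 : 0 < ((lk G x).filter fun f => Shr e f).card :=
      Finset.card_pos.mpr ⟨e, Finset.mem_filter.mpr ⟨he, Shr.refl e⟩⟩
    have h3 : (0 : ℝ) < (((lk G x).filter fun f => Shr e f).card : ℝ) := by exact_mod_cast h2
    positivity
  · have hqx : q ≠ x := (Finset.mem_filter.mp hq).2.1
    have h4 := hs x q hqx
    have h5 := deg_shr G x e
    have h4' : (((lk G x).filter fun f => I2 G x f q).card : ℝ) ≤ 2 * s := by exact_mod_cast h4
    have h5' : (((lk G x).filter fun f => Shr e f).card : ℝ) ≤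
        2 * (cod G G x e.1 : ℝ) + 2 * (cod G G x e.2 : ℝ) := by exact_mod_cast h5
    linarith

/-- the covering inequality at one vertex -/
theorem link_cover {G : SimpleGraph V} {a : ℕ} (hG : Good G a) (s : ℕ)
    (hs : ∀ x c : V, c ≠ x → ((lk G x).filter fun e => I2 G x e c).card ≤ 2 * s) (x : V) :
    ∑ p ∈ lk G x, ((cod G G p.1 p.2 : ℝ) - 1) /
      (2 * s + 2 * (cod G G x p.1 : ℝ) + 2 * (cod G G x p.2 : ℝ)) ≤ a := by
  obtain ⟨M, hM, hMi, hsum⟩ := cover_caro_wei Shr Shr.refl Shr.symm' (I2 G x) (lk G x) univ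
  have hrhs : ((univ : Finset V).filter fun c => ∃ e ∈ M, I2 G x e c).card ≤ a := by
    refine le_trans (Finset.card_le_card ?_) (union_le hG x M hM hMi)
    intro c hc
    simp only [Finset.mem_filter, Finset.mem_univ, true_and] at hc ⊢
    obtain ⟨e, he, hqe⟩ := hc
    exact ⟨hqe.1, e, he, hqe.2⟩
  have hrhs' : (((univ : Finset V).filter fun c => ∃ e ∈ M, I2 G x e c).card : ℝ) ≤ a := by
    exact_mod_cast hrhs
  exact (lhs_two G s hs x).trans (hsum.trans hrhs')

/-- the pointwise inequality for the three codegrees of a triangle -/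
theorem three_form (s θ p q r : ℝ) (hs : 1 ≤ s) (hθ : 0 < θ) (hp : 1 ≤ p) (hq : 1 ≤ q) (hr : 1 ≤ r) :
    θ / (2 * (3 * s + θ)) * (1 + (-(θ + 1)) * (1 / r)) ≤
      (p - 1) / (2 * s + 2 * r + 2 * q) + (q - 1) / (2 * s + 2 * p + 2 * r) +
        (r - 1) / (2 * s + 2 * q + 2 * p) := by
  set P : ℝ := p + q + r - 3 with hP
  have hP0 : 0 ≤ P := by linarith
  have hden : 0 < 2 * (3 * s + P) := by linarith
  have key : ∀ u v w : ℝ, 1 ≤ u → 1 ≤ v → 1 ≤ w → u + v + w = P + 3 →
      (u - 1) / (2 * (3 * s + P)) ≤ (u - 1) / (2 * s + 2 * w + 2 * v) := by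
    intro u v w hu hv hw huvw
    apply div_le_div_of_nonneg_left (by linarith) (by linarith)
    linarith
  have h1 := key p q r hp hq hr (by rw [hP]; ring)
  have h2 := key q r p hq hr hp (by rw [hP]; ring)
  have h3 := key r p q hr hp hq (by rw [hP]; ring)
  have hsum : (p - 1) / (2 * (3 * s + P)) + (q - 1) / (2 * (3 * s + P)) + (r - 1) / (2 * (3 * s + P)) =
      P / (2 * (3 * s + P)) := by
    rw [← add_div, ← add_div, hP]
    congr 1
    ring
  have hmain : θ / (2 * (3 * s + θ)) * (1 + (-(θ + 1)) * (1 / r)) ≤ P / (2 * (3 * s + P)) := by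
    have hc0 : 0 < θ / (2 * (3 * s + θ)) := by positivity
    have hr0 : 0 < r := by linarith
    by_cases hPθ : P < θ
    · have hrle : r ≤ θ + 1 := by linarith
      have h4 : 1 ≤ (θ + 1) * (1 / r) := by
        rw [mul_one_div, le_div_iff₀ hr0]
        linarith
      have h5 : (1 + (-(θ + 1)) * (1 / r)) ≤ 0 := by linarith
      have h6 : θ / (2 * (3 * s + θ)) * (1 + (-(θ + 1)) * (1 / r)) ≤ 0 :=
        mul_nonpos_of_nonneg_of_nonpos hc0.le h5
      have h7 : 0 ≤ P / (2 * (3 * s + P)) := by positivity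
      linarith
    · push Not at hPθ
      have h4 : 0 ≤ (θ + 1) * (1 / r) := by positivity
      have h5 : (1 + (-(θ + 1)) * (1 / r)) ≤ 1 := by linarith
      have h6 : θ / (2 * (3 * s + θ)) * (1 + (-(θ + 1)) * (1 / r)) ≤ θ / (2 * (3 * s + θ)) := by
        calc _ ≤ θ / (2 * (3 * s + θ)) * 1 := mul_le_mul_of_nonneg_left h5 hc0.le
          _ = _ := mul_one _
      have h7 : θ / (2 * (3 * s + θ)) ≤ P / (2 * (3 * s + P)) := by
        rw [div_le_div_iff₀ (by positivity) hden]
        nlinarith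
      linarith
  linarith

theorem second_bound {G : SimpleGraph V} {a : ℕ} (hG : Good G a) (s : ℕ) (hs1 : 1 ≤ s) (σ : ℝ)
    (hσ : 1 ≤ σ) (hσs : σ ^ 3 = s)
    (hs : ∀ x c : V, c ≠ x → ((lk G x).filter fun e => I2 G x e c).card ≤ 2 * s) :
    (Fintype.card V : ℝ) ≤ 7 * σ * (a : ℝ) ^ 2 + a := by
  have ha : (0 : ℝ) ≤ a := Nat.cast_nonneg _
  have hn : (0 : ℝ) ≤ (Fintype.card V : ℝ) := Nat.cast_nonneg _
  have hs1' : (1 : ℝ) ≤ s := by exact_mod_cast hs1
  apply fin_step hG _ (by linarith)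
  by_contra hcon
  push Not at hcon
  have h2 := turan_links hG
  set D : ℝ := ((dar G).card : ℝ) with hD
  set N : ℝ := (Fintype.card V : ℝ) with hN
  set τ : ℝ := tri3 G (fun _ _ _ => 1) with hτ
  have hD0 : 0 < D := lt_of_le_of_lt (by positivity) hcon
  -- `N a > 0`
  have hNa : 0 < N * a := by
    rcases lt_or_eq_of_le (mul_nonneg hn ha) with h | h
    · exact h
    · exfalso
      rw [← h] at h2
      nlinarith
  set δ : ℝ := D / (N * a) with hδ
  have hδD : D = δ * (N * a) := by rw [hδ, div_mul_cancel₀ _ hNa.ne']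
  have hδ7 : 7 * σ < δ := by
    rw [hδ, lt_div_iff₀ hNa]
    linarith
  set θ : ℝ := (δ - 2) / 2 with hθ
  have hθσ : 5 / 2 * σ < θ := by rw [hθ]; linarith
  have hθ0 : 0 < θ := by linarith
  -- the sum over the triangles
  set f : V → V → V → ℝ := fun x y z => ((cod G G y z : ℝ) - 1) /
      (2 * s + 2 * (cod G G x y : ℝ) + 2 * (cod G G x z : ℝ)) with hf
  have h1 : tri3 G f ≤ N * a := by
    unfold tri3
    calc ∑ x : V, ∑ p ∈ lk G x, f x p.1 p.2 ≤ ∑ _x : V, (a : ℝ) :=
          Finset.sum_le_sum fun x _ => link_cover hG s hs x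
      _ = _ := by rw [Finset.sum_const, Finset.card_univ, nsmul_eq_mul]
  have h3 : tri3 G f = tri3 G (fun x y z => f y z x) := tri3_rot G f
  have h4 : tri3 G f = tri3 G (fun x y z => f z x y) := by
    rw [h3, tri3_rot]
  set k : V → V → V → ℝ := fun x y _ => 1 / (cod G G x y : ℝ) with hk
  have k1 : tri3 G k ≤ D := tri3_inv G
  have key : tri3 G (fun x y z => θ / (2 * (3 * s + θ)) * (1 + (-(θ + 1)) * k x y z)) ≤
      tri3 G (fun x y z => (f x y z + f y z x) + f z x y) := by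
    apply tri3_mono
    intro x y z hxy hxz hyz
    have p1 : (1 : ℝ) ≤ (cod G G y z : ℝ) := by exact_mod_cast cod_pos_of_lk hxy hxz
    have p2 : (1 : ℝ) ≤ (cod G G z x : ℝ) := by exact_mod_cast cod_pos_of_lk hyz hxy.symm
    have p3 : (1 : ℝ) ≤ (cod G G x y : ℝ) := by exact_mod_cast cod_pos_of_lk hxz.symm hyz.symm
    have e1 : cod G G x z = cod G G z x := cod_comm G G x z
    have e2 : cod G G y x = cod G G x y := cod_comm G G y x
    have e3 : cod G G z y = cod G G y z := cod_comm G G z y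
    have h := three_form s θ (cod G G y z : ℝ) (cod G G z x : ℝ) (cod G G x y : ℝ) hs1' hθ0 p1 p2 p3
    simp only [hf, hk]
    rw [e1, e2, e3]
    linarith
  have q1 : tri3 G (fun x y z => (f x y z + f y z x) + f z x y) = tri3 G f + tri3 G f + tri3 G f := by
    rw [tri3_add G (fun x y z => f x y z + f y z x) (fun x y z => f z x y),
      tri3_add G (fun x y z => f x y z) (fun x y z => f y z x)]
    rw [← h3, ← h4]
  have q3 : tri3 G (fun x y z => θ / (2 * (3 * s + θ)) * (1 + (-(θ + 1)) * k x y z)) =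
      θ / (2 * (3 * s + θ)) * (τ + (-(θ + 1)) * tri3 G k) := by
    rw [tri3_mul G (θ / (2 * (3 * s + θ))) (fun x y z => 1 + (-(θ + 1)) * k x y z),
      tri3_add G (fun _ _ _ => 1) (fun x y z => (-(θ + 1)) * k x y z),
      tri3_mul G (-(θ + 1)) (fun x y z => k x y z)]
  rw [q1, q3] at key
  -- lower bound for `τ`
  have hτ1 : D * (δ - 1) ≤ τ := by
    have h5 : D * D ≤ (N * a) * (τ + D) := by nlinarith
    have h6 : (N * a) * (δ * D) ≤ (N * a) * (τ + D) := by
      calc (N * a) * (δ * D) = D * D := by rw [hδD]; ring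
        _ ≤ _ := h5
    have h7 := le_of_mul_le_mul_left h6 hNa
    linarith
  have hτ2 : D * θ ≤ τ + (-(θ + 1)) * tri3 G k := by
    have h8 : (θ + 1) * tri3 G k ≤ (θ + 1) * D := mul_le_mul_of_nonneg_left k1 (by linarith)
    have h9 : D * (δ - 1) - (θ + 1) * D = D * θ := by
      rw [hθ]; ring
    linarith
  have hden : 0 < 2 * (3 * (s : ℝ) + θ) := by positivity
  have h10 : θ / (2 * (3 * s + θ)) * (D * θ) ≤ 3 * (N * a) := by
    calc _ ≤ θ / (2 * (3 * s + θ)) * (τ + (-(θ + 1)) * tri3 G k) :=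
          mul_le_mul_of_nonneg_left hτ2 (by positivity)
      _ ≤ tri3 G f + tri3 G f + tri3 G f := key
      _ ≤ _ := by linarith
  have h11 : θ * (D * θ) ≤ 3 * (N * a) * (2 * (3 * s + θ)) := by
    have : θ / (2 * (3 * s + θ)) * (D * θ) = θ * (D * θ) / (2 * (3 * s + θ)) := by ring
    rw [this, div_le_iff₀ hden] at h10
    exact h10
  have h12 : (N * a) * (θ * θ * δ) ≤ (N * a) * (6 * (3 * s + θ)) := by
    rw [hδD] at h11
    nlinarith
  have h13 := le_of_mul_le_mul_left h12 hNa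
  -- contradiction
  have h14 : 5 / 2 * σ * (7 * σ) < θ * δ := by
    apply mul_lt_mul hθσ hδ7.le (by linarith) (by linarith)
  have h15 : 5 / 2 * σ * (7 * σ) - 6 < θ * δ - 6 := by linarith
  have h16 : 23 / 2 * σ ^ 2 ≤ 5 / 2 * σ * (7 * σ) - 6 := by nlinarith
  have h17 : 5 / 2 * σ * (23 / 2 * σ ^ 2) < θ * (θ * δ - 6) := by
    apply mul_lt_mul hθσ (by linarith) (by positivity) (by linarith)
  have h18 : (18 : ℝ) * s < 5 / 2 * σ * (23 / 2 * σ ^ 2) := by
    have : 5 / 2 * σ * (23 / 2 * σ ^ 2) = 115 / 4 * σ ^ 3 := by ring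
    rw [this, hσs]
    linarith
  nlinarith

end EH73
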