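import Pool.Agent.Work.MP_185d81_co.SpFirst
import Pool.Agent.Work.MP_185d81_co.SpSecond
import Pool.Agent.Work.MP_185d81_co.SpFourth
import Pool.Agent.Work.MP_185d81_co.SpFifth

/-!
# MP_185d81_co: translations between the counts in the proofs and the counts in the statements
-/

namespace EH73

open Finset Classical

variable {V : Type} [Fintype V]

theorem cod_eq_ncard (G : SimpleGraph V) (x c : V) : cod G G x c = (G.commonNeighbors x c).ncard := by
  have h : (G.commonNeighbors x c : Set V) = ((cn G G x c : Finset V) : Set V) := by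
    ext v
    rw [SimpleGraph.mem_commonNeighbors, Finset.mem_coe, mem_cn]
  rw [h, Set.ncard_coe_finset]
  rfl

theorem dar_eq_edges (G : SimpleGraph V) : (dar G).card = 2 * G.edgeSet.ncard := by
  have h1 : (dar G).card = ∑ v : V, G.degree v := by
    rw [card_dar]
    apply Finset.sum_congr rfl
    intro v _
    rw [← SimpleGraph.card_neighborFinset_eq_degree]
    congr 1
    ext w
    simp
  rw [h1, SimpleGraph.sum_degrees_eq_twice_card_edges]
  congr 1
  rw [Set.ncard_eq_toFinset_card']
  rfl

/-- the ordered edges inside a common neighbourhood, against the edges inside it -/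
theorem ordered_le (G : SimpleGraph V) (x c : V) (s : ℕ)
    (hs : {e : Sym2 V | e ∈ G.edgeSet ∧ ∀ v ∈ e, v ∈ G.commonNeighbors x c}.ncard ≤ s) :
    ((lk G x).filter fun e => I2 G x e c).card ≤ 2 * s := by
  have h1 := Finset.card_le_mul_card_image (f := fun p : V × V => s(p.1, p.2))
    ((lk G x).filter fun e => I2 G x e c) 2 (by
      intro e he
      rw [Finset.mem_image] at he
      obtain ⟨p, hp, rfl⟩ := he
      have hsub : (((lk G x).filter fun e => I2 G x e c).filter
          fun q => s(q.1, q.2) = s(p.1, p.2)) ⊆ {p, (p.2, p.1)} := by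
        intro q hq
        rw [Finset.mem_filter] at hq
        rw [Finset.mem_insert, Finset.mem_singleton]
        rcases Sym2.eq_iff.mp hq.2 with h | h
        · exact Or.inl (Prod.ext h.1 h.2)
        · exact Or.inr (Prod.ext h.1 h.2)
      exact (Finset.card_le_card hsub).trans Finset.card_le_two)
  refine h1.trans (Nat.mul_le_mul_left _ (le_trans ?_ hs))
  rw [← Set.ncard_coe_finset]
  apply Set.ncard_le_ncard _ (Set.toFinite _)
  intro e he
  rw [Finset.mem_coe, Finset.mem_image] at he
  obtain ⟨p, hp, rfl⟩ := he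
  rw [Finset.mem_filter, mem_lk] at hp
  obtain ⟨⟨h1, h2, h3⟩, h4⟩ := hp
  refine ⟨h3, ?_⟩
  intro v hv
  rw [SimpleGraph.mem_commonNeighbors]
  rcases Sym2.mem_iff.mp hv with rfl | rfl
  · exact ⟨h1, h4.2.1⟩
  · exact ⟨h2, h4.2.2⟩

/-- from a large matching to two families of vertices -/
theorem families_of_matching (M : Finset (V × V)) (t : ℕ) (hM : t + 1 ≤ M.card)
    (hne : ∀ e ∈ M, e.1 ≠ e.2) (hMi : ∀ e ∈ M, ∀ f ∈ M, e ≠ f → ¬ Shr e f) :
    ∃ y z : Fin (t + 1) → V, Function.Injective (Sum.elim y z) ∧ ∀ i, (y i, z i) ∈ M := by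
  obtain ⟨M', hM', hc⟩ := Finset.exists_subset_card_eq hM
  have e := (Finset.equivFinOfCardEq hc).symm
  refine ⟨fun i => (e i).1.1, fun i => (e i).1.2, ?_, fun i => hM' (e i).2⟩
  have hshr : ∀ i j, Shr (e i).1 (e j).1 → i = j := by
    intro i j h
    by_contra hij
    have hne' : (e i).1 ≠ (e j).1 := by
      intro h'
      exact hij (e.injective (Subtype.ext h'))
    exact hMi _ (hM' (e i).2) _ (hM' (e j).2) hne' h
  intro u v huv
  rcases u with i | i <;> rcases v with j | j
  · simp only [Sum.elim_inl] at huv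
    rw [hshr i j (Or.inl huv)]
  · simp only [Sum.elim_inl, Sum.elim_inr] at huv
    have hij := hshr i j (Or.inr (Or.inl huv))
    subst hij
    exact absurd huv (hne _ (hM' (e i).2))
  · simp only [Sum.elim_inl, Sum.elim_inr] at huv
    have hij := hshr i j (Or.inr (Or.inr (Or.inl huv)))
    subst hij
    exact absurd huv.symm (hne _ (hM' (e i).2))
  · simp only [Sum.elim_inr] at huv
    rw [hshr i j (Or.inr (Or.inr (Or.inr huv)))]

end EH73
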