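import Pool.Agent.Work.MP_185d81_co.SpOne

/-!
# MP_185d81_co: bounded matchings in the common neighbourhoods, conclusion
-/

namespace EH73

open Finset Classical

variable {V : Type} [Fintype V]

/-- number of triangles against the number of edges -/
theorem tri_le (G : SimpleGraph V) (B : ℝ)
    (hB : ∀ x : V, ∑ p ∈ lk G x, ((cod G G p.1 p.2 : ℝ) - 1) /
      (2 * (cod G G x p.1 : ℝ) + 2 * (cod G G x p.2 : ℝ) + 1) ≤ B) :
    tri3 G (fun _ _ _ => 1) ≤ 5 * ((Fintype.card V : ℝ) * B) + (dar G).card := by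
  set f : V → V → V → ℝ := fun x y z => ((cod G G y z : ℝ) - 1) /
      (2 * (cod G G x y : ℝ) + 2 * (cod G G x z : ℝ) + 1) with hf
  have h1 : tri3 G f ≤ (Fintype.card V : ℝ) * B := by
    unfold tri3
    calc ∑ x : V, ∑ p ∈ lk G x, f x p.1 p.2 ≤ ∑ _x : V, B :=
          Finset.sum_le_sum fun x _ => hB x
      _ = _ := by rw [Finset.sum_const, Finset.card_univ, nsmul_eq_mul]
  have h2 : tri3 G f = tri3 G (fun x y z => f y z x) := tri3_rot G f
  have h3 : tri3 G f = tri3 G (fun x y z => f z x y) := by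
    rw [h2, tri3_rot]
  set k : V → V → V → ℝ := fun x y _ => 1 / (cod G G x y : ℝ) with hk
  have k1 : tri3 G k ≤ ((dar G).card : ℝ) := tri3_inv G
  have k2 : tri3 G k = tri3 G (fun x y z => k y z x) := tri3_rot G k
  have k3 : tri3 G k = tri3 G (fun x y z => k z x y) := by
    rw [k2, tri3_rot]
  have key : tri3 G (fun x y z => 3 / 5 * 1 + (-1 / 5) * ((k x y z + k y z x) + k z x y)) ≤
      tri3 G (fun x y z => (f x y z + f y z x) + f z x y) := by
    apply tri3_mono
    intro x y z hxy hxz hyz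
    have p1 : (1 : ℝ) ≤ (cod G G y z : ℝ) := by exact_mod_cast cod_pos_of_lk hxy hxz
    have p2 : (1 : ℝ) ≤ (cod G G z x : ℝ) := by exact_mod_cast cod_pos_of_lk hyz hxy.symm
    have p3 : (1 : ℝ) ≤ (cod G G x y : ℝ) := by exact_mod_cast cod_pos_of_lk hxz.symm hyz.symm
    have e1 : cod G G x z = cod G G z x := cod_comm G G x z
    have e2 : cod G G y x = cod G G x y := cod_comm G G y x
    have e3 : cod G G z y = cod G G y z := cod_comm G G z y
    have h := nesbitt_form (cod G G y z : ℝ) (cod G G z x : ℝ) (cod G G x y : ℝ) p1 p2 p3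
    simp only [hf, hk]
    rw [e1, e2, e3]
    linarith
  have q1 : tri3 G (fun x y z => (f x y z + f y z x) + f z x y) = tri3 G f + tri3 G f + tri3 G f := by
    rw [tri3_add G (fun x y z => f x y z + f y z x) (fun x y z => f z x y),
      tri3_add G (fun x y z => f x y z) (fun x y z => f y z x)]
    rw [← h2, ← h3]
  have q2 : tri3 G (fun x y z => (k x y z + k y z x) + k z x y) = tri3 G k + tri3 G k + tri3 G k := by
    rw [tri3_add G (fun x y z => k x y z + k y z x) (fun x y z => k z x y),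
      tri3_add G (fun x y z => k x y z) (fun x y z => k y z x)]
    rw [← k2, ← k3]
  have q3 : tri3 G (fun x y z => 3 / 5 * 1 + (-1 / 5) * ((k x y z + k y z x) + k z x y)) =
      3 / 5 * tri3 G (fun _ _ _ => 1) + (-1 / 5) * (tri3 G k + tri3 G k + tri3 G k) := by
    rw [tri3_add G (fun _ _ _ => 3 / 5 * 1) (fun x y z => (-1 / 5) * ((k x y z + k y z x) + k z x y)),
      tri3_mul G (3 / 5) (fun _ _ _ => 1),
      tri3_mul G (-1 / 5) (fun x y z => (k x y z + k y z x) + k z x y), q2]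
  rw [q1, q3] at key
  linarith

theorem first_dar {G : SimpleGraph V} {a : ℕ} (hG : Good G a) (t : ℕ)
    (ht : ∀ x c : V, c ≠ x → ∀ M : Finset (V × V), M ⊆ lk G x →
      (∀ e ∈ M, G.Adj c e.1 ∧ G.Adj c e.2) → (∀ e ∈ M, ∀ f ∈ M, e ≠ f → ¬ Shr e f) → M.card ≤ t) :
    ((dar G).card : ℝ) ≤ (1 + Real.sqrt (5 * t + 1)) * a * (Fintype.card V : ℝ) := by
  have ha : (0 : ℝ) ≤ a := Nat.cast_nonneg _
  have hn : (0 : ℝ) ≤ (Fintype.card V : ℝ) := Nat.cast_nonneg _
  have hs0 : 0 ≤ Real.sqrt (5 * t + 1) := Real.sqrt_nonneg _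
  have hs2 : Real.sqrt (5 * t + 1) ^ 2 = 5 * t + 1 := Real.sq_sqrt (by positivity)
  have h1 := tri_le G (t * a) (link_matching hG t ht)
  have h2 := turan_links hG
  set D : ℝ := ((dar G).card : ℝ) with hD
  set N : ℝ := (Fintype.card V : ℝ) with hN
  set s : ℝ := Real.sqrt (5 * t + 1) with hs
  have h3 : D ^ 2 ≤ N * a * (5 * (N * (t * a)) + D + D) := by
    refine h2.trans ?_
    apply mul_le_mul_of_nonneg_left _ (by positivity)
    linarith
  have h4 : (D - N * a) ^ 2 ≤ (s * (N * a)) ^ 2 := by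
    have : (s * (N * a)) ^ 2 = (5 * t + 1) * (N * a) ^ 2 := by rw [mul_pow, hs2]
    rw [this]
    nlinarith
  have h5 : D - N * a ≤ s * (N * a) :=
    (le_abs_self _).trans (abs_le_of_sq_le_sq h4 (by positivity))
  nlinarith

theorem first_bound {G : SimpleGraph V} {a : ℕ} (hG : Good G a) (t : ℕ)
    (ht : ∀ x c : V, c ≠ x → ∀ M : Finset (V × V), M ⊆ lk G x →
      (∀ e ∈ M, G.Adj c e.1 ∧ G.Adj c e.2) → (∀ e ∈ M, ∀ f ∈ M, e ≠ f → ¬ Shr e f) → M.card ≤ t) :
    (Fintype.card V : ℝ) ≤ (1 + Real.sqrt (5 * t + 1)) * (a : ℝ) ^ 2 + a := by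
  have hs0 : 0 ≤ Real.sqrt (5 * t + 1) := Real.sqrt_nonneg _
  exact fin_step hG _ (by linarith) (first_dar hG t ht)

end EH73
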