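import Pool.Agent.Work.MP_185d81_co.SpBase

/-!
# MP_185d81_co: bounded matchings in the common neighbourhoods, the inequality in one link
-/

namespace EH73

open Finset Classical

variable {V : Type} [Fintype V]

/-- from a bound for the number of darts to a bound for the number of vertices -/
theorem fin_step {G : SimpleGraph V} {a : ℕ} (hG : Good G a) (K : ℝ) (hK : 0 ≤ K)
    (hD : ((dar G).card : ℝ) ≤ K * a * (Fintype.card V : ℝ)) :
    (Fintype.card V : ℝ) ≤ K * (a : ℝ) ^ 2 + a := by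
  have h := sq_le hG.ind
  have h' : (Fintype.card V : ℝ) ^ 2 ≤ a * (((dar G).card : ℝ) + Fintype.card V) := by
    exact_mod_cast h
  have ha : (0 : ℝ) ≤ a := Nat.cast_nonneg _
  rcases Nat.eq_zero_or_pos (Fintype.card V) with h0 | hpos
  · rw [h0]
    push_cast
    positivity
  · have hn : (0 : ℝ) < (Fintype.card V : ℝ) := by exact_mod_cast hpos
    have h1 : (Fintype.card V : ℝ) * (Fintype.card V : ℝ) ≤
        (Fintype.card V : ℝ) * (K * a ^ 2 + a) := by
      calc (Fintype.card V : ℝ) * (Fintype.card V : ℝ) = (Fintype.card V : ℝ) ^ 2 := by ring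
        _ ≤ a * (((dar G).card : ℝ) + Fintype.card V) := h'
        _ ≤ a * (K * a * (Fintype.card V : ℝ) + Fintype.card V) := by
            apply mul_le_mul_of_nonneg_left _ ha
            linarith
        _ = (Fintype.card V : ℝ) * (K * a ^ 2 + a) := by ring
    exact le_of_mul_le_mul_left h1 hn

theorem cod_pos_of_lk {G : SimpleGraph V} {x y z : V} (hxy : G.Adj x y) (hxz : G.Adj x z) :
    1 ≤ cod G G y z := by
  apply Finset.card_pos.mpr
  exact ⟨x, mem_cn.mpr ⟨hxy.symm, hxz.symm⟩⟩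

/-- the number of further common neighbours -/
theorem card_far (G : SimpleGraph V) {x : V} {e : V × V} (he : e ∈ lk G x) :
    ((univ.filter fun c => c ≠ x ∧ G.Adj c e.1 ∧ G.Adj c e.2).card : ℝ) =
      (cod G G e.1 e.2 : ℝ) - 1 := by
  have h := mem_lk.mp he
  have h1 : (univ.filter fun c => c ≠ x ∧ G.Adj c e.1 ∧ G.Adj c e.2) =
      (cn G G e.1 e.2).erase x := by
    ext c
    simp only [Finset.mem_filter, Finset.mem_univ, true_and, Finset.mem_erase, mem_cn]
    constructor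
    · rintro ⟨h1, h2, h3⟩
      exact ⟨h1, h2.symm, h3.symm⟩
    · rintro ⟨h1, h2, h3⟩
      exact ⟨h1, h2.symm, h3.symm⟩
  have h2 : x ∈ cn G G e.1 e.2 := mem_cn.mpr ⟨h.1.symm, h.2.1.symm⟩
  rw [h1, Finset.card_erase_of_mem h2]
  have h3 : 1 ≤ cod G G e.1 e.2 := cod_pos_of_lk h.1 h.2.1
  unfold cod at h3 ⊢
  rw [Nat.cast_sub h3]
  simp

/-- the pairs `(c, e)` with `c` a further common neighbour of the ends of `e` -/
def I1 (G : SimpleGraph V) (x : V) (e : V × V) (q : V × (V × V)) : Prop :=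
  q.2 = e ∧ q.1 ≠ x ∧ G.Adj q.1 e.1 ∧ G.Adj q.1 e.2

omit [Fintype V] in
theorem mem_I1 {G : SimpleGraph V} {x : V} {e : V × V} {q : V × (V × V)} :
    I1 G x e q ↔ q.2 = e ∧ q.1 ≠ x ∧ G.Adj q.1 e.1 ∧ G.Adj q.1 e.2 := Iff.rfl

theorem card_I1 {G : SimpleGraph V} {x : V} {e : V × V} (he : e ∈ lk G x) :
    ((univ.filter fun q => I1 G x e q).card : ℝ) = (cod G G e.1 e.2 : ℝ) - 1 := by
  rw [← card_far G he]
  congr 1
  apply Finset.card_bij (fun q _ => q.1)
  · intro q hq
    rw [Finset.mem_filter, mem_I1] at hq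
    simp only [Finset.mem_filter, Finset.mem_univ, true_and]
    exact hq.2.2
  · intro q hq q' hq' h
    rw [Finset.mem_filter, mem_I1] at hq hq'
    exact Prod.ext h (hq.2.1.trans hq'.2.1.symm)
  · intro c hc
    simp only [Finset.mem_filter, Finset.mem_univ, true_and] at hc
    exact ⟨(c, e), Finset.mem_filter.mpr ⟨Finset.mem_univ _, mem_I1.mpr ⟨rfl, hc⟩⟩, rfl⟩

theorem lhs_one (G : SimpleGraph V) (x : V) :
    ∑ p ∈ lk G x, ((cod G G p.1 p.2 : ℝ) - 1) /
      (2 * (cod G G x p.1 : ℝ) + 2 * (cod G G x p.2 : ℝ) + 1) ≤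
      ∑ p ∈ (lk G x ×ˢ univ).filter (fun p => I1 G x p.1 p.2),
        (1 : ℝ) / ((((lk G x).filter fun f => I1 G x f p.2).card : ℝ) +
          (((lk G x).filter fun f => Shr p.1 f).card : ℝ)) := by
  rw [Finset.sum_filter, Finset.sum_product]
  apply Finset.sum_le_sum
  intro e he
  rw [← card_I1 he, ← Finset.sum_filter]
  rw [div_eq_mul_inv, ← nsmul_eq_mul, ← Finset.sum_const]
  apply Finset.sum_le_sum
  intro q hq
  simp only
  rw [one_div]
  apply inv_anti₀
  · have h2 : 0 < ((lk G x).filter fun f => Shr e f).card :=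
      Finset.card_pos.mpr ⟨e, Finset.mem_filter.mpr ⟨he, Shr.refl e⟩⟩
    have h3 : (0 : ℝ) < (((lk G x).filter fun f => Shr e f).card : ℝ) := by exact_mod_cast h2
    positivity
  · have h4 : ((lk G x).filter fun f => I1 G x f q).card ≤ 1 := by
      rw [Finset.card_le_one]
      intro f hf g hg
      rw [Finset.mem_filter, mem_I1] at hf hg
      exact hf.2.1.symm.trans hg.2.1
    have h5 := deg_shr G x e
    have h4' : (((lk G x).filter fun f => I1 G x f q).card : ℝ) ≤ 1 := by exact_mod_cast h4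
    have h5' : (((lk G x).filter fun f => Shr e f).card : ℝ) ≤
        2 * (cod G G x e.1 : ℝ) + 2 * (cod G G x e.2 : ℝ) := by exact_mod_cast h5
    linarith

/-- the general inequality at one vertex: a bound for all matchings of the link bounds a weighted sum over
the link -/
theorem link_gen (G : SimpleGraph V) (x : V) (B : ℝ)
    (hB : ∀ M : Finset (V × V), M ⊆ lk G x → (∀ e ∈ M, ∀ f ∈ M, e ≠ f → ¬ Shr e f) →
      ∑ e ∈ M, ((cod G G e.1 e.2 : ℝ) - 1) ≤ B) :
    ∑ p ∈ lk G x, ((cod G G p.1 p.2 : ℝ) - 1) /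
      (2 * (cod G G x p.1 : ℝ) + 2 * (cod G G x p.2 : ℝ) + 1) ≤ B := by
  obtain ⟨M, hM, hMi, hsum⟩ := cover_caro_wei Shr Shr.refl Shr.symm' (I1 G x) (lk G x) univ
  have hrhs : ((univ : Finset (V × (V × V))).filter fun c => ∃ e ∈ M, I1 G x e c).card ≤
      ∑ e ∈ M, (univ.filter fun q => I1 G x e q).card := by
    refine le_trans (Finset.card_le_card ?_) Finset.card_biUnion_le
    intro c hc
    rw [Finset.mem_filter] at hc
    obtain ⟨_, e, he, hce⟩ := hc
    rw [Finset.mem_biUnion]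
    exact ⟨e, he, Finset.mem_filter.mpr ⟨Finset.mem_univ _, hce⟩⟩
  have hrhs' : (((univ : Finset (V × (V × V))).filter fun c => ∃ e ∈ M, I1 G x e c).card : ℝ) ≤
      ∑ e ∈ M, ((cod G G e.1 e.2 : ℝ) - 1) := by
    calc _ ≤ ((∑ e ∈ M, (univ.filter fun q => I1 G x e q).card : ℕ) : ℝ) := by exact_mod_cast hrhs
      _ = ∑ e ∈ M, ((univ.filter fun q => I1 G x e q).card : ℝ) := by push_cast; rfl
      _ = _ := Finset.sum_congr rfl fun e he => card_I1 (hM he)
  exact (lhs_one G x).trans (hsum.trans (hrhs'.trans (hB M hM hMi)))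

/-- the number of edges of `M` in the neighbourhood of `c` -/
noncomputable def mlt (G : SimpleGraph V) (M : Finset (V × V)) (c : V) : ℕ :=
  (M.filter fun e => G.Adj c e.1 ∧ G.Adj c e.2).card

/-- double counting of the pairs (tip, spine) -/
theorem sum_mlt (G : SimpleGraph V) (x : V) (M : Finset (V × V)) (hM : M ⊆ lk G x) :
    ∑ e ∈ M, ((cod G G e.1 e.2 : ℝ) - 1) =
      ∑ c ∈ univ.filter (fun c => c ≠ x ∧ ∃ e ∈ M, G.Adj c e.1 ∧ G.Adj c e.2), (mlt G M c : ℝ) := by
  have h1 : ∑ e ∈ M, ((cod G G e.1 e.2 : ℝ) - 1) =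
      ∑ e ∈ M, ∑ c : V, (if c ≠ x ∧ G.Adj c e.1 ∧ G.Adj c e.2 then (1 : ℝ) else 0) := by
    apply Finset.sum_congr rfl
    intro e he
    rw [← card_far G (hM he), Finset.card_filter]
    push_cast
    rfl
  rw [h1, Finset.sum_comm]
  rw [Finset.sum_filter]
  apply Finset.sum_congr rfl
  intro c _
  by_cases hcx : c = x
  · rw [if_neg (fun h => h.1 hcx)]
    apply Finset.sum_eq_zero
    intro e _
    rw [if_neg (fun h => h.1 hcx)]
  · by_cases hex : ∃ e ∈ M, G.Adj c e.1 ∧ G.Adj c e.2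
    · rw [if_pos ⟨hcx, hex⟩]
      unfold mlt
      rw [Finset.card_filter]
      push_cast
      apply Finset.sum_congr rfl
      intro e _
      by_cases h : G.Adj c e.1 ∧ G.Adj c e.2
      · rw [if_pos ⟨hcx, h⟩, if_pos h]
      · rw [if_neg (fun h' => h h'.2), if_neg h]
    · rw [if_neg (fun h => hex h.2)]
      apply Finset.sum_eq_zero
      intro e he
      rw [if_neg]
      intro h
      exact hex ⟨e, he, h.2⟩

/-- the matching inequality at one vertex -/
theorem link_matching {G : SimpleGraph V} {a : ℕ} (hG : Good G a) (t : ℕ)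
    (ht : ∀ x c : V, c ≠ x → ∀ M : Finset (V × V), M ⊆ lk G x →
      (∀ e ∈ M, G.Adj c e.1 ∧ G.Adj c e.2) → (∀ e ∈ M, ∀ f ∈ M, e ≠ f → ¬ Shr e f) → M.card ≤ t)
    (x : V) :
    ∑ p ∈ lk G x, ((cod G G p.1 p.2 : ℝ) - 1) /
      (2 * (cod G G x p.1 : ℝ) + 2 * (cod G G x p.2 : ℝ) + 1) ≤ t * a := by
  apply link_gen
  intro M hM hMi
  rw [sum_mlt G x M hM]
  have hU : ((univ.filter fun c => c ≠ x ∧ ∃ e ∈ M, G.Adj c e.1 ∧ G.Adj c e.2).card : ℝ) ≤ a := by
    exact_mod_cast union_le hG x M hM hMi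
  calc _ ≤ ∑ _c ∈ univ.filter (fun c => c ≠ x ∧ ∃ e ∈ M, G.Adj c e.1 ∧ G.Adj c e.2), (t : ℝ) := by
        apply Finset.sum_le_sum
        intro c hc
        rw [Finset.mem_filter] at hc
        have := ht x c hc.2.1 (M.filter fun e => G.Adj c e.1 ∧ G.Adj c e.2)
          ((Finset.filter_subset _ _).trans hM)
          (fun f hf => (Finset.mem_filter.mp hf).2)
          (fun f hf g hg => hMi f (Finset.mem_filter.mp hf).1 g (Finset.mem_filter.mp hg).1)
        unfold mlt
        exact_mod_cast this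
    _ = ((univ.filter fun c => c ≠ x ∧ ∃ e ∈ M, G.Adj c e.1 ∧ G.Adj c e.2).card : ℝ) * t := by
        rw [Finset.sum_const, nsmul_eq_mul]
    _ ≤ a * t := mul_le_mul_of_nonneg_right hU (Nat.cast_nonneg _)
    _ = t * a := by ring

/-- Nesbitt's inequality in the form used here -/
theorem nesbitt_form (p q r : ℝ) (hp : 1 ≤ p) (hq : 1 ≤ q) (hr : 1 ≤ r) :
    3 / 5 - 1 / 5 * (1 / p + 1 / q + 1 / r) ≤
      (p - 1) / (2 * r + 2 * q + 1) + (q - 1) / (2 * p + 2 * r + 1) +
        (r - 1) / (2 * q + 2 * p + 1) := by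
  have hp0 : 0 < p := by linarith
  have hq0 : 0 < q := by linarith
  have hr0 : 0 < r := by linarith
  -- `1 / (2(q+r)+1) ≥ (2/5) / (q+r)`
  have key : ∀ u v w : ℝ, 1 ≤ u → 1 ≤ v → 1 ≤ w →
      2 / 5 * ((u - 1) / (v + w)) ≤ (u - 1) / (2 * w + 2 * v + 1) := by
    intro u v w hu hv hw
    rw [← mul_div_assoc, div_le_div_iff₀ (by linarith) (by linarith)]
    nlinarith [mul_nonneg (sub_nonneg.mpr hu) (by linarith : (0 : ℝ) ≤ v + w - 2)]
  have h1 := key p q r hp hq hr
  have h2 := key q r p hq hr hp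
  have h3 := key r p q hr hp hq
  have nes : (3 : ℝ) / 2 ≤ p / (q + r) + q / (r + p) + r / (p + q) := by
    have e1 : p / (q + r) + q / (r + p) + r / (p + q) - 3 / 2 =
        ((p - q) ^ 2 * (p + q) + (q - r) ^ 2 * (q + r) + (r - p) ^ 2 * (r + p)) /
          (2 * ((q + r) * (r + p) * (p + q))) := by
      field_simp
      ring
    have e2 : 0 ≤ ((p - q) ^ 2 * (p + q) + (q - r) ^ 2 * (q + r) + (r - p) ^ 2 * (r + p)) /
          (2 * ((q + r) * (r + p) * (p + q))) := by positivity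
    linarith
  have am : ∀ u v : ℝ, 0 < u → 0 < v → 1 / (u + v) ≤ 1 / 4 * (1 / u + 1 / v) := by
    intro u v hu hv
    have e3 : 1 / 4 * (1 / u + 1 / v) - 1 / (u + v) = (u - v) ^ 2 / (4 * (u * v * (u + v))) := by
      field_simp
      ring
    have e4 : 0 ≤ (u - v) ^ 2 / (4 * (u * v * (u + v))) := by positivity
    linarith
  have a1 := am q r hq0 hr0
  have a2 := am r p hr0 hp0
  have a3 := am p q hp0 hq0
  have s1 : (p - 1) / (q + r) = p / (q + r) - 1 / (q + r) := by rw [sub_div]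
  have s2 : (q - 1) / (r + p) = q / (r + p) - 1 / (r + p) := by rw [sub_div]
  have s3 : (r - 1) / (p + q) = r / (p + q) - 1 / (p + q) := by rw [sub_div]
  rw [s1] at h1
  rw [s2] at h2
  rw [s3] at h3
  linarith

end EH73
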