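import Pool.Agent.Work.MP_185d81_co.SpOne

/-!
# MP_185d81_co: an exact sampling inequality
-/

namespace EH73

open Finset Classical

/-- Random order argument, done greedily: `z` is kept when the first element of `S_z ∪ C_z` is in `S_z`. -/
theorem exact_sampling {V β : Type} (G : SimpleGraph V) (S C : V → β → Prop) (A : Finset V)
    (B : Finset β) (hSC : ∀ z ∈ A, ∀ z' ∈ A, G.Adj z z' → ∀ x ∈ B, S z x → C z' x)
    (hdisj : ∀ z ∈ A, ∀ x ∈ B, S z x → C z x → False) :
    ∃ J : Finset V, J ⊆ A ∧ G.IsIndepSet (J : Set V) ∧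
      ∑ z ∈ A, ((B.filter fun x => S z x).card : ℝ) /
        (((B.filter fun x => S z x).card : ℝ) + ((B.filter fun x => C z x).card : ℝ)) ≤
        (J.card : ℝ) := by
  induction' hn : B.card using Nat.strong_induction_on with n ih generalizing A B
  rcases Finset.eq_empty_or_nonempty B with rfl | hne
  · exact ⟨∅, by simp, by intro x hx; simp at hx, by simp⟩
  set w : V → ℝ := fun z => ((B.filter fun x => S z x).card : ℝ) /
        (((B.filter fun x => S z x).card : ℝ) + ((B.filter fun x => C z x).card : ℝ)) with hw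
  have hw0 : ∀ z, 0 ≤ w z := fun z => by
    rw [hw]
    positivity
  have hsum : ∑ x ∈ B, ∑ z ∈ A.filter (fun z => S z x ∨ C z x), w z ≤
      ∑ x ∈ B, ((A.filter fun z => S z x).card : ℝ) := by
    have h1 : ∑ x ∈ B, ∑ z ∈ A.filter (fun z => S z x ∨ C z x), w z =
        ∑ z ∈ A, ((B.filter fun x => S z x ∨ C z x).card : ℝ) * w z := by
      simp_rw [Finset.sum_filter]
      rw [Finset.sum_comm]
      apply Finset.sum_congr rfl
      intro z _
      rw [← Finset.sum_filter, Finset.sum_const, nsmul_eq_mul]
    have h2 : ∑ x ∈ B, ((A.filter fun z => S z x).card : ℝ) =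
        ∑ z ∈ A, ((B.filter fun x => S z x).card : ℝ) := by
      have h3 : ∀ x ∈ B, ((A.filter fun z => S z x).card : ℝ) =
          ∑ z ∈ A, (if S z x then (1 : ℝ) else 0) := by
        intro x _
        rw [Finset.card_filter]
        push_cast
        rfl
      have h4 : ∀ z ∈ A, ((B.filter fun x => S z x).card : ℝ) =
          ∑ x ∈ B, (if S z x then (1 : ℝ) else 0) := by
        intro x _
        rw [Finset.card_filter]
        push_cast
        rfl
      rw [Finset.sum_congr rfl h3, Finset.sum_congr rfl h4, Finset.sum_comm]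
    rw [h1, h2]
    apply Finset.sum_le_sum
    intro z _
    have h5 : (B.filter fun x => S z x ∨ C z x).card ≤
        (B.filter fun x => S z x).card + (B.filter fun x => C z x).card := by
      rw [Finset.filter_or]
      exact Finset.card_union_le _ _
    have h6 : ((B.filter fun x => S z x ∨ C z x).card : ℝ) ≤
        ((B.filter fun x => S z x).card : ℝ) + ((B.filter fun x => C z x).card : ℝ) := by
      exact_mod_cast h5
    have hS0 : (0 : ℝ) ≤ ((B.filter fun x => S z x).card : ℝ) := Nat.cast_nonneg _
    have hC0 : (0 : ℝ) ≤ ((B.filter fun x => C z x).card : ℝ) := Nat.cast_nonneg _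
    calc ((B.filter fun x => S z x ∨ C z x).card : ℝ) * w z
        ≤ (((B.filter fun x => S z x).card : ℝ) + ((B.filter fun x => C z x).card : ℝ)) * w z :=
          mul_le_mul_of_nonneg_right h6 (hw0 z)
      _ ≤ ((B.filter fun x => S z x).card : ℝ) := by
          rcases eq_or_ne (((B.filter fun x => S z x).card : ℝ) + ((B.filter fun x => C z x).card : ℝ)) 0
            with h | h
          · rw [h, zero_mul]
            exact hS0
          · rw [hw]
            simp only
            rw [mul_div_cancel₀ _ h]
  obtain ⟨x, hx, hloss⟩ := Finset.exists_le_of_sum_le hne hsum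
  set A' : Finset V := A.filter fun z => ¬ (S z x ∨ C z x) with hA'
  set B' : Finset β := B.filter fun y => y ≠ x with hB'
  have hA'A : A' ⊆ A := Finset.filter_subset _ _
  have hB'B : B' ⊆ B := Finset.filter_subset _ _
  have hlt : B'.card < n := by
    rw [← hn]
    apply Finset.card_lt_card
    rw [Finset.ssubset_iff_of_subset hB'B]
    exact ⟨x, hx, by simp [hB']⟩
  obtain ⟨J', hJ'A, hJ'i, hJ's⟩ := ih _ hlt A' B'
    (fun z hz z' hz' h y hy hS => hSC z (hA'A hz) z' (hA'A hz') h y (hB'B hy) hS)
    (fun z hz y hy h1 h2 => hdisj z (hA'A hz) y (hB'B hy) h1 h2) rfl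
  refine ⟨A.filter (fun z => S z x) ∪ J', ?_, ?_, ?_⟩
  · exact Finset.union_subset (Finset.filter_subset _ _) (hJ'A.trans hA'A)
  · intro z hz z' hz' hne' hadj
    rw [Finset.mem_coe, Finset.mem_union] at hz hz'
    rcases hz with hz | hz
    · rw [Finset.mem_filter] at hz
      rcases hz' with hz' | hz'
      · rw [Finset.mem_filter] at hz'
        exact hdisj z' hz'.1 x hx hz'.2 (hSC z hz.1 z' hz'.1 hadj x hx hz.2)
      · have h1 := Finset.mem_filter.mp (hJ'A hz')
        exact h1.2 (Or.inr (hSC z hz.1 z' h1.1 hadj x hx hz.2))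
    · rcases hz' with hz' | hz'
      · rw [Finset.mem_filter] at hz'
        have h1 := Finset.mem_filter.mp (hJ'A hz)
        exact h1.2 (Or.inr (hSC z' hz'.1 z h1.1 hadj.symm x hx hz'.2))
      · exact hJ'i (by exact_mod_cast hz) (by exact_mod_cast hz') hne' hadj
  · have hdj : Disjoint (A.filter fun z => S z x) J' := by
      rw [Finset.disjoint_left]
      intro z hz hz'
      exact (Finset.mem_filter.mp (hJ'A hz')).2 (Or.inl (Finset.mem_filter.mp hz).2)
    rw [Finset.card_union_of_disjoint hdj]
    push_cast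
    have hsplit : ∑ z ∈ A, w z = ∑ z ∈ A.filter (fun z => S z x ∨ C z x), w z + ∑ z ∈ A', w z := by
      rw [hA', Finset.sum_filter_add_sum_filter_not]
    have hsame : ∑ z ∈ A', w z ≤ (J'.card : ℝ) := by
      refine le_trans (le_of_eq ?_) hJ's
      apply Finset.sum_congr rfl
      intro z hz
      have hz' := (Finset.mem_filter.mp hz).2
      have e1 : (B.filter fun x => S z x) = (B'.filter fun x => S z x) := by
        ext y
        simp only [hB', Finset.mem_filter]
        constructor
        · rintro ⟨h1, h2⟩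
          refine ⟨⟨h1, ?_⟩, h2⟩
          rintro rfl
          exact hz' (Or.inl h2)
        · rintro ⟨⟨h1, _⟩, h2⟩
          exact ⟨h1, h2⟩
      have e2 : (B.filter fun x => C z x) = (B'.filter fun x => C z x) := by
        ext y
        simp only [hB', Finset.mem_filter]
        constructor
        · rintro ⟨h1, h2⟩
          refine ⟨⟨h1, ?_⟩, h2⟩
          rintro rfl
          exact hz' (Or.inr h2)
        · rintro ⟨⟨h1, _⟩, h2⟩
          exact ⟨h1, h2⟩
      rw [hw]
      simp only
      rw [e1, e2]
    calc ∑ z ∈ A, w z = _ := hsplit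
      _ ≤ ((A.filter fun z => S z x).card : ℝ) + (J'.card : ℝ) := add_le_add hloss hsame

variable {V : Type} [Fintype V]

/-- `u`, `x` and `z` have a common neighbour -/
def Cfar (G : SimpleGraph V) (u z x : V) : Prop := ∃ w, G.Adj u w ∧ G.Adj x w ∧ G.Adj z w

/-- the far set of the edge `uz`, seen from `z`: the `x ∈ N(u)` with a common neighbour of `u, x, z` -/
noncomputable def far (G : SimpleGraph V) (u z : V) : ℕ :=
  (univ.filter fun x => G.Adj u x ∧ Cfar G u z x).card

theorem link_sampling {G : SimpleGraph V} {a : ℕ} (hG : Good G a) (u : V) :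
    ∑ z ∈ univ.filter (fun z => G.Adj u z), (cod G G u z : ℝ) / ((cod G G u z : ℝ) + (far G u z : ℝ)) ≤
      a := by
  obtain ⟨J, _, hJi, hJ⟩ := exact_sampling G (fun z x => G.Adj z x) (fun z x => Cfar G u z x)
    (univ.filter fun z => G.Adj u z) (univ.filter fun x => G.Adj u x)
    (by
      intro z hz z' _ hzz' x _ hzx
      exact ⟨z, (Finset.mem_filter.mp hz).2, hzx.symm, hzz'.symm⟩)
    (by
      rintro z hz x hx hzx ⟨w, huw, hxw, hzw⟩
      exact hG.k4 u x z w (Finset.mem_filter.mp hx).2 (Finset.mem_filter.mp hz).2 huw hzx.symm hxw hzw)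
  have hJa : (J.card : ℝ) ≤ a := by exact_mod_cast hG.ind J hJi
  refine le_trans (le_of_eq ?_) (hJ.trans hJa)
  apply Finset.sum_congr rfl
  intro z _
  have e1 : ((univ.filter fun x => G.Adj u x).filter fun x => G.Adj z x).card = cod G G u z := by
    unfold cod cn
    rw [Finset.filter_filter]
  have e2 : ((univ.filter fun x => G.Adj u x).filter fun x => Cfar G u z x).card = far G u z := by
    unfold far
    rw [Finset.filter_filter]
  rw [e1, e2]

end EH73
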