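import Pool.Agent.Work.MP_185d81_co.SpSamp
import Pool.Agent.Work.MP_185d81_co.SpSecond

/-!
# MP_185d81_co: graphs in which no edge lies in many more triangles than the average edge
-/

namespace EH73

open Finset Classical

variable {V : Type} [Fintype V]

/-- the number of `u ∈ N(z) ∩ N(x)` with a neighbour in `N(z) ∩ N(x)` -/
noncomputable def wp (G : SimpleGraph V) (z x : V) : ℕ :=
  (univ.filter fun u => G.Adj u z ∧ G.Adj u x ∧ Cfar G u z x).card

/-- the number of ordered edges in `N(z) ∩ N(c)`, `c ≠ z` -/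
noncomputable def Ee (G : SimpleGraph V) (z c : V) : ℕ := ((lk G z).filter fun e => I2 G z e c).card

theorem wp_self (G : SimpleGraph V) (z : V) : wp G z z ≤ (univ.filter fun u => G.Adj z u).card := by
  unfold wp
  apply Finset.card_le_card
  intro u hu
  rw [Finset.mem_filter] at hu ⊢
  exact ⟨Finset.mem_univ _, hu.2.1.symm⟩

theorem wp_le (G : SimpleGraph V) {z x : V} (hxz : x ≠ z) : wp G z x ≤ Ee G z x := by
  unfold wp Ee
  have h : (univ.filter fun u => G.Adj u z ∧ G.Adj u x ∧ Cfar G u z x) ⊆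
      ((lk G z).filter fun e => I2 G z e x).image Prod.fst := by
    intro u hu
    rw [Finset.mem_filter] at hu
    obtain ⟨_, huz, hux, w, huw, hxw, hzw⟩ := hu
    rw [Finset.mem_image]
    refine ⟨(u, w), ?_, rfl⟩
    rw [Finset.mem_filter, mem_lk]
    exact ⟨⟨huz.symm, hzw, huw⟩, hxz, hux.symm, hxw⟩
  exact (Finset.card_le_card h).trans Finset.card_image_le

theorem wp_sq {G : SimpleGraph V} {a : ℕ} (hG : Good G a) {z x : V} (hxz : x ≠ z) :
    (wp G z x : ℝ) ^ 2 ≤ a * ((Ee G z x : ℝ) + (wp G z x : ℝ)) := by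
  have h := turan_sq hG.ind (univ.filter fun u => G.Adj u z ∧ G.Adj u x ∧ Cfar G u z x)
  have h2 : (((univ.filter fun u => G.Adj u z ∧ G.Adj u x ∧ Cfar G u z x) ×ˢ
      (univ.filter fun u => G.Adj u z ∧ G.Adj u x ∧ Cfar G u z x)).filter
        fun p => G.Adj p.1 p.2).card ≤ Ee G z x := by
    unfold Ee
    apply Finset.card_le_card
    intro p hp
    rw [Finset.mem_filter, Finset.mem_product] at hp
    obtain ⟨⟨hp1, hp2⟩, hadj⟩ := hp
    rw [Finset.mem_filter] at hp1 hp2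
    rw [Finset.mem_filter, mem_lk]
    exact ⟨⟨hp1.2.1.symm, hp2.2.1.symm, hadj⟩, hxz, hp1.2.2.1.symm, hp2.2.2.1.symm⟩
  have h3 : (wp G z x) ^ 2 ≤ a * (Ee G z x + wp G z x) := by
    refine h.trans ?_
    exact Nat.mul_le_mul_left a (Nat.add_le_add_right h2 _)
  exact_mod_cast h3

/-- the covering inequality at one vertex when all codegrees of adjacent pairs are at most `κ` -/
theorem cover_sixth {G : SimpleGraph V} {a : ℕ} (hG : Good G a) (κ : ℝ)
    (hκ : ∀ y z : V, G.Adj y z → (cod G G y z : ℝ) ≤ κ) (z : V) :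
    ∑ c : V, (Ee G z c : ℝ) / ((Ee G z c : ℝ) + 4 * κ) ≤ a := by
  obtain ⟨M, hM, hMi, hsum⟩ := cover_caro_wei Shr Shr.refl Shr.symm' (I2 G z) (lk G z) univ
  have hrhs : ((univ : Finset V).filter fun c => ∃ e ∈ M, I2 G z e c).card ≤ a := by
    refine le_trans (Finset.card_le_card ?_) (union_le hG z M hM hMi)
    intro c hc
    simp only [Finset.mem_filter, Finset.mem_univ, true_and] at hc ⊢
    obtain ⟨e, he, hqe⟩ := hc
    exact ⟨hqe.1, e, he, hqe.2⟩
  have hrhs' : (((univ : Finset V).filter fun c => ∃ e ∈ M, I2 G z e c).card : ℝ) ≤ a := by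
    exact_mod_cast hrhs
  refine le_trans ?_ (hsum.trans hrhs')
  rw [Finset.sum_filter, Finset.sum_product_right]
  apply Finset.sum_le_sum
  intro c _
  rw [← Finset.sum_filter]
  have hEe : (Ee G z c : ℝ) = (((lk G z).filter fun e => I2 G z e c).card : ℝ) := rfl
  rw [hEe, div_eq_mul_inv, ← nsmul_eq_mul, ← Finset.sum_const]
  apply Finset.sum_le_sum
  intro e he
  rw [Finset.mem_filter] at he
  simp only
  rw [one_div]
  apply inv_anti₀
  · have h2 : 0 < ((lk G z).filter fun f => Shr e f).card :=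
      Finset.card_pos.mpr ⟨e, Finset.mem_filter.mpr ⟨he.1, Shr.refl e⟩⟩
    have h3 : (0 : ℝ) < (((lk G z).filter fun f => Shr e f).card : ℝ) := by exact_mod_cast h2
    positivity
  · have h5 := deg_shr G z e
    have h5' : (((lk G z).filter fun f => Shr e f).card : ℝ) ≤
        2 * (cod G G z e.1 : ℝ) + 2 * (cod G G z e.2 : ℝ) := by exact_mod_cast h5
    have he' := mem_lk.mp he.1
    have h6 := hκ z e.1 he'.1
    have h7 := hκ z e.2 he'.2.1
    linarith

theorem sum_Ee (G : SimpleGraph V) (κ : ℝ)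
    (hκ : ∀ y z : V, G.Adj y z → (cod G G y z : ℝ) ≤ κ) (z : V) :
    ∑ c : V, (Ee G z c : ℝ) ≤ κ * ((lk G z).card : ℝ) := by
  have h1 : ∑ c : V, (Ee G z c : ℝ) =
      ∑ e ∈ lk G z, ∑ c : V, (if I2 G z e c then (1 : ℝ) else 0) := by
    rw [Finset.sum_comm]
    apply Finset.sum_congr rfl
    intro c _
    unfold Ee
    rw [Finset.card_filter]
    push_cast
    rfl
  rw [h1]
  calc ∑ e ∈ lk G z, ∑ c : V, (if I2 G z e c then (1 : ℝ) else 0) ≤ ∑ _e ∈ lk G z, κ := by
        apply Finset.sum_le_sum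
        intro e he
        have h2 := card_far G he
        have h3 : ∑ c : V, (if I2 G z e c then (1 : ℝ) else 0) =
            ((univ.filter fun c => c ≠ z ∧ G.Adj c e.1 ∧ G.Adj c e.2).card : ℝ) := by
          rw [Finset.card_filter]
          push_cast
          apply Finset.sum_congr rfl
          intro c _
          exact if_congr Iff.rfl rfl rfl
        rw [h3, h2]
        have := hκ e.1 e.2 (mem_lk.mp he).2.2
        linarith
    _ = κ * ((lk G z).card : ℝ) := by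
        rw [Finset.sum_const, nsmul_eq_mul, mul_comm]

/-- the Cauchy-Schwarz step at one vertex -/
theorem star_real {ι : Type} (S : Finset ι) (w E : ι → ℝ) (a K : ℝ) (ha : 0 ≤ a) (hK : 0 ≤ K)
    (hw : ∀ i ∈ S, 0 ≤ w i) (hwE : ∀ i ∈ S, w i ≤ E i)
    (hw2 : ∀ i ∈ S, w i ^ 2 ≤ a * (E i + w i)) (hE : ∑ i ∈ S, E i / (E i + K) ≤ a) :
    (∑ i ∈ S, w i) ^ 2 ≤ a * (2 * a * ∑ i ∈ S, E i + K * ∑ i ∈ S, w i) := by
  have hE0 : ∀ i ∈ S, 0 ≤ E i := fun i hi => (hw i hi).trans (hwE i hi)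
  have h1 : (∑ i ∈ S, w i) ^ 2 ≤ (∑ i ∈ S, E i / (E i + K)) *
      ∑ i ∈ S, w i ^ 2 * (E i + K) / E i := by
    apply Finset.sum_sq_le_sum_mul_sum_of_sq_le_mul
    · intro i hi
      exact div_nonneg (hE0 i hi) (add_nonneg (hE0 i hi) hK)
    · intro i hi
      exact div_nonneg (mul_nonneg (sq_nonneg _) (add_nonneg (hE0 i hi) hK)) (hE0 i hi)
    · intro i hi
      rcases (hE0 i hi).eq_or_lt with h | h
      · have hw0 : w i = 0 := le_antisymm (by rw [h]; exact hwE i hi) (hw i hi)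
        rw [hw0, ← h]
        simp
      · have h2 : E i + K ≠ 0 := by linarith
        apply le_of_eq
        field_simp
  have h3 : ∑ i ∈ S, w i ^ 2 * (E i + K) / E i ≤ 2 * a * ∑ i ∈ S, E i + K * ∑ i ∈ S, w i := by
    rw [Finset.mul_sum, Finset.mul_sum, ← Finset.sum_add_distrib]
    apply Finset.sum_le_sum
    intro i hi
    rcases (hE0 i hi).eq_or_lt with h | h
    · have hw0 : w i = 0 := le_antisymm (by rw [h]; exact hwE i hi) (hw i hi)
      rw [hw0, ← h]
      simp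
    · rw [div_le_iff₀ h]
      have h4 := hw2 i hi
      have h5 := hwE i hi
      have h6 := hw i hi
      have h7 : w i ^ 2 * E i ≤ a * (E i + E i) * E i := by
        apply mul_le_mul_of_nonneg_right _ h.le
        refine h4.trans ?_
        apply mul_le_mul_of_nonneg_left _ ha
        linarith
      have h8 : w i ^ 2 * K ≤ w i * E i * K := by
        apply mul_le_mul_of_nonneg_right _ hK
        rw [sq]
        exact mul_le_mul_of_nonneg_left h5 h6
      nlinarith
  have h9 : 0 ≤ ∑ i ∈ S, w i ^ 2 * (E i + K) / E i :=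
    Finset.sum_nonneg fun i hi =>
      div_nonneg (mul_nonneg (sq_nonneg _) (add_nonneg (hE0 i hi) hK)) (hE0 i hi)
  calc (∑ i ∈ S, w i) ^ 2 ≤ _ := h1
    _ ≤ a * ∑ i ∈ S, w i ^ 2 * (E i + K) / E i := mul_le_mul_of_nonneg_right hE h9
    _ ≤ _ := mul_le_mul_of_nonneg_left h3 ha

/-- the sum of the far counts -/
theorem sum_far (G : SimpleGraph V) :
    ∑ u : V, ∑ z ∈ univ.filter (fun z => G.Adj u z), (far G u z : ℝ) ≤
      (dar G).card + ∑ z : V, ∑ x ∈ univ.filter (fun x => x ≠ z), (wp G z x : ℝ) := by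
  have h1 : ∑ u : V, ∑ z ∈ univ.filter (fun z => G.Adj u z), (far G u z : ℝ) =
      ∑ z : V, ∑ x : V, (wp G z x : ℝ) := by
    have e1 : ∀ u : V, ∑ z ∈ univ.filter (fun z => G.Adj u z), (far G u z : ℝ) =
        ∑ z : V, ∑ x : V, (if G.Adj u z ∧ G.Adj u x ∧ Cfar G u z x then (1 : ℝ) else 0) := by
      intro u
      rw [Finset.sum_filter]
      apply Finset.sum_congr rfl
      intro z _
      by_cases h : G.Adj u z
      · rw [if_pos h]
        unfold far
        rw [Finset.card_filter]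
        push_cast
        apply Finset.sum_congr rfl
        intro x _
        apply if_congr _ rfl rfl
        simp [h]
      · rw [if_neg h]
        symm
        apply Finset.sum_eq_zero
        intro x _
        rw [if_neg]
        intro h'
        exact h h'.1
    have e2 : ∀ z x : V, (wp G z x : ℝ) =
        ∑ u : V, (if G.Adj u z ∧ G.Adj u x ∧ Cfar G u z x then (1 : ℝ) else 0) := by
      intro z x
      unfold wp
      rw [Finset.card_filter]
      push_cast
      rfl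
    simp_rw [e1, e2]
    rw [Finset.sum_comm]
    apply Finset.sum_congr rfl
    intro z _
    rw [Finset.sum_comm]
  rw [h1]
  have h2 : ∀ z : V, ∑ x : V, (wp G z x : ℝ) ≤ ((univ.filter fun u => G.Adj z u).card : ℝ) +
      ∑ x ∈ univ.filter (fun x => x ≠ z), (wp G z x : ℝ) := by
    intro z
    rw [← Finset.sum_filter_add_sum_filter_not univ (fun x => x ≠ z)]
    rw [add_comm]
    apply add_le_add_left
    have h3 : (univ.filter fun x : V => ¬ x ≠ z) = {z} := by
      ext x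
      simp
    rw [h3, Finset.sum_singleton]
    exact_mod_cast wp_self G z
  calc ∑ z : V, ∑ x : V, (wp G z x : ℝ) ≤ ∑ z : V, (((univ.filter fun u => G.Adj z u).card : ℝ) +
      ∑ x ∈ univ.filter (fun x => x ≠ z), (wp G z x : ℝ)) := Finset.sum_le_sum fun z _ => h2 z
    _ = _ := by
      rw [Finset.sum_add_distrib, card_dar]
      push_cast
      rfl

/-- sampling, summed -/
theorem samp_sum {G : SimpleGraph V} {a : ℕ} (hG : Good G a) (κ : ℝ)
    (hκ : ∀ y z : V, G.Adj y z → (cod G G y z : ℝ) ≤ κ) :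
    (tri3 G (fun _ _ _ => 1)) ^ 2 ≤ (a : ℝ) * (Fintype.card V : ℝ) * (κ * (tri3 G (fun _ _ _ => 1) +
      ∑ u : V, ∑ z ∈ univ.filter (fun z => G.Adj u z), (far G u z : ℝ))) := by
  have e0 : ∀ f : V × V → ℝ, ∑ p ∈ dar G, f p = ∑ u : V, ∑ z ∈ univ.filter (fun z => G.Adj u z), f (u, z) := by
    intro f
    unfold dar
    rw [Finset.sum_filter, ← Finset.univ_product_univ, Finset.sum_product]
    apply Finset.sum_congr rfl
    intro u _
    rw [Finset.sum_filter]
  have e1 : tri3 G (fun _ _ _ => 1) = ∑ p ∈ dar G, (cod G G p.1 p.2 : ℝ) := by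
    rw [tri3_edge G (fun _ _ => 1)]
    simp
  have h1 : (∑ p ∈ dar G, (cod G G p.1 p.2 : ℝ)) ^ 2 ≤
      (∑ p ∈ dar G, (cod G G p.1 p.2 : ℝ) / ((cod G G p.1 p.2 : ℝ) + (far G p.1 p.2 : ℝ))) *
      ∑ p ∈ dar G, (cod G G p.1 p.2 : ℝ) * ((cod G G p.1 p.2 : ℝ) + (far G p.1 p.2 : ℝ)) := by
    apply Finset.sum_sq_le_sum_mul_sum_of_sq_le_mul
    · intro p _
      positivity
    · intro p _
      positivity
    · intro p _
      rcases eq_or_ne ((cod G G p.1 p.2 : ℝ) + (far G p.1 p.2 : ℝ)) 0 with h | h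
      · have h2 : (cod G G p.1 p.2 : ℝ) = 0 := by
          have h3 : (0 : ℝ) ≤ (cod G G p.1 p.2 : ℝ) := Nat.cast_nonneg _
          have h4 : (0 : ℝ) ≤ (far G p.1 p.2 : ℝ) := Nat.cast_nonneg _
          linarith
        rw [h2]
        simp
      · apply le_of_eq
        field_simp
  have h2 : ∑ p ∈ dar G, (cod G G p.1 p.2 : ℝ) / ((cod G G p.1 p.2 : ℝ) + (far G p.1 p.2 : ℝ)) ≤
      a * (Fintype.card V : ℝ) := by
    rw [e0]
    calc _ ≤ ∑ _u : V, (a : ℝ) := Finset.sum_le_sum fun u _ => link_sampling hG u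
      _ = _ := by rw [Finset.sum_const, Finset.card_univ, nsmul_eq_mul, mul_comm]
  have h3 : ∑ p ∈ dar G, (cod G G p.1 p.2 : ℝ) * ((cod G G p.1 p.2 : ℝ) + (far G p.1 p.2 : ℝ)) ≤
      κ * (tri3 G (fun _ _ _ => 1) +
      ∑ u : V, ∑ z ∈ univ.filter (fun z => G.Adj u z), (far G u z : ℝ)) := by
    rw [e1, ← e0 (fun p => (far G p.1 p.2 : ℝ)), ← Finset.sum_add_distrib, Finset.mul_sum]
    apply Finset.sum_le_sum
    intro p hp
    apply mul_le_mul_of_nonneg_right (hκ p.1 p.2 (mem_dar.mp hp))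
    positivity
  have h4 : 0 ≤ ∑ p ∈ dar G, (cod G G p.1 p.2 : ℝ) * ((cod G G p.1 p.2 : ℝ) + (far G p.1 p.2 : ℝ)) :=
    Finset.sum_nonneg fun p _ => by positivity
  calc (tri3 G (fun _ _ _ => 1)) ^ 2 = (∑ p ∈ dar G, (cod G G p.1 p.2 : ℝ)) ^ 2 := by rw [e1]
    _ ≤ _ := h1
    _ ≤ (a * (Fintype.card V : ℝ)) *
      ∑ p ∈ dar G, (cod G G p.1 p.2 : ℝ) * ((cod G G p.1 p.2 : ℝ) + (far G p.1 p.2 : ℝ)) :=
        mul_le_mul_of_nonneg_right h2 h4
    _ ≤ _ := mul_le_mul_of_nonneg_left h3 (by positivity)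

/-- the real inequality behind the theorem -/
theorem sixth_real (N a κ τ D X β C : ℝ) (hN : 0 < N) (ha : 1 ≤ a) (hβ : 1 ≤ β) (hβa : β ^ 3 = a)
    (hC : 1 ≤ C) (hτ0 : 0 ≤ τ) (hX0 : 0 ≤ X) (hκ0 : 0 ≤ κ)
    (hA : X ^ 2 ≤ N * (a * (2 * a * (κ * τ) + 4 * κ * X)))
    (hB : τ ^ 2 ≤ a * N * (κ * (τ + (D + X))))
    (hT : D ^ 2 ≤ N * a * (τ + D)) (hD : κ * D ≤ C * τ) : D ≤ 4 * C * β * a * N := by
  by_contra hcon
  push Not at hcon
  obtain ⟨t, ht⟩ : ∃ t : ℝ, τ = t * N := ⟨τ / N, by field_simp⟩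
  obtain ⟨d, hd⟩ : ∃ d : ℝ, D = d * N := ⟨D / N, by field_simp⟩
  obtain ⟨x, hx⟩ : ∃ x : ℝ, X = x * N := ⟨X / N, by field_simp⟩
  subst ht hd hx
  have hN2 : 0 < N ^ 2 := by positivity
  have ht0 : 0 ≤ t := by
    by_contra h
    push Not at h
    nlinarith
  have hx0 : 0 ≤ x := by
    by_contra h
    push Not at h
    nlinarith
  have hd4 : 4 * C * β * a < d := lt_of_mul_lt_mul_right hcon hN.le
  have hA' : x ^ 2 ≤ 2 * a ^ 2 * κ * t + 4 * a * κ * x := by
    apply le_of_mul_le_mul_left _ hN2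
    calc N ^ 2 * x ^ 2 = (x * N) ^ 2 := by ring
      _ ≤ _ := hA
      _ = _ := by ring
  have hB' : t ^ 2 ≤ a * κ * (t + d + x) := by
    apply le_of_mul_le_mul_left _ hN2
    calc N ^ 2 * t ^ 2 = (t * N) ^ 2 := by ring
      _ ≤ _ := hB
      _ = _ := by ring
  have hT' : d ^ 2 ≤ a * (t + d) := by
    apply le_of_mul_le_mul_left _ hN2
    calc N ^ 2 * d ^ 2 = (d * N) ^ 2 := by ring
      _ ≤ _ := hT
      _ = _ := by ring
  have hD' : κ * d ≤ C * t := by
    apply le_of_mul_le_mul_left _ hN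
    calc N * (κ * d) = κ * (d * N) := by ring
      _ ≤ _ := hD
      _ = _ := by ring
  have hCa : 0 < C * a := by positivity
  have hda : 4 * (C * a) < d := by
    have : 4 * (C * a) ≤ 4 * C * β * a := by nlinarith
    linarith
  have ha0 : 0 < a := by linarith
  have hC0 : 0 < C := by linarith
  have hd0 : 0 < d := by linarith
  have had : 4 * a ≤ d := by nlinarith
  -- `a t ≥ (3/4) d²`
  have h1 : 3 / 4 * d ^ 2 ≤ a * t := by nlinarith
  -- `t ≥ 3 C d`
  have h2 : 3 * C * d ≤ t := by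
    by_contra h
    push Not at h
    have h3 : a * t < a * (3 * C * d) := mul_lt_mul_of_pos_left h ha0
    nlinarith
  have ht1 : 0 < t := by
    have : 0 < 3 * C * d := by positivity
    linarith
  -- `t d ≤ a C (t + d + x)`
  have h4 : t * d ≤ a * C * (t + d + x) := by
    apply le_of_mul_le_mul_left _ ht1
    calc t * (t * d) = t ^ 2 * d := by ring
      _ ≤ a * κ * (t + d + x) * d := mul_le_mul_of_nonneg_right hB' hd0.le
      _ = a * (t + d + x) * (κ * d) := by ring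
      _ ≤ a * (t + d + x) * (C * t) := mul_le_mul_of_nonneg_left hD' (by positivity)
      _ = _ := by ring
  have h5 : 2 / 3 * (t * d) ≤ a * C * x := by
    have e1 : a * C * t ≤ 1 / 4 * (t * d) := by nlinarith
    have e2 : a * C * d ≤ 1 / 12 * (t * d) := by
      have e3 : a * C * d ≤ 1 / 4 * (d * d) := by nlinarith
      have e4 : 3 * (d * d) ≤ t * d := by
        have : 3 * d ≤ t := by nlinarith
        nlinarith
      linarith
    nlinarith
  have hx1 : 0 < x := by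
    by_contra h
    push Not at h
    have h6 : x = 0 := le_antisymm h hx0
    rw [h6] at h5
    have : 0 < t * d := by positivity
    linarith
  -- multiply the first inequality by `d`
  have h7 : d * x ^ 2 ≤ 2 * a ^ 2 * C * t ^ 2 + 4 * a * C * t * x := by
    calc d * x ^ 2 ≤ d * (2 * a ^ 2 * κ * t + 4 * a * κ * x) := mul_le_mul_of_nonneg_left hA' hd0.le
      _ = (2 * a ^ 2 * t + 4 * a * x) * (κ * d) := by ring
      _ ≤ (2 * a ^ 2 * t + 4 * a * x) * (C * t) := mul_le_mul_of_nonneg_left hD' (by positivity)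
      _ = _ := by ring
  have h8 : t * d ≤ 3 / 2 * (a * C * x) := by linarith
  have h9 : (t * d) ^ 2 ≤ (3 / 2 * (a * C * x)) ^ 2 := by
    apply pow_le_pow_left₀ (by positivity) h8
  have h10 : d ^ 3 * x ^ 2 ≤ (9 / 2 * a ^ 4 * C ^ 3 + 6 * a ^ 2 * C ^ 2 * d) * x ^ 2 := by
    calc d ^ 3 * x ^ 2 = d ^ 2 * (d * x ^ 2) := by ring
      _ ≤ d ^ 2 * (2 * a ^ 2 * C * t ^ 2 + 4 * a * C * t * x) := mul_le_mul_of_nonneg_left h7 (by positivity)
      _ = 2 * a ^ 2 * C * (t * d) ^ 2 + 4 * a * C * x * d * (t * d) := by ring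
      _ ≤ 2 * a ^ 2 * C * (3 / 2 * (a * C * x)) ^ 2 + 4 * a * C * x * d * (3 / 2 * (a * C * x)) := by
          apply add_le_add
          · exact mul_le_mul_of_nonneg_left h9 (by positivity)
          · exact mul_le_mul_of_nonneg_left h8 (by positivity)
      _ = _ := by ring
  have h11 : d ^ 3 ≤ 9 / 2 * a ^ 4 * C ^ 3 + 6 * a ^ 2 * C ^ 2 * d :=
    le_of_mul_le_mul_right h10 (by positivity)
  have h12 : 16 * (a ^ 2 * C ^ 2) ≤ d ^ 2 := by
    calc 16 * (a ^ 2 * C ^ 2) = (4 * (C * a)) ^ 2 := by ring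
      _ ≤ d ^ 2 := pow_le_pow_left₀ (by positivity) hda.le 2
  have h13 : 6 * a ^ 2 * C ^ 2 * d ≤ 3 / 8 * d ^ 3 := by
    calc 6 * a ^ 2 * C ^ 2 * d = 3 / 8 * (16 * (a ^ 2 * C ^ 2)) * d := by ring
      _ ≤ 3 / 8 * d ^ 2 * d := by
          apply mul_le_mul_of_nonneg_right _ hd0.le
          exact mul_le_mul_of_nonneg_left h12 (by norm_num)
      _ = _ := by ring
  have h14 : (4 * C * β * a) ^ 3 < d ^ 3 := pow_lt_pow_left₀ hd4 (by positivity) (by norm_num)
  have h15 : (4 * C * β * a) ^ 3 = 64 * a ^ 4 * C ^ 3 := by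
    calc (4 * C * β * a) ^ 3 = 64 * C ^ 3 * a ^ 3 * β ^ 3 := by ring
      _ = _ := by rw [hβa]; ring
  rw [h15] at h14
  have h16 : 0 < a ^ 4 * C ^ 3 := by positivity
  linarith

/-- no edge lies in many more triangles than the average edge -/
theorem sixth_bound {G : SimpleGraph V} {a : ℕ} (hG : Good G a) (C κ β : ℝ) (hC1 : 1 ≤ C)
    (hκ0 : 0 ≤ κ) (hβ : 1 ≤ β) (hβa : β ^ 3 = (a : ℝ))
    (hκ : ∀ y z : V, G.Adj y z → (cod G G y z : ℝ) ≤ κ)
    (hC : κ * ((dar G).card : ℝ) ≤ C * ∑ p ∈ dar G, (cod G G p.1 p.2 : ℝ)) :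
    (Fintype.card V : ℝ) ≤ 4 * C * β ^ 7 + β ^ 3 := by
  rcases Nat.eq_zero_or_pos (Fintype.card V) with h0 | hpos
  · rw [h0]
    push_cast
    positivity
  have hN0 : (0 : ℝ) < (Fintype.card V : ℝ) := by exact_mod_cast hpos
  have ha1 : (1 : ℝ) ≤ a := by
    rw [← hβa]
    exact one_le_pow₀ hβ
  have ha0 : (0 : ℝ) ≤ a := by linarith
  set X : ℝ := ∑ z : V, ∑ x ∈ univ.filter (fun x => x ≠ z), (wp G z x : ℝ) with hX
  have hX0 : 0 ≤ X := Finset.sum_nonneg fun z _ => Finset.sum_nonneg fun x _ => Nat.cast_nonneg _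
  have e1 : tri3 G (fun _ _ _ => 1) = ∑ p ∈ dar G, (cod G G p.1 p.2 : ℝ) := by
    rw [tri3_edge G (fun _ _ => 1)]
    simp
  have e2 : tri3 G (fun _ _ _ => 1) = ∑ x : V, ((lk G x).card : ℝ) := by
    unfold tri3
    apply Finset.sum_congr rfl
    intro x _
    simp
  have hτ0 : 0 ≤ tri3 G (fun _ _ _ => 1) := by
    rw [e2]
    exact Finset.sum_nonneg fun x _ => Nat.cast_nonneg _
  have hstar : ∀ z : V, (∑ x ∈ univ.filter (fun x => x ≠ z), (wp G z x : ℝ)) ^ 2 ≤
      a * (2 * a * (κ * ((lk G z).card : ℝ)) +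
        4 * κ * ∑ x ∈ univ.filter (fun x => x ≠ z), (wp G z x : ℝ)) := by
    intro z
    have hcov := cover_sixth hG κ hκ z
    have h1 : ∑ c ∈ univ.filter (fun c => c ≠ z), (Ee G z c : ℝ) / ((Ee G z c : ℝ) + 4 * κ) ≤ a := by
      refine le_trans (Finset.sum_le_sum_of_subset_of_nonneg (Finset.filter_subset _ _) ?_) hcov
      intro c _ _
      positivity
    have h2 := star_real (univ.filter fun c => c ≠ z) (fun c => (wp G z c : ℝ))
      (fun c => (Ee G z c : ℝ)) a (4 * κ) ha0 (by positivity) (fun i _ => Nat.cast_nonneg _)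
      (fun i hi => by exact_mod_cast wp_le G (Finset.mem_filter.mp hi).2)
      (fun i hi => wp_sq hG (Finset.mem_filter.mp hi).2) h1
    refine h2.trans ?_
    apply mul_le_mul_of_nonneg_left _ ha0
    have h3 : ∑ i ∈ univ.filter (fun c => c ≠ z), (Ee G z i : ℝ) ≤ κ * ((lk G z).card : ℝ) := by
      refine le_trans (Finset.sum_le_sum_of_subset_of_nonneg (Finset.filter_subset _ _) ?_)
        (sum_Ee G κ hκ z)
      intro c _ _
      positivity
    have h4 := mul_le_mul_of_nonneg_left h3 (by positivity : (0 : ℝ) ≤ 2 * a)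
    linarith
  have hA : X ^ 2 ≤ (Fintype.card V : ℝ) * (a * (2 * a * (κ * tri3 G (fun _ _ _ => 1)) + 4 * κ * X)) := by
    have h1 : X ^ 2 ≤ (Fintype.card V : ℝ) *
        ∑ z : V, (∑ x ∈ univ.filter (fun x => x ≠ z), (wp G z x : ℝ)) ^ 2 := by
      have := sq_sum_le_card_mul_sum_sq (s := (univ : Finset V))
        (f := fun z => ∑ x ∈ univ.filter (fun x => x ≠ z), (wp G z x : ℝ))
      rwa [Finset.card_univ] at this
    refine h1.trans ?_
    apply mul_le_mul_of_nonneg_left _ hN0.le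
    calc ∑ z : V, (∑ x ∈ univ.filter (fun x => x ≠ z), (wp G z x : ℝ)) ^ 2
        ≤ ∑ z : V, a * (2 * a * (κ * ((lk G z).card : ℝ)) +
        4 * κ * ∑ x ∈ univ.filter (fun x => x ≠ z), (wp G z x : ℝ)) :=
          Finset.sum_le_sum fun z _ => hstar z
      _ = _ := by
          rw [← Finset.mul_sum, Finset.sum_add_distrib, ← Finset.mul_sum, ← Finset.mul_sum,
            ← Finset.mul_sum, e2]
  have hF := sum_far G
  have hB0 := samp_sum hG κ hκ
  have hB : (tri3 G (fun _ _ _ => 1)) ^ 2 ≤ a * (Fintype.card V : ℝ) *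
      (κ * (tri3 G (fun _ _ _ => 1) + (((dar G).card : ℝ) + X))) := by
    refine hB0.trans ?_
    apply mul_le_mul_of_nonneg_left _ (by positivity)
    apply mul_le_mul_of_nonneg_left _ hκ0
    linarith
  have hT := turan_links hG
  have hD : κ * ((dar G).card : ℝ) ≤ C * tri3 G (fun _ _ _ => 1) := by
    rw [e1]
    exact hC
  have hfin := sixth_real (Fintype.card V : ℝ) a κ (tri3 G (fun _ _ _ => 1)) ((dar G).card : ℝ) X β C
    hN0 ha1 hβ hβa hC1 hτ0 hX0 hκ0 hA hB hT hD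
  have h := fin_step hG (4 * C * β) (by positivity) hfin
  refine h.trans (le_of_eq ?_)
  rw [← hβa]
  ring

end EH73
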