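import Pool.Agent.Work.MP_185d81_co.Basic

namespace EH73

open Finset Classical

variable {V : Type} [Fintype V]

omit [Fintype V] in
theorem caro_wei (G : SimpleGraph V) (U : Finset V) :
    ∃ I : Finset V, I ⊆ U ∧ G.IsIndepSet (I : Set V) ∧
      ∑ v ∈ U, (1 : ℝ) / (1 + ((U.filter fun y => G.Adj v y).card : ℝ)) ≤ (I.card : ℝ) := by
  induction' hn : U.card using Nat.strong_induction_on with n ih generalizing U
  rcases Finset.eq_empty_or_nonempty U with rfl | hne
  · exact ⟨∅, by simp, by intro x hx; simp at hx, by simp⟩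
  obtain ⟨v, hv, hmin⟩ := Finset.exists_min_image U (fun v => (U.filter fun y => G.Adj v y).card) hne
  set N : Finset V := U.filter fun y => y = v ∨ G.Adj v y with hN
  set U' : Finset V := U.filter fun y => ¬ (y = v ∨ G.Adj v y) with hU'
  have hlt : U'.card < n := by
    rw [← hn]
    apply Finset.card_lt_card
    rw [Finset.ssubset_iff_of_subset (Finset.filter_subset _ _)]
    exact ⟨v, hv, by simp⟩
  obtain ⟨I', hI'U, hI'i, hI's⟩ := ih _ hlt U' rfl
  have hvI' : v ∉ I' := by
    intro h
    have := hI'U h
    simp [hU'] at this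
  refine ⟨insert v I', ?_, ?_, ?_⟩
  · intro y hy
    rw [Finset.mem_insert] at hy
    rcases hy with rfl | hy
    · exact hv
    · exact (Finset.mem_filter.mp (hI'U hy)).1
  · intro x hx y hy hxy hadj
    simp only [Finset.coe_insert, Set.mem_insert_iff, Finset.mem_coe] at hx hy
    rcases hx with rfl | hx
    · rcases hy with rfl | hy
      · exact hxy rfl
      · have := (Finset.mem_filter.mp (hI'U hy)).2
        exact this (Or.inr hadj)
    · rcases hy with rfl | hy
      · have := (Finset.mem_filter.mp (hI'U hx)).2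
        exact this (Or.inr hadj.symm)
      · exact hI'i (by exact_mod_cast hx) (by exact_mod_cast hy) hxy hadj
  · rw [Finset.card_insert_of_notMem hvI']
    push_cast
    have hsplit : ∑ x ∈ U, (1 : ℝ) / (1 + ((U.filter fun y => G.Adj x y).card : ℝ)) =
        ∑ x ∈ N, (1 : ℝ) / (1 + ((U.filter fun y => G.Adj x y).card : ℝ)) +
        ∑ x ∈ U', (1 : ℝ) / (1 + ((U.filter fun y => G.Adj x y).card : ℝ)) := by
      rw [hN, hU', Finset.sum_filter_add_sum_filter_not]
    rw [hsplit]
    have hNc : N.card = (U.filter fun y => G.Adj v y).card + 1 := by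
      have : N = insert v (U.filter fun y => G.Adj v y) := by
        ext y
        simp only [hN, Finset.mem_filter, Finset.mem_insert]
        constructor
        · rintro ⟨h1, h2 | h2⟩
          · exact Or.inl h2
          · exact Or.inr ⟨h1, h2⟩
        · rintro (rfl | h)
          · exact ⟨hv, Or.inl rfl⟩
          · exact ⟨h.1, Or.inr h.2⟩
      rw [this, Finset.card_insert_of_notMem]
      simp
    have h1 : ∑ x ∈ N, (1 : ℝ) / (1 + ((U.filter fun y => G.Adj x y).card : ℝ)) ≤ 1 := by
      calc ∑ x ∈ N, (1 : ℝ) / (1 + ((U.filter fun y => G.Adj x y).card : ℝ))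
          ≤ ∑ x ∈ N, (1 : ℝ) / (1 + ((U.filter fun y => G.Adj v y).card : ℝ)) := by
            apply Finset.sum_le_sum
            intro x hx
            have h2 := hmin x (Finset.mem_filter.mp hx).1
            have h3 : ((U.filter fun y => G.Adj v y).card : ℝ) ≤
              ((U.filter fun y => G.Adj x y).card : ℝ) := by exact_mod_cast h2
            apply one_div_le_one_div_of_le (by positivity)
            linarith
        _ = 1 := by
            rw [Finset.sum_const, hNc, nsmul_eq_mul]
            push_cast
            field_simp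
            ring
    have h2 : ∑ x ∈ U', (1 : ℝ) / (1 + ((U.filter fun y => G.Adj x y).card : ℝ)) ≤
        ∑ x ∈ U', (1 : ℝ) / (1 + ((U'.filter fun y => G.Adj x y).card : ℝ)) := by
      apply Finset.sum_le_sum
      intro x _
      have h3 : ((U'.filter fun y => G.Adj x y).card : ℝ) ≤
          ((U.filter fun y => G.Adj x y).card : ℝ) := by
        exact_mod_cast Finset.card_le_card (Finset.filter_subset_filter _ (Finset.filter_subset _ _))
      apply one_div_le_one_div_of_le (by positivity)
      linarith
    linarith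

theorem turan_sq {G : SimpleGraph V} {a : ℕ} (hind : IndLe G a) (U : Finset V) :
    U.card ^ 2 ≤ a * (((U ×ˢ U).filter fun p => G.Adj p.1 p.2).card + U.card) := by
  obtain ⟨I, _, hI, hs⟩ := caro_wei G U
  have hIa : (I.card : ℝ) ≤ a := by exact_mod_cast hind I hI
  have hpairs : (((U ×ˢ U).filter fun p => G.Adj p.1 p.2).card : ℝ) =
      ∑ v ∈ U, ((U.filter fun y => G.Adj v y).card : ℝ) := by
    rw [Finset.card_filter, Finset.sum_product]
    push_cast
    apply Finset.sum_congr rfl
    intro v _
    rw [Finset.card_filter]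
    push_cast
    rfl
  have hCS : ((U.card : ℝ)) ^ 2 ≤ (∑ v ∈ U, (1 : ℝ) / (1 + ((U.filter fun y => G.Adj v y).card : ℝ))) *
      ∑ v ∈ U, (1 + ((U.filter fun y => G.Adj v y).card : ℝ)) := by
    have := Finset.sum_sq_le_sum_mul_sum_of_sq_eq_mul U
      (r := fun _ => (1 : ℝ))
      (f := fun v => (1 : ℝ) / (1 + ((U.filter fun y => G.Adj v y).card : ℝ)))
      (g := fun v => (1 + ((U.filter fun y => G.Adj v y).card : ℝ)))
      (fun v _ => by positivity) (fun v _ => by positivity)
      (fun v _ => by
        have : (1 + ((U.filter fun y => G.Adj v y).card : ℝ)) ≠ 0 := by positivity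
        field_simp)
    simpa using this
  have hsum : ∑ v ∈ U, (1 + ((U.filter fun y => G.Adj v y).card : ℝ)) =
      (((U ×ˢ U).filter fun p => G.Adj p.1 p.2).card : ℝ) + U.card := by
    rw [Finset.sum_add_distrib, hpairs]
    simp [add_comm]
  rw [hsum] at hCS
  have : ((U.card : ℝ)) ^ 2 ≤ (a : ℝ) * ((((U ×ˢ U).filter fun p => G.Adj p.1 p.2).card : ℝ) + U.card) :=
    hCS.trans (mul_le_mul_of_nonneg_right (hs.trans hIa) (by positivity))
  exact_mod_cast this

theorem turan_deg {G : SimpleGraph V} {a : ℕ} (hind : IndLe G a) (U : Finset V) (Δ : ℕ)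
    (hΔ : ∀ v ∈ U, (U.filter fun y => G.Adj v y).card ≤ Δ) : U.card ≤ a * (Δ + 1) := by
  have h := turan_sq hind U
  have h1 : ((U ×ˢ U).filter fun p => G.Adj p.1 p.2).card ≤ U.card * Δ := by
    rw [Finset.card_filter, Finset.sum_product]
    calc ∑ v ∈ U, ∑ y ∈ U, (if G.Adj (v, y).1 (v, y).2 then 1 else 0)
        = ∑ v ∈ U, (U.filter fun y => G.Adj v y).card := by
          apply Finset.sum_congr rfl
          intro v _
          rw [Finset.card_filter]
      _ ≤ ∑ _v ∈ U, Δ := Finset.sum_le_sum hΔ
      _ = U.card * Δ := by rw [Finset.sum_const, smul_eq_mul]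
  rcases Nat.eq_zero_or_pos U.card with h0 | hpos
  · rw [h0]; exact Nat.zero_le _
  · have h2 : U.card * U.card ≤ U.card * (a * (Δ + 1)) := by
      calc U.card * U.card = U.card ^ 2 := by ring
        _ ≤ a * (((U ×ˢ U).filter fun p => G.Adj p.1 p.2).card + U.card) := h
        _ ≤ a * (U.card * Δ + U.card) := Nat.mul_le_mul_left _ (by omega)
        _ = U.card * (a * (Δ + 1)) := by ring
    exact Nat.le_of_mul_le_mul_left h2 hpos

theorem dar_le {G : SimpleGraph V} {a : ℕ} (hind : IndLe G a) (L : SimpleGraph V) (Δ : ℕ)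
    (hΔ : ∀ u z, L.Adj u z → cod L G u z ≤ Δ) :
    (dar L).card ≤ Fintype.card V * (a * (Δ + 1)) := by
  rw [card_dar]
  calc ∑ u : V, (univ.filter fun v => L.Adj u v).card ≤ ∑ _u : V, a * (Δ + 1) := by
        apply Finset.sum_le_sum
        intro u _
        apply turan_deg hind
        intro z hz
        simp only [Finset.mem_filter, Finset.mem_univ, true_and] at hz
        refine le_trans ?_ (hΔ u z hz)
        unfold cod cn
        apply Finset.card_le_card
        intro y hy
        simp only [Finset.mem_filter, Finset.mem_univ, true_and] at hy ⊢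
        exact hy
    _ = Fintype.card V * (a * (Δ + 1)) := by
        rw [Finset.sum_const, smul_eq_mul, Finset.card_univ]

theorem sq_le {G : SimpleGraph V} {a : ℕ} (hind : IndLe G a) :
    Fintype.card V ^ 2 ≤ a * ((dar G).card + Fintype.card V) := by
  have h := turan_sq hind (univ : Finset V)
  rw [Finset.card_univ] at h
  have : ((univ ×ˢ univ : Finset (V × V)).filter fun p => G.Adj p.1 p.2) = dar G := by
    unfold dar
    rw [Finset.univ_product_univ]
  rwa [this] at h

end EH73
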